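import Pool.Agent.GolS.Defs

open Finset

namespace Pool.Agent.GolS

theorem ArithA_gcd_le (v : ℕ) (hv : 0 < v) (m : ℕ) :
    (Nat.gcd m v : ℝ) ≤ ∑ d ∈ v.divisors, if d ∣ m then (d : ℝ) else 0 := by
  have h1 : Nat.gcd m v ∈ v.divisors := Nat.mem_divisors.2 ⟨Nat.gcd_dvd_right m v, hv.ne'⟩
  have h2 := single_le_sum (f := fun d : ℕ => if d ∣ m then (d : ℝ) else 0) (fun d _ => by
    split_ifs
    · exact Nat.cast_nonneg d
    · exact le_rfl) h1
  simp only [Nat.gcd_dvd_left, if_true] at h2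
  exact h2

/-- `gcd(m,v) ≤ ∑_{d ∣ m, d ∣ v} d`, exchange the sums, `d * #{m ≤ y : d ∣ m} ≤ y`. -/
theorem gcd_sum (v : ℕ) (hv : 0 < v) (y : ℕ) :
    ∑ m ∈ Icc 1 y, (Nat.gcd m v : ℝ) ≤ y * tau v := by
  calc ∑ m ∈ Icc 1 y, (Nat.gcd m v : ℝ)
      ≤ ∑ m ∈ Icc 1 y, ∑ d ∈ v.divisors, (if d ∣ m then (d : ℝ) else 0) :=
        sum_le_sum fun m _ => ArithA_gcd_le v hv m
    _ = ∑ d ∈ v.divisors, ∑ m ∈ Icc 1 y, (if d ∣ m then (d : ℝ) else 0) := sum_comm
    _ ≤ ∑ d ∈ v.divisors, (y : ℝ) := by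
        refine sum_le_sum fun d _ => ?_
        rw [← sum_filter, sum_const, nsmul_eq_mul]
        have h1 : ((Icc 1 y).filter fun m => d ∣ m).card = y / d :=
          Nat.Ioc_filter_dvd_card_eq_div y d
        rw [h1]
        have h2 : y / d * d ≤ y := Nat.div_mul_le_self y d
        exact_mod_cast h2
    _ = y * tau v := by
        rw [sum_const, nsmul_eq_mul, mul_comm]
        rfl

/-- `gcd(m,v) / m ≤ ∑_{d ∣ m, d ∣ v} d / m`; for fixed `d`, `m = d j`, the sum is `∑_{j ≤ y/d} 1/j ≤ 1 + log y`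
(`harmonic_le_one_add_log`). -/
theorem gcd_harm (v : ℕ) (hv : 0 < v) (y : ℕ) (hy : 1 ≤ y) :
    ∑ m ∈ Icc 1 y, (Nat.gcd m v : ℝ) / m ≤ tau v * (1 + Real.log y) := by
  classical
  calc ∑ m ∈ Icc 1 y, (Nat.gcd m v : ℝ) / m
      ≤ ∑ m ∈ Icc 1 y, ∑ d ∈ v.divisors, (if d ∣ m then (d : ℝ) / m else 0) := by
        refine sum_le_sum fun m hm => ?_
        have hm0 : (0 : ℝ) < m := by exact_mod_cast (mem_Icc.1 hm).1
        rw [div_le_iff₀ hm0, sum_mul]
        refine (ArithA_gcd_le v hv m).trans (le_of_eq ?_)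
        refine sum_congr rfl fun d _ => ?_
        split_ifs
        · rw [div_mul_cancel₀ _ hm0.ne']
        · rw [zero_mul]
    _ = ∑ d ∈ v.divisors, ∑ m ∈ Icc 1 y, (if d ∣ m then (d : ℝ) / m else 0) := sum_comm
    _ ≤ ∑ d ∈ v.divisors, (1 + Real.log y) := by
        refine sum_le_sum fun d hd => ?_
        have hd0 : 0 < d := Nat.pos_of_mem_divisors hd
        have hdr : (0 : ℝ) < d := by exact_mod_cast hd0
        rw [← sum_filter]
        have h1 : ∑ m ∈ (Icc 1 y).filter (fun m => d ∣ m), (d : ℝ) / m =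
            ∑ j ∈ ((Icc 1 y).filter (fun m => d ∣ m)).image (fun m => m / d), ((j : ℝ))⁻¹ := by
          rw [sum_image]
          · refine sum_congr rfl fun m hm => ?_
            obtain ⟨j, rfl⟩ := (mem_filter.1 hm).2
            have hj : 1 ≤ d * j := (mem_Icc.1 (mem_filter.1 hm).1).1
            have hj0 : 0 < j := Nat.pos_of_ne_zero fun h => by rw [h] at hj; simp at hj
            have hjr : (0 : ℝ) < j := by exact_mod_cast hj0
            rw [Nat.mul_div_cancel_left _ hd0]
            push_cast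
            field_simp
          · intro m hm m' hm' e
            simp only [coe_filter, Set.mem_setOf_eq] at hm hm'
            obtain ⟨j, rfl⟩ := hm.2
            obtain ⟨j', rfl⟩ := hm'.2
            simp only [Nat.mul_div_cancel_left _ hd0] at e
            rw [e]
        rw [h1]
        have h2 : ((Icc 1 y).filter (fun m => d ∣ m)).image (fun m => m / d) ⊆ Icc 1 y := by
          intro j hj
          obtain ⟨m, hm, rfl⟩ := mem_image.1 hj
          obtain ⟨j, rfl⟩ := (mem_filter.1 hm).2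
          rw [Nat.mul_div_cancel_left _ hd0]
          have h3 := mem_Icc.1 (mem_filter.1 hm).1
          rw [mem_Icc]
          refine ⟨Nat.pos_of_ne_zero fun h => by rw [h] at h3; simp at h3, ?_⟩
          exact le_trans (Nat.le_mul_of_pos_left j hd0) h3.2
        refine (sum_le_sum_of_subset_of_nonneg h2 fun _ _ _ => by positivity).trans ?_
        have h4 := harmonic_le_one_add_log y
        rw [harmonic_eq_sum_Icc] at h4
        push_cast at h4
        exact h4
    _ = tau v * (1 + Real.log y) := by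
        rw [sum_const, nsmul_eq_mul]
        rfl

end Pool.Agent.GolS
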