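import Pool.Agent.GolS.Defs

open Finset

namespace Pool.Agent.GolS

theorem ArithB_odds (y : ℕ) : odds y = (range ((y + 1) / 2)).image fun j => 2 * j + 1 := by
  ext m
  unfold odds
  rw [mem_filter, mem_Icc, mem_image]
  constructor
  · rintro ⟨⟨_, h2⟩, k, rfl⟩
    exact ⟨k, mem_range.2 (by omega), rfl⟩
  · rintro ⟨k, hk, rfl⟩
    rw [mem_range] at hk
    exact ⟨⟨by omega, by omega⟩, k, rfl⟩

theorem ArithB_card (y : ℕ) : (odds y).card = (y + 1) / 2 := by
  rw [ArithB_odds, card_image_of_injective, card_range]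
  intro a b h
  simp only at h
  omega

/-- The number of odd numbers up to `y`. -/
theorem odds_card (y : ℕ) : ((odds y).card : ℝ) ≤ ((y : ℝ) + 1) / 2 := by
  rw [ArithB_card, le_div_iff₀ (by norm_num)]
  have h : (y + 1) / 2 * 2 ≤ y + 1 := Nat.div_mul_le_self _ _
  exact_mod_cast h

theorem ArithB_mul (d : ℕ) (hd : Odd d) (y : ℕ) :
    ((odds y).filter fun m => d ∣ m).card = (odds (y / d)).card := by
  have hd0 : 0 < d := hd.pos
  symm
  apply card_bij (fun j _ => d * j)
  · intro j hj
    unfold odds at hj ⊢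
    rw [mem_filter, mem_Icc] at hj
    rw [mem_filter, mem_filter, mem_Icc]
    refine ⟨⟨⟨Nat.mul_pos hd0 hj.1.1, ?_⟩, hd.mul hj.2⟩, dvd_mul_right _ _⟩
    rw [mul_comm]
    exact (Nat.le_div_iff_mul_le hd0).1 hj.1.2
  · intro a _ b _ h
    exact Nat.eq_of_mul_eq_mul_left hd0 h
  · intro m hm
    unfold odds at hm ⊢
    rw [mem_filter, mem_filter, mem_Icc] at hm
    obtain ⟨⟨⟨h1, h2⟩, h3⟩, j, rfl⟩ := hm
    refine ⟨j, ?_, rfl⟩
    rw [mem_filter, mem_Icc]
    refine ⟨⟨Nat.pos_of_ne_zero fun h => by rw [h] at h1; simp at h1, ?_⟩, ?_⟩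
    · rw [Nat.le_div_iff_mul_le hd0, mul_comm]
      exact h2
    · exact (Nat.odd_mul.1 h3).2

/-- Lower bound for the number of odd numbers up to `y` prime to the odd number `v`: Moebius; for `d ∣ v` the odd
multiples of `d` up to `y` are `d j`, `j` odd, `j ≤ y/d`, and their number differs from `y/(2d)` by at most `1`;
`∑_{d ∣ v} μ(d)/d = phi(v)/v`. -/
theorem odds_coprime (v : ℕ) (hv : Odd v) (y : ℕ) :
    kap v * y / 2 - tau v ≤ (((odds y).filter fun m => Nat.Coprime m v).card : ℝ) := by
  classical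
  have hv0 : 0 < v := hv.pos
  have hvr : (0 : ℝ) < v := by exact_mod_cast hv0
  -- Moebius
  have h1 : ((((odds y).filter fun m => Nat.Coprime m v).card : ℤ)) =
      ∑ d ∈ v.divisors, ArithmeticFunction.moebius d * (((odds y).filter fun m => d ∣ m).card : ℤ) := by
    have h2 : ∀ m ∈ odds y, (if Nat.Coprime m v then (1 : ℤ) else 0) =
        ∑ d ∈ v.divisors, if d ∣ m then ArithmeticFunction.moebius d else 0 := by
      intro m hm
      unfold odds at hm
      rw [mem_filter, mem_Icc] at hm
      rw [← sum_filter]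
      have h3 : v.divisors.filter (fun d => d ∣ m) = (Nat.gcd m v).divisors := by
        ext d
        rw [mem_filter, Nat.mem_divisors, Nat.mem_divisors]
        constructor
        · rintro ⟨⟨h4, h5⟩, h6⟩
          exact ⟨Nat.dvd_gcd h6 h4, (Nat.gcd_pos_of_pos_right m hv0).ne'⟩
        · rintro ⟨h4, _⟩
          exact ⟨⟨h4.trans (Nat.gcd_dvd_right m v), hv0.ne'⟩, h4.trans (Nat.gcd_dvd_left m v)⟩
      rw [h3]
      have h4 := congrFun (congrArg DFunLike.coe ArithmeticFunction.moebius_mul_coe_zeta) (Nat.gcd m v)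
      rw [ArithmeticFunction.coe_mul_zeta_apply, ArithmeticFunction.one_apply] at h4
      rw [h4]
    calc ((((odds y).filter fun m => Nat.Coprime m v).card : ℤ))
        = ∑ m ∈ odds y, (if Nat.Coprime m v then (1 : ℤ) else 0) := by
          rw [card_filter]; push_cast; rfl
      _ = ∑ m ∈ odds y, ∑ d ∈ v.divisors, (if d ∣ m then ArithmeticFunction.moebius d else 0) :=
          sum_congr rfl h2
      _ = ∑ d ∈ v.divisors, ∑ m ∈ odds y, (if d ∣ m then ArithmeticFunction.moebius d else 0) :=
          sum_comm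
      _ = _ := by
          refine sum_congr rfl fun d _ => ?_
          rw [← sum_filter, sum_const, nsmul_eq_mul, mul_comm]
  have h1' : ((((odds y).filter fun m => Nat.Coprime m v).card : ℝ)) =
      ∑ d ∈ v.divisors, (ArithmeticFunction.moebius d : ℝ) *
        (((odds y).filter fun m => d ∣ m).card : ℝ) := by
    exact_mod_cast h1
  -- the totient
  have h2 : kap v = ∑ d ∈ v.divisors, (ArithmeticFunction.moebius d : ℝ) / d := by
    have h3 := (ArithmeticFunction.sum_eq_iff_sum_mul_moebius_eq (R := ℝ)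
      (f := fun n => (n.totient : ℝ)) (g := fun n => (n : ℝ))).1 (by
        intro n hn
        have := Nat.sum_totient n
        exact_mod_cast this) v hv0
    rw [Nat.sum_divisorsAntidiagonal (fun a b => (ArithmeticFunction.moebius a : ℝ) * (b : ℝ))] at h3
    unfold kap
    rw [← h3, sum_div]
    refine sum_congr rfl fun d hd => ?_
    have hdv := Nat.dvd_of_mem_divisors hd
    have hd0 : (0 : ℝ) < d := by exact_mod_cast Nat.pos_of_mem_divisors hd
    rw [Nat.cast_div hdv hd0.ne']
    field_simp
  have hmu : ∀ d : ℕ, |(ArithmeticFunction.moebius d : ℝ)| ≤ 1 := by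
    intro d
    have h := ArithmeticFunction.abs_moebius_le_one (n := d)
    exact_mod_cast h
  have h3 : kap v * y / 2 - ((((odds y).filter fun m => Nat.Coprime m v).card : ℝ)) =
      ∑ d ∈ v.divisors, (ArithmeticFunction.moebius d : ℝ) *
        ((y : ℝ) / (2 * d) - (((odds y).filter fun m => d ∣ m).card : ℝ)) := by
    rw [h1', h2, sum_mul, sum_div, ← sum_sub_distrib]
    refine sum_congr rfl fun d hd => ?_
    have hd0 : (0 : ℝ) < d := by exact_mod_cast Nat.pos_of_mem_divisors hd
    field_simp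
  have h4 : ∑ d ∈ v.divisors, (ArithmeticFunction.moebius d : ℝ) *
      ((y : ℝ) / (2 * d) - (((odds y).filter fun m => d ∣ m).card : ℝ)) ≤ tau v := by
    calc _ ≤ ∑ d ∈ v.divisors, (1 : ℝ) := by
          refine sum_le_sum fun d hd => ?_
          have hdv := Nat.dvd_of_mem_divisors hd
          have hdo : Odd d := Odd.of_dvd_nat hv hdv
          have hd0' : 0 < d := Nat.pos_of_mem_divisors hd
          have hd0 : (0 : ℝ) < d := by exact_mod_cast hd0'
          rw [ArithB_mul d hdo y, ArithB_card]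
          refine le_trans (le_abs_self _) ?_
          rw [abs_mul]
          refine mul_le_one₀ (hmu d) (abs_nonneg _) ?_
          have e1 : (y : ℝ) / d - 1 < ((y / d : ℕ) : ℝ) := by
            have h5 : y < (y / d + 1) * d := by
              have h6 := Nat.div_add_mod y d
              have h7 := Nat.mod_lt y hd0'
              rw [add_mul, one_mul, mul_comm (y / d) d]
              omega
            have h8 : (y : ℝ) < (((y / d : ℕ) : ℝ) + 1) * d := by exact_mod_cast h5
            rw [sub_lt_iff_lt_add, div_lt_iff₀ hd0]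
            exact h8
          have e2 : ((y / d : ℕ) : ℝ) ≤ (y : ℝ) / d := Nat.cast_div_le
          have e3 : ((y / d + 1) / 2 : ℕ) * 2 ≤ y / d + 1 := Nat.div_mul_le_self _ _
          have e4 : y / d ≤ ((y / d + 1) / 2 : ℕ) * 2 := by omega
          have e3' : (((y / d + 1) / 2 : ℕ) : ℝ) * 2 ≤ ((y / d : ℕ) : ℝ) + 1 := by exact_mod_cast e3
          have e4' : ((y / d : ℕ) : ℝ) ≤ (((y / d + 1) / 2 : ℕ) : ℝ) * 2 := by exact_mod_cast e4
          have e5 : (y : ℝ) / (2 * d) = (y : ℝ) / d / 2 := by field_simp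
          rw [e5, abs_le]
          constructor <;> linarith
      _ = tau v := by
          rw [sum_const, nsmul_eq_mul, mul_one]; rfl
  linarith

/-- `1 + 3 + ... + (2q-1) = q^2`. -/
theorem odds_tent (q : ℕ) : ∑ m ∈ odds (2 * q), (2 * (q : ℝ) - m) = (q : ℝ) ^ 2 := by
  have h0 : (2 * q + 1) / 2 = q := by omega
  rw [ArithB_odds, h0, sum_image (by
    intro a _ b _ h
    simp only at h
    omega)]
  have h1 : ∀ n : ℕ, ∑ j ∈ range n, (2 * (j : ℝ) + 1) = (n : ℝ) ^ 2 := by
    intro n
    induction n with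
    | zero => simp
    | succ n ih =>
      rw [sum_range_succ, ih]
      push_cast
      ring
  push_cast
  rw [sum_sub_distrib, h1, sum_const, card_range, nsmul_eq_mul]
  ring

end Pool.Agent.GolS
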