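import Pool.Agent.GolS.EquiA

open Finset

namespace Pool.Agent.GolS

namespace EquiAux

theorem fiber_eq {v : ℕ} [NeZero v] (m d : ℕ) (hd : d ∣ v) (a : ZMod v) :
    (univ.filter fun x : ZMod v => d ∣ x.val ∧ (m : ZMod v) * x = a).card =
      if Nat.gcd (m * d) v ∣ a.val then
        (univ.filter fun x : ZMod v => d ∣ x.val ∧ (m : ZMod v) * x = 0).card else 0 := by
  classical
  have hG : Nat.gcd (m * d) v ∣ v := Nat.gcd_dvd_right _ _
  split_ifs with h
  · obtain ⟨c, hc⟩ := h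
    obtain ⟨s, t, hst⟩ : ∃ s t : ℤ, (Nat.gcd (m * d) v : ℤ) = (m * d : ℕ) * s + (v : ℕ) * t :=
      ⟨_, _, Nat.gcd_eq_gcd_ab (m * d) v⟩
    set y : ZMod v := (d : ZMod v) * (((s * c : ℤ)) : ZMod v) with hy
    have hyd : ZMod.castHom hd (ZMod d) y = 0 := by
      rw [hy, map_mul, map_natCast, ZMod.natCast_self, zero_mul]
    have hya : (m : ZMod v) * y = a := by
      have h1 : ((a.val : ℤ) : ZMod v) = a := by
        rw [Int.cast_natCast, ZMod.natCast_val, ZMod.cast_id]
      rw [← h1, hc]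
      have h2 : (((Nat.gcd (m * d) v * c : ℕ) : ℤ)) = (m * d : ℕ) * (s * c) + (v : ℕ) * (t * c) := by
        push_cast
        push_cast at hst
        rw [hst]
        ring
      rw [h2, hy]
      push_cast
      rw [ZMod.natCast_self]
      ring
    refine Finset.card_bij' (fun x _ => x - y) (fun x _ => x + y) ?_ ?_ ?_ ?_
    · intro x hx
      rw [Finset.mem_filter] at hx ⊢
      obtain ⟨_, h1, h2⟩ := hx
      refine ⟨mem_univ _, ?_, ?_⟩
      · rw [dvd_val_iff hd] at h1 ⊢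
        rw [map_sub, h1, hyd, sub_zero]
      · rw [mul_sub, h2, hya, sub_self]
    · intro x hx
      rw [Finset.mem_filter] at hx ⊢
      obtain ⟨_, h1, h2⟩ := hx
      refine ⟨mem_univ _, ?_, ?_⟩
      · rw [dvd_val_iff hd] at h1 ⊢
        rw [map_add, h1, hyd, add_zero]
      · rw [mul_add, h2, hya, zero_add]
    · intro x _
      exact sub_add_cancel _ _
    · intro x _
      exact add_sub_cancel_right _ _
  · rw [Finset.card_eq_zero, Finset.filter_eq_empty_iff]
    rintro x _ ⟨h1, h2⟩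
    apply h
    rw [dvd_val_iff hG, ← h2]
    obtain ⟨c, hc⟩ := h1
    have hx : x = ((d * c : ℕ) : ZMod v) := by
      rw [← hc, ZMod.natCast_val, ZMod.cast_id]
    rw [hx, ← Nat.cast_mul, map_natCast, ZMod.natCast_eq_zero_iff, ← mul_assoc]
    exact Dvd.dvd.mul_right (Nat.gcd_dvd_left _ _) _

theorem Nd_aux {v : ℕ} [NeZero v] (A : Finset (ZMod v)) (m d : ℕ) (hd : d ∣ v) :
    (univ.filter fun x : ZMod v => d ∣ x.val ∧ (m : ZMod v) * x ∈ A).card =
      (univ.filter fun x : ZMod v => d ∣ x.val ∧ (m : ZMod v) * x = 0).card *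
      (A.filter fun a => Nat.gcd (m * d) v ∣ a.val).card := by
  classical
  rw [Finset.card_eq_sum_card_fiberwise (f := fun x : ZMod v => (m : ZMod v) * x) (t := A)
    (fun x hx => (Finset.mem_filter.1 (Finset.mem_coe.1 hx)).2.2)]
  have h1 : ∀ a ∈ A, ((univ.filter fun x : ZMod v => d ∣ x.val ∧ (m : ZMod v) * x ∈ A).filter
      fun x => (m : ZMod v) * x = a).card = if Nat.gcd (m * d) v ∣ a.val then
        (univ.filter fun x : ZMod v => d ∣ x.val ∧ (m : ZMod v) * x = 0).card else 0 := by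
    intro a ha
    rw [← fiber_eq m d hd a]
    congr 1
    ext x
    simp only [Finset.mem_filter, mem_univ, true_and]
    constructor
    · rintro ⟨⟨h1, h2⟩, h3⟩
      exact ⟨h1, h3⟩
    · rintro ⟨h1, h3⟩
      exact ⟨⟨h1, h3 ▸ ha⟩, h3⟩
  rw [Finset.sum_congr rfl h1, ← Finset.sum_filter, Finset.sum_const, smul_eq_mul, mul_comm]

theorem card_dvd {v d : ℕ} [NeZero v] (hd : d ∣ v) :
    d * (univ.filter fun x : ZMod v => d ∣ x.val).card = v := by
  have hd0 : d ≠ 0 := by
    rintro rfl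
    exact NeZero.ne v (Nat.eq_zero_of_zero_dvd hd)
  have : NeZero d := ⟨hd0⟩
  refine Eq.trans ?_ (card_ker hd)
  congr 2
  exact Finset.filter_congr (fun a _ => dvd_val_iff hd a)

theorem Nd {v : ℕ} [NeZero v] (A : Finset (ZMod v)) (m d : ℕ) (hd : d ∣ v) :
    d * (univ.filter fun x : ZMod v => d ∣ x.val ∧ (m : ZMod v) * x ∈ A).card =
      Nat.gcd (m * d) v * (A.filter fun a => Nat.gcd (m * d) v ∣ a.val).card := by
  classical
  have hG : Nat.gcd (m * d) v ∣ v := Nat.gcd_dvd_right _ _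
  have h1 := Nd_aux (univ : Finset (ZMod v)) m d hd
  have h2 : (univ.filter fun x : ZMod v => d ∣ x.val ∧ (m : ZMod v) * x ∈ (univ : Finset (ZMod v))) =
      univ.filter fun x : ZMod v => d ∣ x.val := by
    refine Finset.filter_congr (fun x _ => ?_)
    simp
  rw [h2] at h1
  have h3 := card_dvd hd
  have h4 := card_dvd hG
  set κ := (univ.filter fun x : ZMod v => d ∣ x.val ∧ (m : ZMod v) * x = 0).card
  set KG := (univ.filter fun a : ZMod v => Nat.gcd (m * d) v ∣ a.val).card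
  have hKG : 0 < KG := by
    rcases Nat.eq_zero_or_pos KG with h | h
    · rw [h, mul_zero] at h4
      exact absurd h4.symm (NeZero.ne v)
    · exact h
  rw [h1, ← mul_assoc] at h3
  have h5 : d * κ = Nat.gcd (m * d) v := by
    apply Nat.eq_of_mul_eq_mul_right hKG
    rw [h3, h4]
  rw [Nd_aux A m d hd, ← mul_assoc, h5]

theorem sum_moebius (n : ℕ) :
    ∑ d ∈ n.divisors, ((ArithmeticFunction.moebius d : ℤ) : ℝ) = if n = 1 then 1 else 0 := by
  have h := ArithmeticFunction.moebius_mul_coe_zeta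
  have h1 : (ArithmeticFunction.moebius * (ArithmeticFunction.zeta : ArithmeticFunction ℤ)) n =
      (1 : ArithmeticFunction ℤ) n := by rw [h]
  rw [ArithmeticFunction.coe_mul_zeta_apply, ArithmeticFunction.one_apply] at h1
  have h2 : ((∑ d ∈ n.divisors, ArithmeticFunction.moebius d : ℤ) : ℝ) =
      ((if n = 1 then 1 else 0 : ℤ) : ℝ) := by rw [h1]
  push_cast at h2
  exact h2

theorem sum_moebius_div (v : ℕ) (hv : 0 < v) :
    ∑ d ∈ v.divisors, ((ArithmeticFunction.moebius d : ℤ) : ℝ) / d = (v.totient : ℝ) / v := by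
  have h1 : ∀ n : ℕ, n > 0 → ∑ i ∈ n.divisors, ((Nat.totient i : ℕ) : ℝ) = (n : ℝ) := by
    intro n _
    have := Nat.sum_totient n
    exact_mod_cast this
  have h2 := ArithmeticFunction.sum_eq_iff_sum_mul_moebius_eq.1 h1 v hv
  rw [← h2, Nat.sum_divisorsAntidiagonal
    (f := fun a b => ((ArithmeticFunction.moebius a : ℤ) : ℝ) * (b : ℝ)), Finset.sum_div]
  refine Finset.sum_congr rfl (fun d hd => ?_)
  have hdv : d ∣ v := Nat.dvd_of_mem_divisors hd
  have hd0 : (d : ℝ) ≠ 0 := by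
    have : d ≠ 0 := by
      rintro rfl
      exact hv.ne' (Nat.eq_zero_of_zero_dvd hdv)
    exact_mod_cast this
  have hv0 : (v : ℝ) ≠ 0 := by exact_mod_cast hv.ne'
  rw [Nat.cast_div hdv hd0]
  field_simp

theorem hc_eq {v : ℕ} [NeZero v] (A : Finset (ZMod v)) (m : ℕ) :
    (hc A m : ℝ) = ∑ d ∈ v.divisors, ((ArithmeticFunction.moebius d : ℤ) : ℝ) *
      ((univ.filter fun x : ZMod v => d ∣ x.val ∧ (m : ZMod v) * x ∈ A).card : ℝ) := by
  classical
  have h1 : hc A m = (univ.filter fun x : ZMod v => Nat.Coprime x.val v ∧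
      (m : ZMod v) * x ∈ A).card := by
    unfold hc
    refine Finset.card_bij (fun u _ => (u : ZMod v)) ?_ ?_ ?_
    · intro u hu
      rw [Finset.mem_filter] at hu ⊢
      exact ⟨mem_univ _, ZMod.val_coe_unit_coprime u, hu.2⟩
    · intro u _ w _ huw
      exact Units.ext huw
    · intro x hx
      rw [Finset.mem_filter] at hx
      refine ⟨ZMod.unitOfCoprime x.val hx.2.1, ?_, ?_⟩
      · rw [Finset.mem_filter]
        refine ⟨mem_univ _, ?_⟩
        rw [ZMod.coe_unitOfCoprime, ZMod.natCast_val, ZMod.cast_id]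
        exact hx.2.2
      · rw [ZMod.coe_unitOfCoprime, ZMod.natCast_val, ZMod.cast_id]
  have hv0 : v ≠ 0 := NeZero.ne v
  have h2 : ∀ x : ZMod v, ∑ d ∈ v.divisors, (if d ∣ x.val then
      ((ArithmeticFunction.moebius d : ℤ) : ℝ) else 0) = if Nat.Coprime x.val v then 1 else 0 := by
    intro x
    rw [← Finset.sum_filter]
    have h3 : v.divisors.filter (fun d => d ∣ x.val) = (Nat.gcd x.val v).divisors := by
      ext d
      rw [Finset.mem_filter, Nat.mem_divisors, Nat.mem_divisors, Nat.dvd_gcd_iff]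
      constructor
      · rintro ⟨⟨h4, _⟩, h5⟩
        exact ⟨⟨h5, h4⟩, Nat.gcd_ne_zero_right hv0⟩
      · rintro ⟨⟨h5, h4⟩, _⟩
        exact ⟨⟨h4, hv0⟩, h5⟩
    rw [h3, sum_moebius]
  rw [h1, Finset.card_eq_sum_ones, Nat.cast_sum, Nat.cast_one]
  have h3 : (univ.filter fun x : ZMod v => Nat.Coprime x.val v ∧ (m : ZMod v) * x ∈ A) =
      (univ.filter fun x : ZMod v => (m : ZMod v) * x ∈ A).filter
        (fun x => Nat.Coprime x.val v) := by
    ext x
    simp only [Finset.mem_filter, mem_univ, true_and]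
    exact and_comm
  rw [h3, Finset.sum_filter, Finset.sum_congr rfl (fun x _ => (h2 x).symm), Finset.sum_comm]
  refine Finset.sum_congr rfl (fun d _ => ?_)
  rw [← Finset.sum_filter, Finset.sum_const, nsmul_eq_mul, mul_comm]
  congr 3
  ext x
  simp only [Finset.mem_filter, mem_univ, true_and]
  exact and_comm

end EquiAux

/-- F2 upper bound for `hc`.
Proof. With Moebius, `hc A m = ∑_{x : ZMod v} (∑_{d ∣ gcd(x.val, v)} μ d) 1_A(m x) = ∑_{d ∣ v} μ(d) N_d` with
`N_d = #{w < v/d : m d w ∈ A}`.  The map `w ↦ m d w` from `Z/(v/d)` to `Z/v` is a homomorphism with image the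
multiples of `G = gcd(m d, v)` (in the sense `G ∣ a.val`), every value is taken `G / d` times, so
`N_d = (G/d) #{a ∈ A : G ∣ a.val}` and by `F1` `|N_d - (q+1)/d| ≤ (G/d) √q ≤ gcd(m,v) √q`.
Sum: `∑_{d ∣ v} μ(d) (q+1)/d = (q+1) phi(v)/v = rho q v`. -/
theorem F2 {q v : ℕ} [NeZero v] {A : Finset (ZMod v)} (h : PDS q v A) (m : ℕ) :
    (hc A m : ℝ) ≤ rho q v + tau v * (Nat.gcd m v : ℝ) * Real.sqrt q := by
  classical
  have hv0 : 0 < v := Nat.pos_of_ne_zero (NeZero.ne v)
  rw [EquiAux.hc_eq]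
  have key : ∀ d ∈ v.divisors, ((ArithmeticFunction.moebius d : ℤ) : ℝ) *
      ((univ.filter fun x : ZMod v => d ∣ x.val ∧ (m : ZMod v) * x ∈ A).card : ℝ) ≤
      ((q : ℝ) + 1) * (((ArithmeticFunction.moebius d : ℤ) : ℝ) / d) +
        (Nat.gcd m v : ℝ) * Real.sqrt q := by
    intro d hd
    have hdv : d ∣ v := Nat.dvd_of_mem_divisors hd
    have hd0 : 0 < d := Nat.pos_of_dvd_of_pos hdv hv0
    have hdR : (0 : ℝ) < d := by exact_mod_cast hd0
    set N := (univ.filter fun x : ZMod v => d ∣ x.val ∧ (m : ZMod v) * x ∈ A).card with hN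
    set G := Nat.gcd (m * d) v with hG
    have hGv : G ∣ v := Nat.gcd_dvd_right _ _
    have hG0 : 0 < G := Nat.pos_of_dvd_of_pos hGv hv0
    have hGR : (0 : ℝ) < G := by exact_mod_cast hG0
    have hNd := EquiAux.Nd A m d hdv
    have hNR : (d : ℝ) * N = G * ((A.filter fun a => G ∣ a.val).card : ℝ) := by
      exact_mod_cast hNd
    have hF := F1 h G hGv
    set a := ((A.filter fun a => G ∣ a.val).card : ℝ) with ha
    have habs : |a - ((q : ℝ) + 1) / G| ≤ Real.sqrt q := by
      rw [← Real.sqrt_sq_eq_abs]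
      exact Real.sqrt_le_sqrt hF
    have hGle : G ≤ d * Nat.gcd m v := by
      apply Nat.le_of_dvd
      · exact Nat.mul_pos hd0 (Nat.gcd_pos_of_pos_right _ hv0)
      · have h1 : G ∣ Nat.gcd (m * d) (v * d) :=
          Nat.dvd_gcd (Nat.gcd_dvd_left _ _) (Dvd.dvd.mul_right hGv d)
        rw [Nat.gcd_mul_right, mul_comm] at h1
        exact h1
    have hGleR : (G : ℝ) ≤ d * (Nat.gcd m v : ℝ) := by exact_mod_cast hGle
    have hdiff : |(N : ℝ) - ((q : ℝ) + 1) / d| ≤ (Nat.gcd m v : ℝ) * Real.sqrt q := by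
      have e1 : (N : ℝ) - ((q : ℝ) + 1) / d = (G / d) * (a - ((q : ℝ) + 1) / G) := by
        have : (N : ℝ) = G * a / d := by
          rw [eq_div_iff hdR.ne', mul_comm, hNR]
        rw [this]
        field_simp
      rw [e1, abs_mul, abs_of_pos (div_pos hGR hdR)]
      refine mul_le_mul ?_ habs (abs_nonneg _) (Nat.cast_nonneg _)
      rw [div_le_iff₀ hdR, mul_comm]
      exact hGleR
    have hmu : |((ArithmeticFunction.moebius d : ℤ) : ℝ)| ≤ 1 := by
      have := ArithmeticFunction.abs_moebius_le_one (n := d)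
      exact_mod_cast this
    have e2 : ((ArithmeticFunction.moebius d : ℤ) : ℝ) * (N : ℝ) =
        ((q : ℝ) + 1) * (((ArithmeticFunction.moebius d : ℤ) : ℝ) / d) +
          ((ArithmeticFunction.moebius d : ℤ) : ℝ) * ((N : ℝ) - ((q : ℝ) + 1) / d) := by
      ring
    rw [e2]
    refine add_le_add_right ?_ _
    refine (le_abs_self _).trans ?_
    rw [abs_mul]
    calc _ ≤ 1 * ((Nat.gcd m v : ℝ) * Real.sqrt q) :=
          mul_le_mul hmu hdiff (abs_nonneg _) zero_le_one
      _ = _ := one_mul _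
  refine (Finset.sum_le_sum key).trans ?_
  rw [Finset.sum_add_distrib, ← Finset.mul_sum, EquiAux.sum_moebius_div v hv0, Finset.sum_const,
    nsmul_eq_mul]
  unfold rho tau
  apply le_of_eq
  ring

/-- For `m` prime to `v` the number `hc A m` is the number of units in `A` (substitution `u ↦ m u`). -/
theorem hc_coprime {v : ℕ} [NeZero v] (A : Finset (ZMod v)) (m : ℕ) (hm : Nat.Coprime m v) :
    hc A m = hc A 1 := by
  classical
  unfold hc
  refine Finset.card_bij' (fun u _ => ZMod.unitOfCoprime m hm * u)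
    (fun u _ => (ZMod.unitOfCoprime m hm)⁻¹ * u) ?_ ?_ ?_ ?_
  · intro u hu
    rw [Finset.mem_filter] at hu ⊢
    refine ⟨mem_univ _, ?_⟩
    rw [Units.val_mul, ZMod.coe_unitOfCoprime, Nat.cast_one, one_mul]
    exact hu.2
  · intro u hu
    rw [Finset.mem_filter] at hu ⊢
    refine ⟨mem_univ _, ?_⟩
    have h1 : (m : ZMod v) = (ZMod.unitOfCoprime m hm : ZMod v) := (ZMod.coe_unitOfCoprime m hm).symm
    rw [h1, Units.val_mul, ← mul_assoc, Units.mul_inv, one_mul]
    have := hu.2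
    rwa [Nat.cast_one, one_mul] at this
  · intro u _
    exact inv_mul_cancel_left _ _
  · intro u _
    exact mul_inv_cancel_left _ _

end Pool.Agent.GolS
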