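import Pool.Agent.GolS.MBasic
import Pool.Agent.GolS.EquiB
import Pool.Agent.GolS.ArithA
import Pool.Agent.GolS.ArithB

open Finset

namespace Pool.Agent.GolS

variable {q v : ℕ} [NeZero v] {A : Finset (ZMod v)}

/-- Sum of `hc` over a set of odd numbers up to `y`: `F2` and `gcd_sum`. -/
theorem hc_sum (h : PDS q v A) (y : ℕ) (Z : Finset ℕ) (hZ : Z ⊆ odds y) :
    ∑ m ∈ Z, (hc A m : ℝ) ≤ Z.card * rho q v + tau v ^ 2 * Real.sqrt q * y := by
  have hv : 0 < v := Nat.pos_of_ne_zero (NeZero.ne v)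
  have h1 : ∑ m ∈ Z, (hc A m : ℝ) ≤
      ∑ m ∈ Z, (rho q v + tau v * (Nat.gcd m v : ℝ) * Real.sqrt q) :=
    sum_le_sum fun m _ => F2 h m
  have h2 : ∑ m ∈ Z, (Nat.gcd m v : ℝ) ≤ ∑ m ∈ Icc 1 y, (Nat.gcd m v : ℝ) :=
    sum_le_sum_of_subset_of_nonneg (hZ.trans (filter_subset _ _)) fun _ _ _ => Nat.cast_nonneg _
  have h3 := gcd_sum v hv y
  have ht : 0 ≤ tau v := Nat.cast_nonneg _
  have hs : 0 ≤ Real.sqrt q := Real.sqrt_nonneg _
  calc _ ≤ _ := h1
    _ = Z.card * rho q v + tau v * Real.sqrt q * ∑ m ∈ Z, (Nat.gcd m v : ℝ) := by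
      rw [sum_add_distrib, sum_const, nsmul_eq_mul, mul_sum]
      congr 1
      exact sum_congr rfl fun m _ => by ring
    _ ≤ Z.card * rho q v + tau v * Real.sqrt q * (y * tau v) := by
      gcongr
      exact h2.trans h3
    _ = _ := by ring

/-- If `M A u ≤ y` then `m u ∈ A` for some odd `m ≤ y`, namely `m = M A u`; if moreover `M A u ∈ Z`. -/
theorem count_M (h : PDS q v A) (Z : Finset ℕ) :
    ((univ.filter fun u : (ZMod v)ˣ => M A (u : ZMod v) ∈ Z).card : ℝ) ≤ ∑ m ∈ Z, (hc A m : ℝ) := by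
  classical
  have h1 : (univ.filter fun u : (ZMod v)ˣ => M A (u : ZMod v) ∈ Z) ⊆
      Z.biUnion fun m => univ.filter fun u : (ZMod v)ˣ => (m : ZMod v) * (u : ZMod v) ∈ A := by
    intro u hu
    rw [mem_filter] at hu
    rw [mem_biUnion]
    exact ⟨_, hu.2, by rw [mem_filter]; exact ⟨mem_univ _, (M_spec h u.isUnit).2⟩⟩
  have h2 := (card_le_card h1).trans card_biUnion_le
  have h3 : ∑ m ∈ Z, (univ.filter fun u : (ZMod v)ˣ => (m : ZMod v) * (u : ZMod v) ∈ A).card =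
      ∑ m ∈ Z, hc A m := rfl
  rw [h3] at h2
  exact_mod_cast h2

/-- The same for `-u` (substitution `u ↦ -u`). -/
theorem count_M_neg (h : PDS q v A) (Z : Finset ℕ) :
    ((univ.filter fun u : (ZMod v)ˣ => M A (-(u : ZMod v)) ∈ Z).card : ℝ) ≤ ∑ m ∈ Z, (hc A m : ℝ) := by
  classical
  have h1 : (univ.filter fun u : (ZMod v)ˣ => M A (-(u : ZMod v)) ∈ Z).card =
      (univ.filter fun u : (ZMod v)ˣ => M A (u : ZMod v) ∈ Z).card := by
    apply card_bij (fun u _ => -u)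
    · intro u hu
      rw [mem_filter] at hu ⊢
      refine ⟨mem_univ _, ?_⟩
      rw [Units.val_neg]
      exact hu.2
    · intro u _ u' _ e
      exact neg_injective e
    · intro u hu
      rw [mem_filter] at hu
      refine ⟨-u, ?_, neg_neg u⟩
      rw [mem_filter, Units.val_neg, neg_neg]
      exact ⟨mem_univ _, hu.2⟩
  rw [h1]
  exact count_M h Z

end Pool.Agent.GolS
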