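import Pool.Agent.GolS.Triple
import Pool.Agent.GolS.FirstA

open Finset

namespace Pool.Agent.GolS

variable {q v : ℕ} [NeZero v] {A : Finset (ZMod v)}

namespace CountAux

theorem two_unit (h : PDS q v A) : (2 : ZMod v) * (2 : ZMod v)⁻¹ = 1 := by
  have h2 : Nat.Coprime 2 v := by
    rw [Nat.coprime_two_left, h.hv]
    have : Even (q ^ 2 + q) := by
      have := Nat.even_mul_succ_self q
      rwa [show q * (q + 1) = q ^ 2 + q by ring] at this
    exact this.add_one
  exact ZMod.coe_mul_inv_eq_one 2 h2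

/-- the pair of a point -/
noncomputable def pr (A : Finset (ZMod v)) (p : ℕ × (ZMod v)ˣ) : ZMod v × ZMod v :=
  ((M A (p.2 : ZMod v) : ZMod v) * p.2,
    ((2 : ZMod v)⁻¹) ^ p.1 * ((M A (-(p.2 : ZMod v)) : ZMod v) * (-(p.2 : ZMod v))))

theorem half_mem (h : PDS q v A) {x : ZMod v} (hx : x ∈ A) (i : ℕ) :
    ((2 : ZMod v)⁻¹) ^ i * x ∈ A := by
  induction i with
  | zero => simpa using hx
  | succ i ih =>
    rw [← h.two]
    have : (2 : ZMod v) * ((2 : ZMod v)⁻¹ ^ (i + 1) * x) = (2 : ZMod v)⁻¹ ^ i * x := by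
      rw [pow_succ]
      linear_combination ((2 : ZMod v)⁻¹ ^ i * x) * two_unit h
    rw [this]
    exact ih

theorem pr_rel (h : PDS q v A) {i j : ℕ} {u u' : (ZMod v)ˣ} (hij : i ≤ j)
    (e : pr A (i, u) = pr A (j, u')) :
    (M A (u : ZMod v) : ZMod v) * u = (M A (u' : ZMod v) : ZMod v) * u' ∧
    (M A (-(u' : ZMod v)) : ZMod v) * (-(u' : ZMod v)) =
      2 ^ (j - i) * ((M A (-(u : ZMod v)) : ZMod v) * (-(u : ZMod v))) := by
  refine ⟨congrArg Prod.fst e, ?_⟩
  have h1 : ((2 : ZMod v)⁻¹) ^ i * ((M A (-(u : ZMod v)) : ZMod v) * (-(u : ZMod v))) =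
      ((2 : ZMod v)⁻¹) ^ j * ((M A (-(u' : ZMod v)) : ZMod v) * (-(u' : ZMod v))) :=
    congrArg Prod.snd e
  have h2 : ∀ n : ℕ, (2 : ZMod v) ^ n * ((2 : ZMod v)⁻¹) ^ n = 1 := by
    intro n
    rw [← mul_pow, two_unit h, one_pow]
  obtain ⟨t, rfl⟩ := Nat.exists_eq_add_of_le hij
  rw [Nat.add_sub_cancel_left]
  rw [pow_add] at h1
  generalize (M A (-(u : ZMod v)) : ZMod v) * (-(u : ZMod v)) = x at *
  generalize (M A (-(u' : ZMod v)) : ZMod v) * (-(u' : ZMod v)) = y at *
  have h3 : (2 : ZMod v) ^ t * (2 ^ i * ((2 : ZMod v)⁻¹ ^ i * x)) =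
      2 ^ t * (2 ^ i * ((2 : ZMod v)⁻¹ ^ i * (2 : ZMod v)⁻¹ ^ t * y)) := by rw [h1]
  have h4 : (2 : ZMod v) ^ t * (2 ^ i * ((2 : ZMod v)⁻¹ ^ i * x)) = 2 ^ t * x := by
    linear_combination (2 ^ t * x) * h2 i
  have h5 : (2 : ZMod v) ^ t * (2 ^ i * ((2 : ZMod v)⁻¹ ^ i * (2 : ZMod v)⁻¹ ^ t * y)) = y := by
    linear_combination (2 ^ t * (2 : ZMod v)⁻¹ ^ t * y) * h2 i + y * h2 t
  rw [h4, h5] at h3
  exact h3.symm

theorem card_units (A : Finset (ZMod v)) : (A.filter fun a => IsUnit a).card = hc A 1 := by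
  classical
  unfold hc
  symm
  apply card_bij (fun (u : (ZMod v)ˣ) _ => (u : ZMod v))
  · intro u hu
    rw [mem_filter] at hu ⊢
    refine ⟨?_, u.isUnit⟩
    simpa using hu.2
  · intro u _ u' _ e
    exact Units.ext e
  · intro a ha
    rw [mem_filter] at ha
    obtain ⟨u, rfl⟩ := ha.2
    refine ⟨u, ?_, rfl⟩
    rw [mem_filter]
    exact ⟨mem_univ _, by simpa using ha.1⟩

end CountAux

open CountAux

/-- Double counting.
Proof. For `i < N` and `u ∈ T` put `pr i u = (M(u) u, 2^(-i) M(-u) (-u))`, an element of `A* × A`, `A*` the units in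
`A`, `#A* = hc A 1`.  For a pair `p` the points `(i,u)` with `pr i u = p` and `M u ∉ Exc` are at most two:
among three, no two have the same `i` (`det_rel` with `t = 0`), and the one with smallest `i` has
`M u ∈ Exc` by `triple_exc`.  The points with `M u ∈ Exc` are at most `N ∑_{m ∈ Exc, (m,v)=1} hc A m`, and
`hc A m = hc A 1` for these `m` (`count_M`, `hc_coprime`). -/
theorem count_ineq (h : PDS q v A) (N S l : ℕ) (hlS : l ≤ S) (hSq : S ≤ q)
    (H : ∀ u : (ZMod v)ˣ, M A (u : ZMod v) + M A (-(u : ZMod v)) ≤ 2 * q + l) :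
    (N : ℝ) * (T A q S).card ≤
      (2 * ((q : ℝ) + 1) + N * (Exc N q (((S : ℝ) + 2) / q)).card) * hc A 1 := by
  classical
  set E := Exc N q (((S : ℝ) + 2) / q) with hE
  set P := range N ×ˢ T A q S with hP
  set G := P.filter fun p => M A (p.2 : ZMod v) ∉ E with hG
  set B := P.filter fun p => M A (p.2 : ZMod v) ∈ E with hB
  have hPcard : (P.card : ℝ) = N * (T A q S).card := by
    rw [hP, card_product, card_range]
    push_cast
    rfl
  have hsplit : P.card = B.card + G.card := by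
    rw [hB, hG]
    exact (card_filter_add_card_filter_not (s := P) (fun p => M A (p.2 : ZMod v) ∈ E)).symm
  have hl : l ≤ q := hlS.trans hSq
  -- the good points
  have hGcard : G.card ≤ 2 * ((A.filter fun a => IsUnit a) ×ˢ A).card := by
    apply card_le_mul_card_image_of_maps_to (f := pr A)
    · intro p hp
      rw [hG, mem_filter, hP, mem_product] at hp
      have hT := hp.1.2
      unfold T at hT
      rw [mem_filter] at hT
      have hu : IsUnit (p.2 : ZMod v) := p.2.isUnit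
      rw [mem_product, mem_filter]
      refine ⟨⟨(M_spec h hu).2, ?_⟩, half_mem h (M_spec h hu.neg).2 _⟩
      exact ((ZMod.isUnit_iff_coprime _ _).2 hT.2.2.1).mul hu
    · intro b _
      by_contra hcon
      push Not at hcon
      obtain ⟨p, hp, p', hp', p'', hp'', hne, hne', hne''⟩ := two_lt_card.1 hcon
      rw [mem_filter, hG, mem_filter, hP, mem_product] at hp hp' hp''
      -- two points of the same pair are on different levels
      have hlev : ∀ a c : ℕ × (ZMod v)ˣ, a.2 ∈ T A q S → c.2 ∈ T A q S → pr A a = pr A c →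
          a ≠ c → a.1 ≠ c.1 := by
        rintro ⟨i, u⟩ ⟨j, u'⟩ ha hc e hac hij
        simp only at ha hc hij
        subst hij
        obtain ⟨h1, h2⟩ := pr_rel h le_rfl e
        rw [Nat.sub_self] at h2
        obtain ⟨k, -, -, -, hk⟩ := det_rel h S l hl H ha hc 0 h1 h2
        exact hac (by rw [hk rfl])
      have key : ∀ a c d : ℕ × (ZMod v)ˣ, a.2 ∈ T A q S → c.2 ∈ T A q S → d.2 ∈ T A q S →
          d.1 < N → pr A a = pr A c → pr A c = pr A d → a.1 < c.1 → c.1 < d.1 →
          M A (a.2 : ZMod v) ∈ E := by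
        rintro ⟨i, u⟩ ⟨j, u'⟩ ⟨k, u''⟩ ha hc hd hk e1 e2 hij hjk
        simp only at ha hc hd hk hij hjk
        obtain ⟨h1, h2⟩ := pr_rel h hij.le e1
        obtain ⟨h3, h4⟩ := pr_rel h hjk.le e2
        exact triple_exc h N S l hlS hSq H ha hc hd (j - i) (k - j) (by omega) (by omega)
          (by omega) h1 h3 h2 h4
      obtain ⟨⟨⟨hr, hT⟩, hn⟩, hb⟩ := hp
      obtain ⟨⟨⟨hr', hT'⟩, hn'⟩, hb'⟩ := hp'
      obtain ⟨⟨⟨hr'', hT''⟩, hn''⟩, hb''⟩ := hp''
      rw [mem_range] at hr hr' hr''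
      have l1 := hlev p p' hT hT' (hb.trans hb'.symm) hne
      have l2 := hlev p p'' hT hT'' (hb.trans hb''.symm) hne'
      have l3 := hlev p' p'' hT' hT'' (hb'.trans hb''.symm) hne''
      rcases lt_or_gt_of_ne l1 with g1 | g1 <;> rcases lt_or_gt_of_ne l2 with g2 | g2 <;>
        rcases lt_or_gt_of_ne l3 with g3 | g3
      · exact hn (key p p' p'' hT hT' hT'' hr'' (hb.trans hb'.symm) (hb'.trans hb''.symm) g1 g3)
      · exact hn (key p p'' p' hT hT'' hT' hr' (hb.trans hb''.symm) (hb''.trans hb'.symm) g2 g3)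
      · omega
      · exact hn'' (key p'' p p' hT'' hT hT' hr' (hb''.trans hb.symm) (hb.trans hb'.symm) g2 g1)
      · exact hn' (key p' p p'' hT' hT hT'' hr'' (hb'.trans hb.symm) (hb.trans hb''.symm) g1 g2)
      · omega
      · exact hn' (key p' p'' p hT' hT'' hT hr (hb'.trans hb''.symm) (hb''.trans hb.symm) g3 g2)
      · exact hn'' (key p'' p' p hT'' hT' hT hr (hb''.trans hb'.symm) (hb'.trans hb.symm) g3 g1)
  rw [card_product, card_units, h.card] at hGcard
  -- the exceptional points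
  have hBcard : (B.card : ℝ) ≤ N * (E.card * hc A 1) := by
    have h1 : B ⊆ range N ×ˢ (univ.filter fun u : (ZMod v)ˣ =>
        M A (u : ZMod v) ∈ E.filter fun m => Nat.Coprime m v) := by
      intro p hp
      rw [hB, mem_filter, hP, mem_product] at hp
      have hT := hp.1.2
      unfold T at hT
      rw [mem_filter] at hT
      rw [mem_product, mem_filter, mem_filter]
      exact ⟨hp.1.1, mem_univ _, hp.2, hT.2.2.1⟩
    have h2 := card_le_card h1
    rw [card_product, card_range] at h2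
    have h3 := count_M h (E.filter fun m => Nat.Coprime m v)
    have h4 : ∑ m ∈ E.filter (fun m => Nat.Coprime m v), (hc A m : ℝ) ≤ E.card * hc A 1 := by
      calc ∑ m ∈ E.filter (fun m => Nat.Coprime m v), (hc A m : ℝ)
          = ∑ m ∈ E.filter (fun m => Nat.Coprime m v), (hc A 1 : ℝ) := by
            refine sum_congr rfl fun m hm => ?_
            rw [hc_coprime A m (mem_filter.1 hm).2]
        _ ≤ E.card * hc A 1 := by
            rw [sum_const, nsmul_eq_mul]
            gcongr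
            exact filter_subset _ _
    calc (B.card : ℝ) ≤ (N * (univ.filter fun u : (ZMod v)ˣ =>
        M A (u : ZMod v) ∈ E.filter fun m => Nat.Coprime m v).card : ℕ) := by exact_mod_cast h2
      _ = N * ((univ.filter fun u : (ZMod v)ˣ =>
        M A (u : ZMod v) ∈ E.filter fun m => Nat.Coprime m v).card : ℝ) := by push_cast; rfl
      _ ≤ N * (E.card * hc A 1) := by
        refine mul_le_mul_of_nonneg_left ?_ (Nat.cast_nonneg N)
        refine le_trans ?_ h4
        convert h3 using 3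
  have hG' : (G.card : ℝ) ≤ 2 * (hc A 1 * ((q : ℝ) + 1)) := by exact_mod_cast hGcard
  calc (N : ℝ) * (T A q S).card = (B.card : ℝ) + G.card := by
        rw [← hPcard, hsplit]; push_cast; rfl
    _ ≤ N * (E.card * hc A 1) + 2 * (hc A 1 * ((q : ℝ) + 1)) := add_le_add hBcard hG'
    _ = _ := by ring

end Pool.Agent.GolS
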