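import Mathlib

/-!
# Golomb rulers from Singer sets, MP_1e2239_co

Definitions.  `q` is a power of two, `v = q ^ 2 + q + 1`.
-/

open Finset

namespace Pool.Agent.GolS

/-- A planar difference set `A` in `Z/v`, `v = q ^ 2 + q + 1`, with `2 A = A` and `0` not in `A`. -/
structure PDS (q v : ℕ) (A : Finset (ZMod v)) : Prop where
  hv : v = q ^ 2 + q + 1
  hq : 2 ≤ q
  card : A.card = q + 1
  diff : ∀ d : ZMod v, d ≠ 0 → ∃ a ∈ A, ∃ b ∈ A, a - b = d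
  sidon : ∀ a ∈ A, ∀ b ∈ A, ∀ c ∈ A, ∀ d ∈ A, a ≠ b → a - b = c - d → a = c ∧ b = d
  two : ∀ a : ZMod v, 2 * a ∈ A ↔ a ∈ A
  zero : (0 : ZMod v) ∉ A

/-- The number of units `u` of `Z/v` with `m u ∈ A`. -/
noncomputable def hc {v : ℕ} [NeZero v] (A : Finset (ZMod v)) (m : ℕ) : ℕ :=
  (univ.filter fun u : (ZMod v)ˣ => (m : ZMod v) * (u : ZMod v) ∈ A).card

/-- The least positive integer `m` with `m x ∈ A` (`0` if there is none). -/
noncomputable def M {v : ℕ} (A : Finset (ZMod v)) (x : ZMod v) : ℕ :=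
  sInf {m : ℕ | 1 ≤ m ∧ (m : ZMod v) * x ∈ A}

/-- `tau v`: the number of divisors, as a real number. -/
noncomputable def tau (v : ℕ) : ℝ := (v.divisors.card : ℝ)

/-- `kap v = phi(v) / v`. -/
noncomputable def kap (v : ℕ) : ℝ := (v.totient : ℝ) / v

/-- `rho q v = (q + 1) phi(v) / v`. -/
noncomputable def rho (q v : ℕ) : ℝ := ((q : ℝ) + 1) * (v.totient : ℝ) / v

/-- The odd numbers in `[1, y]`. -/
def odds (y : ℕ) : Finset ℕ := (Icc 1 y).filter fun m => Odd m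

/-- The good units. -/
noncomputable def T {v : ℕ} [NeZero v] (A : Finset (ZMod v)) (q S : ℕ) : Finset (ZMod v)ˣ :=
  univ.filter fun u => 2 * M A (u : ZMod v) ≤ q ∧ Nat.Coprime (M A (u : ZMod v)) v ∧
    2 * q ≤ M A (u : ZMod v) + M A (-(u : ZMod v)) + S ∧
    Nat.Coprime (M A (u : ZMod v)) (M A (-(u : ZMod v)))

/-- The quadratic polynomial of the elimination, with `a = 2 ^ s`, `b = 2 ^ t`. -/
def P0 (a b k01 k12 k02 y : ℝ) : ℝ :=
  (2 * a * b - (a * b - 1) * y) * (k12 * (2 * a - (a - 1) * y) + 2 * k01 + 4 * y) -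
    (2 * b * (2 * a - (a - 1) * y) - (b - 1) * (k01 + 2 * y)) * (k02 + 2 * y)

open Classical in
/-- The exceptional set of values of `M`. -/
noncomputable def Exc (N q : ℕ) (eta : ℝ) : Finset ℕ :=
  (Icc 1 q).filter fun m => ∃ s t : ℕ, 1 ≤ s ∧ 1 ≤ t ∧ s + t < N ∧ ∃ k01 k12 k02 : ℤ,
    |k01| < 2 ^ (s + 1) ∧ Odd k12 ∧ |k12| < 2 ^ (t + 1) ∧ |k02| < 2 ^ (s + t + 1) ∧
    |P0 (2 ^ s) (2 ^ t) k01 k12 k02 ((m : ℝ) / q)| ≤ 40 * (2 ^ s) ^ 2 * (2 ^ t) ^ 2 * eta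

end Pool.Agent.GolS
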