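import Pool.Agent.GolS.MBasic

open Finset

namespace Pool.Agent.GolS

variable {q v : ℕ} [NeZero v] {A : Finset (ZMod v)}

/-- Two points of the same pair.
Proof. `m = M u`, `n = M(-u)`, `m' = M u'`, `n' = M(-u')`.  From `m u = m' u'` and `n' u' = 2^t n u`:
`m n' m u = m n' m' u' = m m' 2^t n u`, so (cancel the units `m`, `u`) `m n' = 2^t m' n` in `Z/v`, which gives `k`.
`m' n ≤ (q/2)(2q+l) < 2 v` and `m n' < 2 v`, so `|k| v < 2^(t+1) v`.  All of `m, n, m', n'` and `v` are odd, so for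
`t ≥ 1` `k` is odd, for `t = 0` `k` is even, `|k| < 2`, `k = 0`, `m' n = m n'`, and as `gcd(m,n) = gcd(m',n') = 1`
`m = m'`, so `u = u'`. -/
theorem det_rel (h : PDS q v A) (S l : ℕ) (hl : l ≤ q)
    (H : ∀ u : (ZMod v)ˣ, M A (u : ZMod v) + M A (-(u : ZMod v)) ≤ 2 * q + l)
    {u u' : (ZMod v)ˣ} (hu : u ∈ T A q S) (hu' : u' ∈ T A q S) (t : ℕ)
    (h1 : (M A (u : ZMod v) : ZMod v) * u = (M A (u' : ZMod v) : ZMod v) * u')
    (h2 : (M A (-(u' : ZMod v)) : ZMod v) * (-(u' : ZMod v)) =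
      2 ^ t * ((M A (-(u : ZMod v)) : ZMod v) * (-(u : ZMod v)))) :
    ∃ k : ℤ, (2 : ℤ) ^ t * M A (u' : ZMod v) * M A (-(u : ZMod v)) -
        M A (u : ZMod v) * M A (-(u' : ZMod v)) = k * v ∧
      |k| < 2 ^ (t + 1) ∧ (1 ≤ t → Odd k) ∧ (t = 0 → u = u') := by
  have hHu := H u
  have hHu' := H u'
  have ou : Odd (M A (u : ZMod v)) := M_odd h u.isUnit
  have ou' : Odd (M A (u' : ZMod v)) := M_odd h u'.isUnit
  have on : Odd (M A (-(u : ZMod v))) := M_odd h (u.isUnit.neg)
  have on' : Odd (M A (-(u' : ZMod v))) := M_odd h (u'.isUnit.neg)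
  unfold T at hu hu'
  rw [Finset.mem_filter] at hu hu'
  obtain ⟨-, a1, a2, -, a4⟩ := hu
  obtain ⟨-, b1, b2, -, b4⟩ := hu'
  set m := M A (u : ZMod v) with hm
  set n := M A (-(u : ZMod v)) with hn
  set m' := M A (u' : ZMod v) with hm'
  set n' := M A (-(u' : ZMod v)) with hn'
  have hvq : v = q ^ 2 + q + 1 := h.hv
  have hv0 : 0 < v := Nat.pos_of_ne_zero (NeZero.ne v)
  have hvR : (0 : ℤ) < v := by exact_mod_cast hv0
  -- the congruence
  have c1 : (n' : ZMod v) * (u' : ZMod v) = 2 ^ t * ((n : ZMod v) * (u : ZMod v)) := by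
    have := h2
    rw [mul_neg, mul_neg, mul_neg] at this
    exact neg_injective this
  have c2 : (2 : ZMod v) ^ t * m' * n - m * n' = 0 := by
    have h3 : ((2 : ZMod v) ^ t * m' * n - m * n') * (u : ZMod v) = 0 := by
      linear_combination (-(m' : ZMod v)) * c1 - (n' : ZMod v) * h1
    exact (Units.mul_left_eq_zero u).1 h3
  have c3 : (v : ℤ) ∣ (2 : ℤ) ^ t * m' * n - m * n' := by
    rw [← ZMod.intCast_zmod_eq_zero_iff_dvd]
    push_cast
    exact c2
  obtain ⟨k, hk⟩ := c3
  have hvodd : Odd (v : ℤ) := by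
    have h4 : Odd v := by
      rw [hvq]
      have h5 : Even (q ^ 2 + q) := by
        have : q ^ 2 + q = q * (q + 1) := by ring
        rw [this]
        exact Nat.even_mul_succ_self q
      exact h5.add_one
    exact_mod_cast h4
  have hmodd : Odd (m : ℤ) := by exact_mod_cast ou
  have hmodd' : Odd (m' : ℤ) := by exact_mod_cast ou'
  have hnodd : Odd (n : ℤ) := by exact_mod_cast on
  have hnodd' : Odd (n' : ℤ) := by exact_mod_cast on'
  -- sizes
  have s1 : m' * n < 2 * v := by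
    have : 2 * (m' * n) ≤ q * (3 * q) := by
      calc 2 * (m' * n) = (2 * m') * n := by ring
        _ ≤ q * (3 * q) := Nat.mul_le_mul b1 (by omega)
    rw [hvq]
    nlinarith
  have s2 : m * n' < 2 * v := by
    have : 2 * (m * n') ≤ q * (3 * q) := by
      calc 2 * (m * n') = (2 * m) * n' := by ring
        _ ≤ q * (3 * q) := Nat.mul_le_mul a1 (by omega)
    rw [hvq]
    nlinarith
  have s1' : (m' : ℤ) * n < 2 * v := by exact_mod_cast s1
  have s2' : (m : ℤ) * n' < 2 * v := by exact_mod_cast s2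
  have p1 : (0 : ℤ) ≤ (m' : ℤ) * n := by positivity
  have p2 : (0 : ℤ) ≤ (m : ℤ) * n' := by positivity
  have pt : (1 : ℤ) ≤ 2 ^ t := one_le_pow₀ (by norm_num)
  have hkabs : |k| < 2 ^ (t + 1) := by
    have h6 : |(v : ℤ) * k| < (v : ℤ) * 2 ^ (t + 1) := by
      rw [← hk, abs_lt]
      constructor
      · have e1 : (v : ℤ) * 2 ^ (t + 1) = 2 ^ t * (2 * v) := by ring
        rw [e1]
        have e2 : (2 : ℤ) * v ≤ 2 ^ t * (2 * v) := by nlinarith
        have e3 : (0 : ℤ) ≤ 2 ^ t * m' * n := by positivity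
        linarith
      · have e1 : (v : ℤ) * 2 ^ (t + 1) = 2 ^ t * (2 * v) := by ring
        rw [e1]
        have e2 : (2 : ℤ) ^ t * m' * n < 2 ^ t * (2 * v) := by
          rw [mul_assoc]
          exact mul_lt_mul_of_pos_left s1' (by linarith)
        linarith
    rw [abs_mul, abs_of_pos hvR] at h6
    exact lt_of_mul_lt_mul_left h6 hvR.le
  refine ⟨k, by rw [hk, mul_comm], hkabs, ?_, ?_⟩
  · intro ht
    have h7 : Odd ((v : ℤ) * k) := by
      rw [← hk]
      have h8 : Even ((2 : ℤ) ^ t * m' * n) := by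
        have : Even ((2 : ℤ) ^ t) := (Int.even_pow.2 ⟨even_two, by omega⟩)
        exact (this.mul_right _).mul_right _
      exact h8.sub_odd (hmodd.mul hnodd')
    exact (Int.odd_mul.1 h7).2
  · intro ht
    subst ht
    have h7 : Even ((v : ℤ) * k) := by
      rw [← hk, pow_zero, one_mul]
      exact (hmodd'.mul hnodd).sub_odd (hmodd.mul hnodd')
    have h8 : Even k := by
      rcases Int.even_mul.1 h7 with h9 | h9
      · exact absurd hvodd (Int.not_odd_iff_even.2 h9)
      · exact h9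
    have hk0 : k = 0 := by
      rw [zero_add, pow_one, abs_lt] at hkabs
      obtain ⟨c, hc⟩ := h8
      omega
    rw [hk0, mul_zero, pow_zero, one_mul, sub_eq_zero] at hk
    have hk' : m' * n = m * n' := by exact_mod_cast hk
    have hmm : m = m' := by
      apply Nat.dvd_antisymm
      · have : m ∣ m' * n := by rw [hk']; exact Dvd.intro _ rfl
        exact a4.dvd_of_dvd_mul_right this
      · have : m' ∣ m * n' := by rw [← hk']; exact Dvd.intro _ rfl
        exact b4.dvd_of_dvd_mul_right this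
    rw [← hmm] at h1
    have hmu : IsUnit (m : ZMod v) := (ZMod.isUnit_iff_coprime m v).2 a2
    exact Units.ext (hmu.mul_left_cancel h1)

end Pool.Agent.GolS
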