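import Pool.Agent.GolS.Defs

open Finset

namespace Pool.Agent.GolS

namespace DivAAux

theorem local_bound (d : ℝ) (hd : 0 < d) (P : ℕ) (hP : (2 : ℝ) ^ (1 / d) ≤ P) (p a : ℕ)
    (hp : 2 ≤ p) :
    (a : ℝ) + 1 ≤ (if p < P then 1 + 1 / (d * Real.log 2) else 1) * ((p : ℝ) ^ d) ^ a := by
  have hl2 : 0 < Real.log 2 := Real.log_pos (by norm_num)
  have hp0 : (0 : ℝ) < p := by
    have : 0 < p := by omega
    exact_mod_cast this
  have hp2 : (2 : ℝ) ≤ p := by exact_mod_cast hp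
  split_ifs with h
  · have h1 : (2 : ℝ) ^ d ≤ (p : ℝ) ^ d := Real.rpow_le_rpow (by norm_num) hp2 hd.le
    have h2 : ((2 : ℝ) ^ d) ^ a ≤ ((p : ℝ) ^ d) ^ a := pow_le_pow_left₀ (by positivity) h1 a
    have h3 : 1 + d * a * Real.log 2 ≤ ((2 : ℝ) ^ d) ^ a := by
      have e1 : ((2 : ℝ) ^ d) ^ a = Real.exp (d * a * Real.log 2) := by
        rw [← Real.rpow_natCast, ← Real.rpow_mul (by norm_num : (0 : ℝ) ≤ 2),
          Real.rpow_def_of_pos (by norm_num : (0 : ℝ) < 2)]
        ring_nf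
      rw [e1]
      have := Real.add_one_le_exp (d * a * Real.log 2)
      linarith
    have hdl : 0 < d * Real.log 2 := mul_pos hd hl2
    have ha0 : (0 : ℝ) ≤ a := Nat.cast_nonneg a
    have h4 : (a : ℝ) + 1 ≤ (1 + 1 / (d * Real.log 2)) * (1 + d * a * Real.log 2) := by
      have e2 : (1 + 1 / (d * Real.log 2)) * (1 + d * a * Real.log 2) =
          1 + a + (d * a * Real.log 2 + 1 / (d * Real.log 2)) := by
        field_simp
        ring
      rw [e2]
      have : 0 ≤ d * a * Real.log 2 + 1 / (d * Real.log 2) := by positivity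
      linarith
    refine h4.trans (mul_le_mul_of_nonneg_left (h3.trans h2) ?_)
    positivity
  · rw [one_mul]
    have hPp : (P : ℝ) ≤ p := by
      have : P ≤ p := by omega
      exact_mod_cast this
    have h1 : (2 : ℝ) ≤ (p : ℝ) ^ d := by
      have h2 : ((2 : ℝ) ^ (1 / d)) ^ d ≤ (p : ℝ) ^ d :=
        Real.rpow_le_rpow (by positivity) (hP.trans hPp) hd.le
      rwa [← Real.rpow_mul (by norm_num : (0 : ℝ) ≤ 2), one_div_mul_cancel hd.ne',
        Real.rpow_one] at h2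
    have h3 : ((a : ℝ) + 1) ≤ 2 ^ a := by
      have : a + 1 ≤ 2 ^ a := Nat.lt_two_pow_self
      exact_mod_cast this
    exact h3.trans (pow_le_pow_left₀ (by norm_num) h1 a)

theorem rpow_eq_prod (d : ℝ) (n : ℕ) (hn : n ≠ 0) :
    (n : ℝ) ^ d = ∏ p ∈ n.primeFactors, ((p : ℝ) ^ d) ^ (n.factorization p) := by
  have h1 : (n : ℝ) = ∏ p ∈ n.primeFactors, (p : ℝ) ^ (n.factorization p) := by
    have h := Nat.prod_factorization_pow_eq_self hn
    rw [Finsupp.prod, Nat.support_factorization] at h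
    conv_lhs => rw [← h]
    push_cast
    rfl
  conv_lhs => rw [h1]
  rw [← Real.finsetProd_rpow _ _ (fun p _ => by positivity)]
  exact prod_congr rfl fun p _ => (Real.rpow_pow_comm (Nat.cast_nonneg p) d _).symm

end DivAAux

open DivAAux in
/-- Divisor bound: `tau n ≤ n^δ` for large `n`.
Proof. With `δ' = δ/2`: for a prime `p ≥ P = 2^(1/δ')` and `a ≥ 0`, `a + 1 ≤ 2^a ≤ p^(δ' a)`; for every `p ≥ 2`,
`a + 1 ≤ C p^(δ' a)` with `C = 1 + 1/(δ' log 2)` (`2^(δ' a) ≥ 1 + δ' a log 2`).  So `tau n ≤ C^P n^δ'`. -/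
theorem divisor_bound (δ : ℝ) (hδ : 0 < δ) : ∃ n0 : ℕ, ∀ n : ℕ, n0 ≤ n → tau n ≤ (n : ℝ) ^ δ := by
  obtain ⟨d, hd0⟩ : ∃ d : ℝ, d = δ / 2 := ⟨_, rfl⟩
  have hd : 0 < d := by rw [hd0]; linarith
  have hl2 : 0 < Real.log 2 := Real.log_pos (by norm_num)
  obtain ⟨C, hC⟩ : ∃ C : ℝ, C = 1 + 1 / (d * Real.log 2) := ⟨_, rfl⟩
  have hC1 : 1 ≤ C := by
    rw [hC]
    have : 0 ≤ 1 / (d * Real.log 2) := by positivity
    linarith
  obtain ⟨P, hP⟩ := exists_nat_ge ((2 : ℝ) ^ (1 / d))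
  obtain ⟨n0, hn0⟩ := exists_nat_ge ((C ^ P) ^ (1 / d))
  refine ⟨n0 + 1, fun n hn => ?_⟩
  have hn1 : n ≠ 0 := by omega
  have hnpos : (0 : ℝ) < n := by
    have : 0 < n := by omega
    exact_mod_cast this
  have h1 : tau n = ∏ p ∈ n.primeFactors, ((n.factorization p : ℝ) + 1) := by
    unfold tau
    rw [Nat.card_divisors hn1]
    push_cast
    rfl
  have h2 : tau n ≤ (∏ p ∈ n.primeFactors, (if p < P then C else 1)) * (n : ℝ) ^ d := by
    rw [h1, rpow_eq_prod d n hn1, ← prod_mul_distrib]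
    apply prod_le_prod
    · intro p _
      positivity
    · intro p hp
      rw [hC]
      exact local_bound d hd P hP p _ (Nat.prime_of_mem_primeFactors hp).two_le
  have h3 : (∏ p ∈ n.primeFactors, (if p < P then C else 1)) ≤ C ^ P := by
    rw [prod_ite, prod_const_one, mul_one, prod_const]
    apply pow_le_pow_right₀ hC1
    calc (n.primeFactors.filter fun p => p < P).card ≤ (range P).card := by
          apply card_le_card
          intro p hp
          rw [mem_filter] at hp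
          exact mem_range.mpr hp.2
      _ = P := card_range P
  have h4 : C ^ P ≤ (n : ℝ) ^ d := by
    have h5 : (C ^ P) ^ (1 / d) ≤ (n : ℝ) := by
      refine hn0.trans ?_
      have : n0 ≤ n := by omega
      exact_mod_cast this
    have hCP : 0 ≤ C ^ P := by positivity
    have h6 := Real.rpow_le_rpow (by positivity) h5 hd.le
    rwa [← Real.rpow_mul hCP, one_div_mul_cancel hd.ne', Real.rpow_one] at h6
  have h7 : (n : ℝ) ^ δ = (n : ℝ) ^ d * (n : ℝ) ^ d := by
    rw [← Real.rpow_add hnpos, hd0]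
    ring_nf
  rw [h7]
  exact h2.trans (mul_le_mul_of_nonneg_right (h3.trans h4) (by positivity))

end Pool.Agent.GolS
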