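import Pool.Agent.GolS.Defs

open Finset

namespace Pool.Agent.GolS

/-- A product of `1 - 1/p` over `s` different numbers `p ≥ 2` is at least `1/(s+1)`. -/
theorem DivB_prod (s : Finset ℕ) (hs : ∀ p ∈ s, 2 ≤ p) :
    1 / ((s.card : ℝ) + 1) ≤ ∏ p ∈ s, (1 - (p : ℝ)⁻¹) := by
  induction s using Finset.induction_on_max with
  | empty => simp
  | insert m s hm ih =>
    have hms : m ∉ s := fun h => lt_irrefl _ (hm m h)
    have ih' := ih fun p hp => hs p (mem_insert_of_mem hp)
    rw [prod_insert hms, card_insert_of_notMem hms]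
    have hsub : s ⊆ Ico 2 m := fun p hp =>
      mem_Ico.2 ⟨hs p (mem_insert_of_mem hp), hm p hp⟩
    have h1 := card_le_card hsub
    rw [Nat.card_Ico] at h1
    have hm2 := hs m (mem_insert_self m s)
    have h2 : s.card + 2 ≤ m := by omega
    have h2' : (s.card : ℝ) + 2 ≤ m := by exact_mod_cast h2
    have hc : (0 : ℝ) ≤ s.card := Nat.cast_nonneg _
    have hm0 : (0 : ℝ) < m := by linarith
    have h3 : ((s.card : ℝ) + 1) / (s.card + 2) ≤ 1 - (m : ℝ)⁻¹ := by
      have : (m : ℝ)⁻¹ ≤ ((s.card : ℝ) + 2)⁻¹ := inv_anti₀ (by linarith) h2'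
      have h4 : ((s.card : ℝ) + 1) / (s.card + 2) = 1 - ((s.card : ℝ) + 2)⁻¹ := by
        field_simp
        ring
      rw [h4]
      linarith
    have h5 : 1 / (((s.card + 1 : ℕ) : ℝ) + 1) =
        ((s.card : ℝ) + 1) / (s.card + 2) * (1 / ((s.card : ℝ) + 1)) := by
      push_cast
      field_simp
      ring
    rw [h5]
    refine mul_le_mul h3 ih' (by positivity) ?_
    refine le_trans ?_ h3
    positivity

/-- `n/phi(n) ≤ ω(n) + 1`: a product over `s` primes of `p/(p-1)` is at most `s + 1` (induction on the set of primes,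
removing the largest one, which is `≥ s + 1`); and `2^ω ≤ tau`, so `ω ≤ log tau / log 2`. -/
theorem inv_kap (n : ℕ) (hn : 0 < n) : 1 / kap n ≤ 1 + Real.log (tau n) / Real.log 2 := by
  have hn0 : (0 : ℝ) < n := by exact_mod_cast hn
  have h1 : kap n = ∏ p ∈ n.primeFactors, (1 - (p : ℝ)⁻¹) := by
    have h := Nat.totient_eq_mul_prod_factors n
    have h' : ((n.totient : ℚ) : ℝ) = ((n * ∏ p ∈ n.primeFactors, (1 - (p : ℚ)⁻¹) : ℚ) : ℝ) := by
      rw [h]
    push_cast at h'
    unfold kap
    rw [h', mul_div_cancel_left₀ _ hn0.ne']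
  have h2 := DivB_prod n.primeFactors fun p hp => (Nat.prime_of_mem_primeFactors hp).two_le
  rw [← h1] at h2
  have hw : (0 : ℝ) < (n.primeFactors.card : ℝ) + 1 := by positivity
  have h3 : 1 / kap n ≤ (n.primeFactors.card : ℝ) + 1 := by
    have := one_div_le_one_div_of_le (by positivity) h2
    rwa [one_div_one_div] at this
  have h4 : 2 ^ n.primeFactors.card ≤ n.divisors.card := by
    rw [Nat.card_divisors hn.ne']
    apply Finset.pow_card_le_prod
    intro p hp
    have h5 : n.factorization p ≠ 0 := by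
      rw [← Finsupp.mem_support_iff, Nat.support_factorization]
      exact hp
    omega
  have h5 : (n.primeFactors.card : ℝ) * Real.log 2 ≤ Real.log (tau n) := by
    rw [← Real.log_pow]
    apply Real.log_le_log (by positivity)
    unfold tau
    exact_mod_cast h4
  have hl2 : 0 < Real.log 2 := Real.log_pos (by norm_num)
  have h6 : (n.primeFactors.card : ℝ) ≤ Real.log (tau n) / Real.log 2 := by
    rw [le_div_iff₀ hl2]
    exact h5
  linarith

end Pool.Agent.GolS
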