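import Pool.Agent.GolS.Defs

open Finset

namespace Pool.Agent.GolS

/-- Elimination.  With `Δ = 2a-(a-1)y0`, `Γ = 2ab-(ab-1)y0`, `X = k01+2y0`, `W = k02+2y0`, `Θ = 2bΔ-(b-1)X`:
`y1 Δ = X + E01`, `y2 Γ = W + E02` and
`P0 = Θ E02 - Γ (2+(b-1) y2) E01 - Γ Δ E12` (identity).  `0 ≤ Δ ≤ 2a`, `0 ≤ Γ ≤ 2ab`, `|Θ| ≤ 6.5 ab`. -/
theorem elim_bound (a b k01 k12 k02 y0 y1 y2 eta : ℝ) (ha : 2 ≤ a) (hb : 2 ≤ b)
    (h01 : |k01| ≤ 2 * a)
    (hy0 : 0 ≤ y0) (hy0' : y0 ≤ 1 / 2) (hy2 : 0 ≤ y2) (hy2' : y2 ≤ 1 / 2) (heta : 0 ≤ eta)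
    (E01 : |2 * a * y1 - 2 * y0 - (a - 1) * y0 * y1 - k01| ≤ 2 * a * eta)
    (E12 : |2 * b * y2 - 2 * y1 - (b - 1) * y1 * y2 - k12| ≤ 2 * b * eta)
    (E02 : |2 * (a * b) * y2 - 2 * y0 - (a * b - 1) * y0 * y2 - k02| ≤ 2 * (a * b) * eta) :
    |P0 a b k01 k12 k02 y0| ≤ 40 * a ^ 2 * b ^ 2 * eta := by
  have hab : 4 ≤ a * b := by nlinarith
  set e01 := 2 * a * y1 - 2 * y0 - (a - 1) * y0 * y1 - k01 with he01
  set e12 := 2 * b * y2 - 2 * y1 - (b - 1) * y1 * y2 - k12 with he12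
  set e02 := 2 * (a * b) * y2 - 2 * y0 - (a * b - 1) * y0 * y2 - k02 with he02
  have key : P0 a b k01 k12 k02 y0 =
      (2 * b * (2 * a - (a - 1) * y0) - (b - 1) * (k01 + 2 * y0)) * e02 -
      (2 * a * b - (a * b - 1) * y0) * (2 + (b - 1) * y2) * e01 -
      (2 * a * b - (a * b - 1) * y0) * (2 * a - (a - 1) * y0) * e12 := by
    rw [P0, he01, he12, he02]; ring
  have hD0 : 0 ≤ 2 * a - (a - 1) * y0 := by nlinarith
  have hD1 : 2 * a - (a - 1) * y0 ≤ 2 * a := by nlinarith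
  have hG0 : 0 ≤ 2 * a * b - (a * b - 1) * y0 := by nlinarith
  have hG1 : 2 * a * b - (a * b - 1) * y0 ≤ 2 * (a * b) := by nlinarith
  have hX : |k01 + 2 * y0| ≤ 2 * a + 1 := by
    have : |2 * y0| ≤ 1 := by rw [abs_of_nonneg (by linarith)]; linarith
    exact (abs_add_le _ _).trans (by linarith)
  have hTh : |2 * b * (2 * a - (a - 1) * y0) - (b - 1) * (k01 + 2 * y0)| ≤ 7 * (a * b) := by
    have t1 : |2 * b * (2 * a - (a - 1) * y0)| ≤ 2 * b * (2 * a) := by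
      rw [abs_of_nonneg (by positivity)]
      exact mul_le_mul_of_nonneg_left hD1 (by linarith)
    have t2 : |(b - 1) * (k01 + 2 * y0)| ≤ (b - 1) * (2 * a + 1) := by
      rw [abs_mul, abs_of_nonneg (by linarith : (0 : ℝ) ≤ b - 1)]
      exact mul_le_mul_of_nonneg_left hX (by linarith)
    have t3 := (abs_sub (2 * b * (2 * a - (a - 1) * y0)) ((b - 1) * (k01 + 2 * y0)))
    nlinarith
  have hY : |2 + (b - 1) * y2| ≤ 2 * b := by
    rw [abs_of_nonneg (by nlinarith)]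
    nlinarith
  have hGa : |2 * a * b - (a * b - 1) * y0| ≤ 2 * (a * b) := by
    rw [abs_of_nonneg hG0]; exact hG1
  have hDa : |2 * a - (a - 1) * y0| ≤ 2 * a := by
    rw [abs_of_nonneg hD0]; exact hD1
  have s1 : |(2 * b * (2 * a - (a - 1) * y0) - (b - 1) * (k01 + 2 * y0)) * e02| ≤
      7 * (a * b) * (2 * (a * b) * eta) := by
    rw [abs_mul]; exact mul_le_mul hTh E02 (abs_nonneg _) (by positivity)
  have s2 : |(2 * a * b - (a * b - 1) * y0) * (2 + (b - 1) * y2) * e01| ≤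
      2 * (a * b) * (2 * b) * (2 * a * eta) := by
    rw [abs_mul, abs_mul]
    exact mul_le_mul (mul_le_mul hGa hY (abs_nonneg _) (by positivity)) E01 (abs_nonneg _)
      (by positivity)
  have s3 : |(2 * a * b - (a * b - 1) * y0) * (2 * a - (a - 1) * y0) * e12| ≤
      2 * (a * b) * (2 * a) * (2 * b * eta) := by
    rw [abs_mul, abs_mul]
    exact mul_le_mul (mul_le_mul hGa hDa (abs_nonneg _) (by positivity)) E12 (abs_nonneg _)
      (by positivity)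
  rw [key]
  have r1 := abs_sub ((2 * b * (2 * a - (a - 1) * y0) - (b - 1) * (k01 + 2 * y0)) * e02 -
      (2 * a * b - (a * b - 1) * y0) * (2 + (b - 1) * y2) * e01)
      ((2 * a * b - (a * b - 1) * y0) * (2 * a - (a - 1) * y0) * e12)
  have r2 := abs_sub ((2 * b * (2 * a - (a - 1) * y0) - (b - 1) * (k01 + 2 * y0)) * e02)
      ((2 * a * b - (a * b - 1) * y0) * (2 + (b - 1) * y2) * e01)
  have hpos : 0 ≤ a ^ 2 * b ^ 2 * eta := by positivity
  nlinarith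

/-- The relation `2^t m' n - m n' = k v` in the variables `y = m/q`, `y' = m'/q`.
Proof. `n = 2q - m + δ`, `n' = 2q - m' + δ'`, `|δ|, |δ'| ≤ S`; divide by `q^2`:
`2·2^t y' - 2y - (2^t-1) y y' - k = k (q+1)/q^2 - 2^t y' δ/q + y δ'/q`. -/
theorem E_bound (q v S l m n m' n' t : ℕ) (k : ℤ) (hv : v = q ^ 2 + q + 1) (hq : 1 ≤ q)
    (hl : l ≤ S) (hm : 2 * m ≤ q) (hm' : 2 * m' ≤ q)
    (h1 : 2 * q ≤ m + n + S) (h2 : m + n ≤ 2 * q + l)
    (h3 : 2 * q ≤ m' + n' + S) (h4 : m' + n' ≤ 2 * q + l)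
    (hk : |k| < 2 ^ (t + 1)) (hrel : (2 : ℤ) ^ t * m' * n - m * n' = k * v) :
    |2 * (2 : ℝ) ^ t * ((m' : ℝ) / q) - 2 * ((m : ℝ) / q) -
      ((2 : ℝ) ^ t - 1) * ((m : ℝ) / q) * ((m' : ℝ) / q) - k| ≤
      2 * (2 : ℝ) ^ t * (((S : ℝ) + 2) / q) := by
  have hqR : (1 : ℝ) ≤ q := by exact_mod_cast hq
  have hq0 : (0 : ℝ) < q := by linarith
  have hlR : (l : ℝ) ≤ S := by exact_mod_cast hl
  have hmR : 2 * (m : ℝ) ≤ q := by exact_mod_cast hm
  have hm'R : 2 * (m' : ℝ) ≤ q := by exact_mod_cast hm'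
  have h1R : 2 * (q : ℝ) ≤ m + n + S := by exact_mod_cast h1
  have h2R : (m : ℝ) + n ≤ 2 * q + l := by exact_mod_cast h2
  have h3R : 2 * (q : ℝ) ≤ m' + n' + S := by exact_mod_cast h3
  have h4R : (m' : ℝ) + n' ≤ 2 * q + l := by exact_mod_cast h4
  have hm0 : (0 : ℝ) ≤ m := Nat.cast_nonneg m
  have hm0' : (0 : ℝ) ≤ m' := Nat.cast_nonneg m'
  have hS0 : (0 : ℝ) ≤ S := Nat.cast_nonneg S
  have hvR : (v : ℝ) = q ^ 2 + q + 1 := by rw [hv]; push_cast; ring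
  have hrelR : (2 : ℝ) ^ t * m' * n - m * n' = k * v := by exact_mod_cast hrel
  have hkR : |(k : ℝ)| ≤ 2 * 2 ^ t := by
    have : |(k : ℝ)| < 2 ^ (t + 1) := by exact_mod_cast hk
    rw [pow_succ] at this; linarith
  set b : ℝ := (2 : ℝ) ^ t with hb
  have hb1 : 1 ≤ b := one_le_pow₀ (by norm_num)
  set δ : ℝ := m + n - 2 * q with hδ
  set δ' : ℝ := m' + n' - 2 * q with hδ'
  have hδ1 : |δ| ≤ S := by rw [abs_le]; constructor <;> linarith
  have hδ1' : |δ'| ≤ S := by rw [abs_le]; constructor <;> linarith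
  have hn : (n : ℝ) = 2 * q - m + δ := by rw [hδ]; ring
  have hn' : (n' : ℝ) = 2 * q - m' + δ' := by rw [hδ']; ring
  have key : 2 * b * ((m' : ℝ) / q) - 2 * ((m : ℝ) / q) -
      (b - 1) * ((m : ℝ) / q) * ((m' : ℝ) / q) - k =
      (k * (q + 1) - b * m' * δ + m * δ') / q ^ 2 := by
    rw [hn, hn', hvR] at hrelR
    field_simp
    linear_combination hrelR
  rw [key, abs_div, abs_of_pos (by positivity : (0 : ℝ) < (q : ℝ) ^ 2), div_le_iff₀ (by positivity)]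
  have t1 : |(k : ℝ) * (q + 1)| ≤ 2 * b * (q + 1) := by
    rw [abs_mul, abs_of_pos (by linarith : (0 : ℝ) < (q : ℝ) + 1)]
    exact mul_le_mul_of_nonneg_right hkR (by linarith)
  have t2 : |b * m' * δ| ≤ b * m' * S := by
    rw [abs_mul, abs_of_nonneg (by positivity : (0 : ℝ) ≤ b * m')]
    exact mul_le_mul_of_nonneg_left hδ1 (by positivity)
  have t3 : |(m : ℝ) * δ'| ≤ m * S := by
    rw [abs_mul, abs_of_nonneg hm0]
    exact mul_le_mul_of_nonneg_left hδ1' hm0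
  have t4 := abs_add_le ((k : ℝ) * (q + 1) - b * m' * δ) (m * δ')
  have t5 := abs_sub ((k : ℝ) * (q + 1)) (b * m' * δ)
  have e1 : 2 * b * (((S : ℝ) + 2) / q) * (q : ℝ) ^ 2 = 2 * b * (S + 2) * q := by
    field_simp
  rw [e1]
  have u1 : b * m' * S ≤ b * q * S / 2 := by
    have : 0 ≤ b * S := by positivity
    nlinarith
  have u2 : m * (S : ℝ) ≤ b * q * S / 2 := by
    have : m * (S : ℝ) ≤ q * S / 2 := by nlinarith
    have : q * (S : ℝ) ≤ b * (q * S) := by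
      have : 0 ≤ (q : ℝ) * S := by positivity
      nlinarith
    linarith
  have u3 : 2 * b * ((q : ℝ) + 1) ≤ 4 * b * q := by nlinarith
  have u4 : 0 ≤ b * S * q := by positivity
  nlinarith

end Pool.Agent.GolS
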