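import Pool.Agent.GolS.Defs

open Finset

namespace Pool.Agent.GolS

namespace EquiAux

theorem dvd_val_iff {v M : ℕ} [NeZero v] (hM : M ∣ v) (x : ZMod v) :
    M ∣ x.val ↔ ZMod.castHom hM (ZMod M) x = 0 := by
  rw [ZMod.castHom_apply, ← ZMod.natCast_val, ZMod.natCast_eq_zero_iff]

theorem card_ker {v g : ℕ} [NeZero v] [NeZero g] (hg : g ∣ v) :
    g * (univ.filter fun x : ZMod v => ZMod.castHom hg (ZMod g) x = 0).card = v := by
  classical
  have h1 : (univ : Finset (ZMod v)).card = ∑ c : ZMod g,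
      (univ.filter fun x : ZMod v => ZMod.castHom hg (ZMod g) x = c).card :=
    Finset.card_eq_sum_card_fiberwise (fun x _ => mem_univ _)
  have h2 : ∀ c : ZMod g, (univ.filter fun x : ZMod v => ZMod.castHom hg (ZMod g) x = c).card =
      (univ.filter fun x : ZMod v => ZMod.castHom hg (ZMod g) x = 0).card := by
    intro c
    obtain ⟨y, hy⟩ := ZMod.castHom_surjective hg c
    refine Finset.card_bij' (fun x _ => x - y) (fun x _ => x + y) ?_ ?_ ?_ ?_
    · intro x hx
      rw [Finset.mem_filter] at hx ⊢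
      refine ⟨mem_univ _, ?_⟩
      rw [map_sub, hx.2, hy, sub_self]
    · intro x hx
      rw [Finset.mem_filter] at hx ⊢
      refine ⟨mem_univ _, ?_⟩
      rw [map_add, hx.2, hy, zero_add]
    · intro x _
      exact sub_add_cancel _ _
    · intro x _
      exact add_sub_cancel_right _ _
  rw [Finset.sum_congr rfl (fun c _ => h2 c), Finset.sum_const, Finset.card_univ, Finset.card_univ,
    ZMod.card, ZMod.card, smul_eq_mul] at h1
  exact h1.symm

end EquiAux

/-- F1.  Equidistribution of `A` in the subgroup of index `g`.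
Proof. Let `x_i` = number of `a ∈ A` with `a.val ≡ i mod g`, `i < g`.  `∑ x_i = q+1`;
`∑ x_i ^ 2` = number of `(a,b) ∈ A × A` with `g ∣ (a - b).val` = `(q+1) + (v/g - 1)`, since every nonzero `d` is
`a - b` for exactly one pair.  So `∑ (x_i - (q+1)/g)^2 = q + v/g - (q+1)^2/g = q - q/g ≤ q`. -/
theorem F1 {q v : ℕ} [NeZero v] {A : Finset (ZMod v)} (h : PDS q v A) (g : ℕ) (hg : g ∣ v) :
    (((A.filter fun a => g ∣ a.val).card : ℝ) - ((q : ℝ) + 1) / g) ^ 2 ≤ q := by
  classical
  have hg0 : g ≠ 0 := by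
    rintro rfl
    exact NeZero.ne v (Nat.eq_zero_of_zero_dvd hg)
  have : NeZero g := ⟨hg0⟩
  have hgR : (0 : ℝ) < g := by
    have : 0 < g := Nat.pos_of_ne_zero hg0
    exact_mod_cast this
  set f := ZMod.castHom hg (ZMod g) with hf
  set x : ZMod g → ℕ := fun c => (A.filter fun a => f a = c).card with hx
  set K := (univ.filter fun y : ZMod v => f y = 0).card with hK
  have hKv : g * K = v := EquiAux.card_ker hg
  have hx0 : (A.filter fun a => g ∣ a.val).card = x 0 := by
    rw [hx]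
    congr 1
    exact Finset.filter_congr (fun a _ => EquiAux.dvd_val_iff hg a)
  have hsum : ∑ c : ZMod g, x c = q + 1 := by
    rw [← h.card]
    exact (Finset.card_eq_sum_card_fiberwise (fun a _ => mem_univ _)).symm
  set P := (A ×ˢ A).filter (fun p => f p.1 = f p.2) with hP
  have hsq : ∑ c : ZMod g, x c ^ 2 = P.card := by
    rw [Finset.card_eq_sum_card_fiberwise (f := fun p : ZMod v × ZMod v => f p.1)
      (t := (univ : Finset (ZMod g))) (fun a _ => mem_univ _)]
    refine Finset.sum_congr rfl (fun c _ => ?_)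
    rw [hx, sq, ← Finset.card_product]
    congr 1
    ext p
    simp only [hP, Finset.mem_filter, Finset.mem_product]
    constructor
    · rintro ⟨⟨h1, h2⟩, h3, h4⟩
      exact ⟨⟨⟨h1, h3⟩, by rw [h2, h4]⟩, h2⟩
    · rintro ⟨⟨⟨h1, h3⟩, h4⟩, h2⟩
      exact ⟨⟨h1, h2⟩, h3, by rw [← h4, h2]⟩
  have hPle : P.card + 1 ≤ (q + 1) + K := by
    have h1 : P.card = (P.filter (fun p => p.1 = p.2)).card + (P.filter (fun p => ¬ p.1 = p.2)).card :=
      (Finset.card_filter_add_card_filter_not _).symm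
    have h2 : (P.filter (fun p => p.1 = p.2)).card ≤ q + 1 := by
      rw [← h.card]
      refine Finset.card_le_card_of_injOn (fun p => p.1) ?_ ?_
      · intro p hp
        have hp' := Finset.mem_filter.1 (Finset.mem_coe.1 hp)
        rw [hP, Finset.mem_filter, Finset.mem_product] at hp'
        exact Finset.mem_coe.2 hp'.1.1.1
      · intro p hp r hr hpr
        have hp' := (Finset.mem_filter.1 (Finset.mem_coe.1 hp)).2
        have hr' := (Finset.mem_filter.1 (Finset.mem_coe.1 hr)).2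
        have hpr' : p.1 = r.1 := hpr
        exact Prod.ext hpr' (by rw [← hp', ← hr', hpr'])
    have h3 : (P.filter (fun p => ¬ p.1 = p.2)).card + 1 ≤ K := by
      have h4 : (0 : ZMod v) ∈ univ.filter fun y : ZMod v => f y = 0 := by
        rw [Finset.mem_filter]
        exact ⟨mem_univ _, map_zero f⟩
      have h5 : ((univ.filter fun y : ZMod v => f y = 0).erase 0).card + 1 = K :=
        Finset.card_erase_add_one h4
      rw [← h5]
      refine Nat.add_le_add_right ?_ 1
      refine Finset.card_le_card_of_injOn (fun p => p.1 - p.2) ?_ ?_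
      · intro p hp
        have hp' := Finset.mem_filter.1 (Finset.mem_coe.1 hp)
        rw [hP, Finset.mem_filter, Finset.mem_product] at hp'
        refine Finset.mem_coe.2 (Finset.mem_erase.2 ⟨?_, Finset.mem_filter.2 ⟨mem_univ _, ?_⟩⟩)
        · exact sub_ne_zero.2 hp'.2
        · change f (p.1 - p.2) = 0
          rw [map_sub, hp'.1.2, sub_self]
      · intro p hp r hr hpr
        have hp' := Finset.mem_filter.1 (Finset.mem_coe.1 hp)
        rw [hP, Finset.mem_filter, Finset.mem_product] at hp'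
        have hr' := Finset.mem_filter.1 (Finset.mem_coe.1 hr)
        rw [hP, Finset.mem_filter, Finset.mem_product] at hr'
        have hpr' : p.1 - p.2 = r.1 - r.2 := hpr
        have := h.sidon p.1 hp'.1.1.1 p.2 hp'.1.1.2 r.1 hr'.1.1.1 r.2 hr'.1.1.2 hp'.2 hpr'
        exact Prod.ext this.1 this.2
    omega
  have hsumR : ∑ c : ZMod g, (x c : ℝ) = (q : ℝ) + 1 := by exact_mod_cast hsum
  have hsqR : ∑ c : ZMod g, (x c : ℝ) ^ 2 ≤ (q : ℝ) + K := by
    have : (P.card : ℝ) ≤ (q : ℝ) + K := by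
      have h6 : ((P.card + 1 : ℕ) : ℝ) ≤ (((q + 1) + K : ℕ) : ℝ) := by exact_mod_cast hPle
      push_cast at h6
      linarith
    have h7 : ∑ c : ZMod g, (x c : ℝ) ^ 2 = (P.card : ℝ) := by exact_mod_cast hsq
    rw [h7]
    exact this
  have hKR : (g : ℝ) * K = (q : ℝ) ^ 2 + q + 1 := by
    have := h.hv
    rw [← hKv] at this
    exact_mod_cast this
  rw [hx0]
  have hle : ((x 0 : ℝ) - ((q : ℝ) + 1) / g) ^ 2 ≤
      ∑ c : ZMod g, ((x c : ℝ) - ((q : ℝ) + 1) / g) ^ 2 :=
    Finset.single_le_sum (f := fun c : ZMod g => ((x c : ℝ) - ((q : ℝ) + 1) / g) ^ 2)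
      (fun c _ => sq_nonneg _) (mem_univ _)
  refine hle.trans ?_
  have hexp : ∑ c : ZMod g, ((x c : ℝ) - ((q : ℝ) + 1) / g) ^ 2 =
      ∑ c : ZMod g, (x c : ℝ) ^ 2 - 2 * (((q : ℝ) + 1) / g) * ∑ c : ZMod g, (x c : ℝ) +
        g * (((q : ℝ) + 1) / g) ^ 2 := by
    have : ∀ c : ZMod g, ((x c : ℝ) - ((q : ℝ) + 1) / g) ^ 2 =
        (x c : ℝ) ^ 2 - 2 * (((q : ℝ) + 1) / g) * (x c : ℝ) + (((q : ℝ) + 1) / g) ^ 2 := by
      intro c
      ring
    rw [Finset.sum_congr rfl (fun c _ => this c), Finset.sum_add_distrib, Finset.sum_sub_distrib,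
      ← Finset.mul_sum, Finset.sum_const, Finset.card_univ, ZMod.card, nsmul_eq_mul]
  rw [hexp, hsumR]
  have e1 : 2 * (((q : ℝ) + 1) / g) * ((q : ℝ) + 1) = 2 * (((q : ℝ) + 1) ^ 2 / g) := by
    ring
  have e2 : (g : ℝ) * (((q : ℝ) + 1) / g) ^ 2 = ((q : ℝ) + 1) ^ 2 / g := by
    field_simp
  have e3 : (K : ℝ) ≤ ((q : ℝ) + 1) ^ 2 / g := by
    rw [le_div_iff₀ hgR]
    nlinarith [hKR, (Nat.cast_nonneg q : (0 : ℝ) ≤ q)]
  rw [e1, e2]
  linarith

end Pool.Agent.GolS
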