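import Pool.Agent.GolS.FirstA

open Finset

namespace Pool.Agent.GolS

variable {q v : ℕ} [NeZero v] {A : Finset (ZMod v)}

/-- First moment.  Pointwise `M A u ≥ 2 q - ∑_{m ∈ odds (2q), m u ∈ A} (2 q - m)` (the summand `m = M A u` is there
if `M A u ≤ 2 q`, the others are nonnegative); sum over `u`, use `F2`, `odds_tent`, `gcd_sum` and
`q^2 rho ≤ q phi(v)` (`q (q+1) < v`). -/
theorem first_moment (h : PDS q v A) :
    (q : ℝ) * v.totient - 4 * tau v ^ 2 * (q : ℝ) ^ 2 * Real.sqrt q ≤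
      ∑ u : (ZMod v)ˣ, (M A (u : ZMod v) : ℝ) := by
  classical
  have hv0 : 0 < v := Nat.pos_of_ne_zero (NeZero.ne v)
  have hvR : (0 : ℝ) < v := by exact_mod_cast hv0
  have hqR : (0 : ℝ) ≤ q := Nat.cast_nonneg q
  have htau : 0 ≤ tau v := by
    unfold tau
    exact Nat.cast_nonneg _
  -- pointwise
  have hpt : ∀ u : (ZMod v)ˣ, 2 * (q : ℝ) -
      ∑ m ∈ odds (2 * q), (if (m : ZMod v) * (u : ZMod v) ∈ A then (2 * (q : ℝ) - m) else 0) ≤
      (M A (u : ZMod v) : ℝ) := by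
    intro u
    obtain ⟨h1, h2⟩ := M_spec h u.isUnit
    have hnn : ∀ m ∈ odds (2 * q), (0 : ℝ) ≤
        (if (m : ZMod v) * (u : ZMod v) ∈ A then (2 * (q : ℝ) - m) else 0) := by
      intro m hm
      split_ifs
      · unfold odds at hm
        rw [Finset.mem_filter, Finset.mem_Icc] at hm
        have : (m : ℝ) ≤ ((2 * q : ℕ) : ℝ) := by exact_mod_cast hm.1.2
        push_cast at this
        linarith
      · exact le_refl _
    by_cases hle : M A (u : ZMod v) ≤ 2 * q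
    · have hmem : M A (u : ZMod v) ∈ odds (2 * q) := by
        unfold odds
        rw [Finset.mem_filter, Finset.mem_Icc]
        exact ⟨⟨h1, hle⟩, M_odd h u.isUnit⟩
      have h3 := Finset.single_le_sum hnn hmem
      rw [if_pos h2] at h3
      linarith
    · have h3 : (0 : ℝ) ≤ ∑ m ∈ odds (2 * q),
          (if (m : ZMod v) * (u : ZMod v) ∈ A then (2 * (q : ℝ) - m) else 0) :=
        Finset.sum_nonneg hnn
      have h4 : ((2 * q : ℕ) : ℝ) ≤ (M A (u : ZMod v) : ℝ) := by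
        exact_mod_cast (not_le.1 hle).le
      push_cast at h4
      linarith
  have hsum := Finset.sum_le_sum (fun (u : (ZMod v)ˣ) (_ : u ∈ univ) => hpt u)
  refine le_trans ?_ hsum
  rw [Finset.sum_sub_distrib, Finset.sum_const, Finset.card_univ, ZMod.card_units_eq_totient,
    nsmul_eq_mul, Finset.sum_comm]
  have hin : ∀ m ∈ odds (2 * q), ∑ u : (ZMod v)ˣ,
      (if (m : ZMod v) * (u : ZMod v) ∈ A then (2 * (q : ℝ) - m) else 0) =
      (2 * (q : ℝ) - m) * hc A m := by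
    intro m _
    rw [← Finset.sum_filter, Finset.sum_const, nsmul_eq_mul, mul_comm]
    rfl
  rw [Finset.sum_congr rfl hin]
  have hle1 : ∑ m ∈ odds (2 * q), (2 * (q : ℝ) - m) * hc A m ≤
      ∑ m ∈ odds (2 * q), ((2 * (q : ℝ) - m) * rho q v +
        2 * (q : ℝ) * (tau v * Real.sqrt q) * (Nat.gcd m v : ℝ)) := by
    refine Finset.sum_le_sum (fun m hm => ?_)
    unfold odds at hm
    rw [Finset.mem_filter, Finset.mem_Icc] at hm
    have h5 : (m : ℝ) ≤ ((2 * q : ℕ) : ℝ) := by exact_mod_cast hm.1.2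
    push_cast at h5
    have h6 : (0 : ℝ) ≤ 2 * (q : ℝ) - m := by linarith
    have h7 := F2 h m
    have h8 : (2 * (q : ℝ) - m) * hc A m ≤
        (2 * (q : ℝ) - m) * (rho q v + tau v * (Nat.gcd m v : ℝ) * Real.sqrt q) :=
      mul_le_mul_of_nonneg_left h7 h6
    have h9 : (2 * (q : ℝ) - m) * (tau v * (Nat.gcd m v : ℝ) * Real.sqrt q) ≤
        2 * (q : ℝ) * (tau v * (Nat.gcd m v : ℝ) * Real.sqrt q) := by
      apply mul_le_mul_of_nonneg_right
      · have : (0 : ℝ) ≤ m := Nat.cast_nonneg m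
        linarith
      · exact mul_nonneg (mul_nonneg htau (Nat.cast_nonneg _)) (Real.sqrt_nonneg _)
    calc _ ≤ (2 * (q : ℝ) - m) * (rho q v + tau v * (Nat.gcd m v : ℝ) * Real.sqrt q) := h8
      _ = (2 * (q : ℝ) - m) * rho q v +
          (2 * (q : ℝ) - m) * (tau v * (Nat.gcd m v : ℝ) * Real.sqrt q) := by ring
      _ ≤ (2 * (q : ℝ) - m) * rho q v +
          2 * (q : ℝ) * (tau v * (Nat.gcd m v : ℝ) * Real.sqrt q) := by linarith
      _ = _ := by ring
  rw [Finset.sum_add_distrib, ← Finset.sum_mul, odds_tent, ← Finset.mul_sum] at hle1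
  have hle2 : ∑ m ∈ odds (2 * q), (Nat.gcd m v : ℝ) ≤ 2 * (q : ℝ) * tau v := by
    have h10 := gcd_sum v hv0 (2 * q)
    push_cast at h10
    refine le_trans ?_ h10
    refine Finset.sum_le_sum_of_subset_of_nonneg (Finset.filter_subset _ _) ?_
    intro m _ _
    exact Nat.cast_nonneg _
  have hle3 : 2 * (q : ℝ) * (tau v * Real.sqrt q) * ∑ m ∈ odds (2 * q), (Nat.gcd m v : ℝ) ≤
      4 * tau v ^ 2 * (q : ℝ) ^ 2 * Real.sqrt q := by
    have h11 : 0 ≤ 2 * (q : ℝ) * (tau v * Real.sqrt q) := by positivity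
    calc _ ≤ 2 * (q : ℝ) * (tau v * Real.sqrt q) * (2 * (q : ℝ) * tau v) :=
          mul_le_mul_of_nonneg_left hle2 h11
      _ = _ := by ring
  have hrho : (q : ℝ) ^ 2 * rho q v ≤ q * v.totient := by
    unfold rho
    have h12 : (v : ℝ) = (q : ℝ) ^ 2 + q + 1 := by
      rw [h.hv]
      push_cast
      ring
    have h13 : (q : ℝ) ^ 2 * (((q : ℝ) + 1) * (v.totient : ℝ) / v) =
        (q * v.totient) * ((q : ℝ) ^ 2 + q) / v := by ring
    rw [h13, div_le_iff₀ hvR]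
    apply mul_le_mul_of_nonneg_left
    · rw [h12]
      linarith
    · positivity
  linarith

/-- The same for `-u`. -/
theorem first_moment_neg (h : PDS q v A) :
    (q : ℝ) * v.totient - 4 * tau v ^ 2 * (q : ℝ) ^ 2 * Real.sqrt q ≤
      ∑ u : (ZMod v)ˣ, (M A (-(u : ZMod v)) : ℝ) := by
  have h1 : ∑ u : (ZMod v)ˣ, (M A (-(u : ZMod v)) : ℝ) = ∑ u : (ZMod v)ˣ, (M A (u : ZMod v) : ℝ) := by
    rw [← Equiv.sum_comp (Equiv.neg (ZMod v)ˣ)]
    refine Finset.sum_congr rfl (fun u _ => ?_)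
    rw [Equiv.neg_apply, Units.val_neg, neg_neg]
  rw [h1]
  exact first_moment h

/-- `∑_u 1 / M(u)` over the units with `M A u ≤ Y` is at most `∑_{m ≤ Y} hc m / m`; then `F2`,
`harmonic_le_one_add_log` and `gcd_harm`. -/
theorem inv_sum (h : PDS q v A) (Y : ℕ) (hY : 1 ≤ Y) :
    ∑ u ∈ univ.filter (fun u : (ZMod v)ˣ => M A (u : ZMod v) ≤ Y), (1 : ℝ) / M A (u : ZMod v) ≤
      (rho q v + tau v ^ 2 * Real.sqrt q) * (1 + Real.log Y) := by
  classical
  have hv0 : 0 < v := Nat.pos_of_ne_zero (NeZero.ne v)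
  have hvR : (0 : ℝ) < v := by exact_mod_cast hv0
  have htau : 0 ≤ tau v := by
    unfold tau
    exact Nat.cast_nonneg _
  have hrho : 0 ≤ rho q v := by
    unfold rho
    positivity
  have h1 : ∑ u ∈ univ.filter (fun u : (ZMod v)ˣ => M A (u : ZMod v) ≤ Y),
      (1 : ℝ) / M A (u : ZMod v) ≤ ∑ u : (ZMod v)ˣ, ∑ m ∈ Icc 1 Y,
        (if (m : ZMod v) * (u : ZMod v) ∈ A then (1 : ℝ) / m else 0) := by
    have hnn : ∀ u : (ZMod v)ˣ, ∀ m ∈ Icc 1 Y, (0 : ℝ) ≤
        (if (m : ZMod v) * (u : ZMod v) ∈ A then (1 : ℝ) / m else 0) := by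
      intro u m _
      split_ifs
      · positivity
      · exact le_refl _
    refine le_trans (Finset.sum_le_sum (fun u hu => ?_))
      (Finset.sum_le_sum_of_subset_of_nonneg (Finset.filter_subset _ _)
        (fun u _ _ => Finset.sum_nonneg (hnn u)))
    rw [Finset.mem_filter] at hu
    obtain ⟨h2, h3⟩ := M_spec h u.isUnit
    have hmem : M A (u : ZMod v) ∈ Icc 1 Y := Finset.mem_Icc.2 ⟨h2, hu.2⟩
    have h4 := Finset.single_le_sum (hnn u) hmem
    rw [if_pos h3] at h4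
    exact h4
  refine h1.trans ?_
  rw [Finset.sum_comm]
  have h5 : ∀ m ∈ Icc 1 Y, ∑ u : (ZMod v)ˣ,
      (if (m : ZMod v) * (u : ZMod v) ∈ A then (1 : ℝ) / m else 0) ≤
      rho q v * (m : ℝ)⁻¹ + tau v * Real.sqrt q * ((Nat.gcd m v : ℝ) / m) := by
    intro m hm
    rw [← Finset.sum_filter, Finset.sum_const, nsmul_eq_mul]
    have h6 : ((univ.filter fun u : (ZMod v)ˣ => (m : ZMod v) * (u : ZMod v) ∈ A).card : ℝ) ≤
        rho q v + tau v * (Nat.gcd m v : ℝ) * Real.sqrt q := F2 h m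
    have hm0 : (0 : ℝ) ≤ 1 / m := by positivity
    calc _ ≤ (rho q v + tau v * (Nat.gcd m v : ℝ) * Real.sqrt q) * (1 / m) :=
          mul_le_mul_of_nonneg_right h6 hm0
      _ = _ := by ring
  refine (Finset.sum_le_sum h5).trans ?_
  rw [Finset.sum_add_distrib, ← Finset.mul_sum, ← Finset.mul_sum]
  have h7 : ∑ m ∈ Icc 1 Y, ((m : ℝ))⁻¹ ≤ 1 + Real.log Y := by
    have h8 := harmonic_le_one_add_log Y
    have h9 : ((harmonic Y : ℚ) : ℝ) = ∑ m ∈ Icc 1 Y, ((m : ℝ))⁻¹ := by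
      rw [harmonic_eq_sum_Icc]
      push_cast
      rfl
    rw [h9] at h8
    exact h8
  have h10 := gcd_harm v hv0 Y hY
  have h11 : 0 ≤ tau v * Real.sqrt q := mul_nonneg htau (Real.sqrt_nonneg _)
  calc _ ≤ rho q v * (1 + Real.log Y) + tau v * Real.sqrt q * (tau v * (1 + Real.log Y)) :=
        add_le_add (mul_le_mul_of_nonneg_left h7 hrho) (mul_le_mul_of_nonneg_left h10 h11)
    _ = _ := by ring

end Pool.Agent.GolS
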