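import Pool.Agent.GolS.Defs

open Finset

namespace Pool.Agent.GolS

variable {q v : ℕ} [NeZero v] {A : Finset (ZMod v)}

/-- Existence: `A` is nonempty, `a ∈ A`, `m = (a * x⁻¹).val`, which is not `0` as `0 ∉ A`. -/
theorem M_spec (h : PDS q v A) {x : ZMod v} (hx : IsUnit x) :
    1 ≤ M A x ∧ (M A x : ZMod v) * x ∈ A := by
  have hne : A.Nonempty := by
    rw [← card_pos, h.card]; omega
  obtain ⟨a, ha⟩ := hne
  have hmem : {m : ℕ | 1 ≤ m ∧ (m : ZMod v) * x ∈ A}.Nonempty := by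
    obtain ⟨u, rfl⟩ := hx
    refine ⟨(a * (u⁻¹ : (ZMod v)ˣ)).val, ?_, ?_⟩
    · rw [Nat.one_le_iff_ne_zero, Ne, ZMod.val_eq_zero]
      intro h0
      have : a = 0 := by
        have h1 := congrArg (· * (u : ZMod v)) h0
        simpa [mul_assoc] using h1
      rw [this] at ha
      exact h.zero ha
    · rw [ZMod.natCast_zmod_val, mul_assoc, Units.inv_mul, mul_one]
      exact ha
  exact Nat.sInf_mem hmem

theorem M_le {x : ZMod v} {m : ℕ} (h1 : 1 ≤ m) (h2 : (m : ZMod v) * x ∈ A) : M A x ≤ m :=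
  Nat.sInf_le ⟨h1, h2⟩

/-- If `M A x = 2 m` then `m x ∈ A`, contradiction. -/
theorem M_odd (h : PDS q v A) {x : ZMod v} (hx : IsUnit x) : Odd (M A x) := by
  rw [← Nat.not_even_iff_odd]
  rintro ⟨m, hm⟩
  obtain ⟨h1, h2⟩ := M_spec h hx
  have h3 : (m : ZMod v) * x ∈ A := by
    rw [← h.two]
    rw [hm] at h2
    push_cast at h2
    have e : (2 : ZMod v) * ((m : ZMod v) * x) = ((m : ZMod v) + m) * x := by ring
    rw [e]
    exact h2
  have h4 := M_le (by omega : 1 ≤ m) h3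
  omega

/-- If `t ∣ M A x`, `t` prime to `v`, then `M A (t x) = M A x / t`. -/
theorem M_dil (h : PDS q v A) {x : ZMod v} (hx : IsUnit x) {t : ℕ} (ht : Nat.Coprime t v)
    (hd : t ∣ M A x) : t * M A ((t : ZMod v) * x) = M A x := by
  obtain ⟨h1, h2⟩ := M_spec h hx
  obtain ⟨r, hr⟩ := hd
  have ht0 : 1 ≤ t := by
    rcases Nat.eq_zero_or_pos t with h0 | h0
    · rw [h0, zero_mul] at hr
      omega
    · exact h0
  have hr0 : 1 ≤ r := by
    rcases Nat.eq_zero_or_pos r with h0 | h0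
    · rw [h0, mul_zero] at hr
      omega
    · exact h0
  have hu : IsUnit ((t : ZMod v) * x) := ((ZMod.isUnit_iff_coprime t v).2 ht).mul hx
  obtain ⟨h3, h4⟩ := M_spec h hu
  have h5 : M A ((t : ZMod v) * x) ≤ r := by
    apply M_le hr0
    rw [hr] at h2
    push_cast at h2
    have e : (r : ZMod v) * ((t : ZMod v) * x) = (t : ZMod v) * r * x := by ring
    rw [e]
    exact h2
  have h6 : M A x ≤ t * M A ((t : ZMod v) * x) := by
    apply M_le (Nat.mul_pos ht0 h3)
    push_cast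
    have e : (t : ZMod v) * (M A ((t : ZMod v) * x) : ZMod v) * x =
        (M A ((t : ZMod v) * x) : ZMod v) * ((t : ZMod v) * x) := by ring
    rw [e]
    exact h4
  have h7 := Nat.mul_le_mul_left t h5
  rw [← hr] at h7
  omega

end Pool.Agent.GolS
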