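import Pool.Agent.GolS.Defs

open Finset

namespace Pool.Agent.GolS

/-- The numerical core. -/
theorem num_core (q Q tau kap rho phi v N F S l L r w : ℝ)
    (hQ : 1000 ≤ Q) (htau : tau ≤ Q) (htau0 : 1 ≤ tau) (hkap : 0 < kap) (hkapQ : 1 ≤ kap * Q)
    (hrho : rho = (q + 1) * kap) (hphi : phi = kap * v) (hv : v = q ^ 2 + q + 1)
    (hN : 12 ≤ N * kap) (hNQ : N ≤ Q) (hF : F ≤ Q) (hF0 : 0 ≤ F)
    (hS1 : q / Q ^ 16 ≤ S) (hS2 : S ≤ 2 * q / Q ^ 16) (hSq : S ≤ q) (hl0 : 0 ≤ l)
    (hl2 : l ≤ 2 * q / Q ^ 64) (hL : L ≤ Q) (hL0 : 0 ≤ L)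
    (hr : r ^ 2 = q) (hrQ : Q ^ 32 ≤ r) (hw0 : 0 ≤ w) (hw : w ^ 2 = (S + 2) / q) :
    (2 * (q + 1) + N * (160 * F * (w * q + 1))) * (rho + tau * r) <
      N * (rho * (kap * q / 4 - l / 2 - 3 / 2 - tau) - tau ^ 2 * r * (2 * q + l)
        - (l * phi + 8 * tau ^ 2 * q ^ 2 * r) / S - 3 * (l * phi + 8 * tau ^ 2 * q ^ 2 * r) / (4 * q)
        - (S + l) * ((rho + tau ^ 2 * r) * L)) := by
  have hQ0 : 0 < Q := by linarith
  have hQ1 : 1 ≤ Q := by linarith
  have hr1 : 1 ≤ r := (one_le_pow₀ hQ1).trans hrQ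
  have hr0 : 0 < r := by linarith
  have hq0 : 0 < q := by rw [← hr]; positivity
  have hN0 : 0 < N := by
    by_contra hh
    push Not at hh
    have := mul_nonpos_of_nonpos_of_nonneg hh hkap.le
    linarith
  have hpow : ∀ a b : ℕ, a ≤ b → Q ^ a ≤ Q ^ b := fun a b hab => pow_le_pow_right₀ hQ1 hab
  have hrq : r ≤ q := by rw [← hr]; exact le_self_pow₀ hr1 (by norm_num)
  have hq64 : Q ^ 64 ≤ q := by
    rw [← hr]
    calc Q ^ 64 = (Q ^ 32) ^ 2 := by ring
      _ ≤ r ^ 2 := pow_le_pow_left₀ (by positivity) hrQ 2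
  have hrho0 : 0 < rho := by rw [hrho]; positivity
  have hrhoq : q ≤ rho * Q := by
    rw [hrho]
    calc q ≤ (q + 1) * 1 := by linarith
      _ ≤ (q + 1) * (kap * Q) := mul_le_mul_of_nonneg_left hkapQ (by linarith)
      _ = _ := by ring
  -- constant 1000 absorbs
  have c1 : 1000 * Q ^ 3 ≤ Q ^ 4 := by
    have : (0 : ℝ) ≤ Q ^ 3 := by positivity
    calc 1000 * Q ^ 3 ≤ Q * Q ^ 3 := mul_le_mul_of_nonneg_right hQ this
      _ = Q ^ 4 := by ring
  -- tau r ≤ rho / 1000
  have hrr : q = r * r := by rw [← hr]; ring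
  have k1 : 1000 * (Q ^ 3 * r) * Q ≤ q := by
    rw [hrr]
    have : 1000 * Q ^ 3 * Q ≤ r := by
      calc 1000 * Q ^ 3 * Q ≤ Q ^ 4 * Q := mul_le_mul_of_nonneg_right c1 hQ0.le
        _ = Q ^ 5 := by ring
        _ ≤ Q ^ 32 := hpow _ _ (by norm_num)
        _ ≤ r := hrQ
    calc 1000 * (Q ^ 3 * r) * Q = (1000 * Q ^ 3 * Q) * r := by ring
      _ ≤ r * r := mul_le_mul_of_nonneg_right this hr0.le
  have k2 : 1000 * (Q ^ 3 * r) ≤ rho := by
    have : 1000 * (Q ^ 3 * r) * Q ≤ rho * Q := k1.trans hrhoq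
    exact le_of_mul_le_mul_right this hQ0
  have k3 : tau ^ 2 * r ≤ rho / 1000 := by
    have t1 : tau ^ 2 ≤ Q ^ 3 := by
      calc tau ^ 2 ≤ Q ^ 2 := pow_le_pow_left₀ (by linarith) htau 2
        _ ≤ Q ^ 3 := hpow _ _ (by norm_num)
    have : tau ^ 2 * r ≤ Q ^ 3 * r := mul_le_mul_of_nonneg_right t1 hr0.le
    linarith
  have k4 : tau * r ≤ rho / 1000 := by
    have : tau * r ≤ tau ^ 2 * r := mul_le_mul_of_nonneg_right
      (le_self_pow₀ htau0 (by norm_num)) hr0.le
    linarith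
  -- the exceptional term
  have hw1 : w ≤ 2 / Q ^ 8 := by
    have h2 : (S + 2) / q ≤ (2 / Q ^ 8) ^ 2 := by
      rw [div_pow, ← pow_mul, div_le_div_iff₀ hq0 (by positivity)]
      have e1 : S * Q ^ 16 ≤ 2 * q := by
        rw [le_div_iff₀ (by positivity)] at hS2; exact hS2
      have e2 : 2 * Q ^ 16 ≤ 2 * q := by
        have := (hpow 16 64 (by norm_num)).trans hq64
        linarith
      norm_num
      linarith
    rw [← hw] at h2
    exact le_of_sq_le_sq h2 (by positivity)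
  have k5 : N * (160 * F * (w * q + 1)) ≤ q / 100 := by
    have a1 : w * q + 1 ≤ 3 * q / Q ^ 8 := by
      have : w * q ≤ 2 / Q ^ 8 * q := mul_le_mul_of_nonneg_right hw1 hq0.le
      have h1 : 1 ≤ q / Q ^ 8 := by
        rw [le_div_iff₀ (by positivity)]
        have := (hpow 8 64 (by norm_num)).trans hq64
        linarith
      calc w * q + 1 ≤ 2 / Q ^ 8 * q + q / Q ^ 8 := by linarith
        _ = 3 * q / Q ^ 8 := by ring
    have a2 : 160 * F * (w * q + 1) ≤ 160 * Q * (3 * q / Q ^ 8) := by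
      apply mul_le_mul (by linarith) a1 (by positivity) (by positivity)
    have a3 : N * (160 * F * (w * q + 1)) ≤ Q * (160 * Q * (3 * q / Q ^ 8)) := by
      apply mul_le_mul hNQ a2 (by positivity) (by positivity)
    have a4 : Q * (160 * Q * (3 * q / Q ^ 8)) = 480 * q / Q ^ 6 := by
      field_simp
      ring
    have a5 : 480 * q / Q ^ 6 ≤ q / 100 := by
      rw [div_le_div_iff₀ (by positivity) (by norm_num)]
      have : (48000 : ℝ) ≤ Q ^ 6 := by
        calc (48000 : ℝ) ≤ 1000 ^ 2 := by norm_num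
          _ ≤ Q ^ 2 := pow_le_pow_left₀ (by norm_num) hQ 2
          _ ≤ Q ^ 6 := hpow _ _ (by norm_num)
      calc 480 * q * 100 = q * 48000 := by ring
        _ ≤ q * Q ^ 6 := mul_le_mul_of_nonneg_left this hq0.le
    linarith
  have hq1000 : (1000 : ℝ) ≤ q := by
    have := (hpow 1 64 (by norm_num)).trans hq64
    rw [pow_one] at this; linarith
  have lhs : (2 * (q + 1) + N * (160 * F * (w * q + 1))) * (rho + tau * r) ≤ 22 / 10 * (rho * q) := by
    have b1 : 2 * (q + 1) + N * (160 * F * (w * q + 1)) ≤ 21 / 10 * q := by linarith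
    have b2 : rho + tau * r ≤ 1001 / 1000 * rho := by linarith
    have b3 : 0 ≤ rho + tau * r := by positivity
    calc _ ≤ 21 / 10 * q * (1001 / 1000 * rho) := mul_le_mul b1 b2 b3 (by positivity)
      _ = 21021 / 10000 * (rho * q) := by ring
      _ ≤ _ := mul_le_mul_of_nonneg_right (by norm_num) (mul_pos hrho0 hq0).le
  -- the errors on the right, each at most `rho q / (100 Q)`
  set B : ℝ := rho * q / (100 * Q) with hB
  have hBQ : Q * B = rho * q / 100 := by rw [hB]; field_simp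
  have hB0 : 0 < B := by rw [hB]; positivity
  have hQQ6 : 1000000 ≤ Q * Q := by
    calc (1000000 : ℝ) = 1000 * 1000 := by norm_num
      _ ≤ Q * Q := mul_le_mul hQ hQ (by norm_num) hQ0.le
  have hq3 : 1000 * Q ^ 2 ≤ q := by
    calc 1000 * Q ^ 2 ≤ Q * Q ^ 2 := mul_le_mul_of_nonneg_right hQ (by positivity)
      _ = Q ^ 3 := by ring
      _ ≤ Q ^ 64 := hpow _ _ (by norm_num)
      _ ≤ q := hq64
  have hl3 : l * Q ^ 2 ≤ q / 1000 := by
    have e1 : l * Q ^ 64 ≤ 2 * q := by
      rw [le_div_iff₀ (by positivity)] at hl2; exact hl2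
    have e2 : 2000 * Q ^ 2 ≤ Q ^ 64 := by
      calc 2000 * Q ^ 2 ≤ (Q * Q) * Q ^ 2 := mul_le_mul_of_nonneg_right (by linarith) (by positivity)
        _ = Q ^ 4 := by ring
        _ ≤ Q ^ 64 := hpow _ _ (by norm_num)
    have : l * (2000 * Q ^ 2) ≤ l * Q ^ 64 := mul_le_mul_of_nonneg_left e2 hl0
    linarith
  have x1 : rho * (l / 2 + 3 / 2 + tau) ≤ B := by
    rw [hB, mul_div_assoc]
    apply mul_le_mul_of_nonneg_left _ hrho0.le
    rw [le_div_iff₀ (by positivity)]
    have hQQ : Q ≤ Q ^ 2 := le_self_pow₀ hQ1 (by norm_num)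
    have e1 : l * Q ≤ q / 1000 := (mul_le_mul_of_nonneg_left hQQ hl0).trans hl3
    have e2 : tau * Q ≤ q / 1000 := by
      have : tau * Q ≤ Q ^ 2 := by
        calc tau * Q ≤ Q * Q := mul_le_mul_of_nonneg_right htau hQ0.le
          _ = Q ^ 2 := by ring
      linarith
    have e3 : Q ≤ q / 1000 := by linarith
    have e4 : (l / 2 + 3 / 2 + tau) * (100 * Q) = 50 * (l * Q) + 150 * Q + 100 * (tau * Q) := by ring
    rw [e4]
    linarith
  have hlq : l ≤ q := by
    have : 1 ≤ Q ^ 2 := one_le_pow₀ hQ1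
    have h2 : l * 1 ≤ l * Q ^ 2 := mul_le_mul_of_nonneg_left this hl0
    linarith
  have x2 : tau ^ 2 * r * (2 * q + l) ≤ B := by
    have e1 : tau ^ 2 * r * (2 * q + l) ≤ Q ^ 2 * r * (3 * q) := by
      apply mul_le_mul _ (by linarith) (by linarith) (by positivity)
      exact mul_le_mul_of_nonneg_right (pow_le_pow_left₀ (by linarith) htau 2) hr0.le
    have e2 : Q ^ 2 * r * (3 * q) * (100 * Q) ≤ rho * q := by
      have : Q ^ 2 * r * (3 * q) * (100 * Q) = 300 * (Q ^ 3 * r) * q := by ring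
      rw [this]
      apply mul_le_mul_of_nonneg_right _ hq0.le
      have : 0 ≤ Q ^ 3 * r := by positivity
      linarith
    rw [hB, le_div_iff₀ (by positivity)]
    calc _ ≤ Q ^ 2 * r * (3 * q) * (100 * Q) := mul_le_mul_of_nonneg_right e1 (by positivity)
      _ ≤ _ := e2
  have hS0 : 0 < S := lt_of_lt_of_le (by positivity) hS1
  have x3 : (l * phi + 8 * tau ^ 2 * q ^ 2 * r) / S ≤ B := by
    have hphi2 : phi ≤ 2 * (rho * q) := by
      rw [hphi, hrho, hv]
      have : q ^ 2 + q + 1 ≤ 2 * ((q + 1) * q) := by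
        have e1 : 2 * ((q + 1) * q) = 2 * q ^ 2 + 2 * q := by ring
        have e2 : 0 ≤ q ^ 2 := by positivity
        rw [e1]; linarith
      calc kap * (q ^ 2 + q + 1) ≤ kap * (2 * ((q + 1) * q)) :=
            mul_le_mul_of_nonneg_left this hkap.le
        _ = _ := by ring
    have hphi0 : 0 ≤ phi := by rw [hphi, hv]; positivity
    have hSQ : q ≤ S * Q ^ 16 := by
      rw [div_le_iff₀ (by positivity)] at hS1; exact hS1
    have hlS : l * (400 * Q) ≤ S := by
      have e1 : l * Q ^ 64 ≤ 2 * q := by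
        rw [le_div_iff₀ (by positivity)] at hl2; exact hl2
      have e2 : l * Q ^ 64 ≤ 2 * S * Q ^ 16 := by linarith
      have e3 : l * Q ^ 48 ≤ 2 * S := by
        have : l * Q ^ 48 * Q ^ 16 ≤ 2 * S * Q ^ 16 := by
          calc _ = l * Q ^ 64 := by ring
            _ ≤ _ := e2
        exact le_of_mul_le_mul_right this (by positivity)
      have e4 : 800 * Q ≤ Q ^ 48 := by
        calc 800 * Q ≤ Q * Q := mul_le_mul_of_nonneg_right (by linarith) hQ0.le
          _ = Q ^ 2 := by ring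
          _ ≤ Q ^ 48 := hpow _ _ (by norm_num)
      have : l * (800 * Q) ≤ l * Q ^ 48 := mul_le_mul_of_nonneg_left e4 hl0
      linarith
    rw [div_le_iff₀ hS0]
    have y1 : l * phi ≤ B * S / 2 := by
      have e1 : l * phi ≤ l * (2 * (rho * q)) := mul_le_mul_of_nonneg_left hphi2 hl0
      have e2 : l * (2 * (rho * q)) ≤ B * S / 2 := by
        rw [hB]
        have e3 : rho * q / (100 * Q) * S / 2 = rho * q * S / (200 * Q) := by
          field_simp
          ring
        rw [e3, le_div_iff₀ (by positivity)]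
        have : rho * q * (l * (400 * Q)) ≤ rho * q * S :=
          mul_le_mul_of_nonneg_left hlS (by positivity)
        linarith
      linarith
    have y2 : 8 * tau ^ 2 * q ^ 2 * r ≤ B * S / 2 := by
      have e3 : B * S / 2 = rho * q * S / (200 * Q) := by
        rw [hB]
        field_simp
        ring
      rw [e3, le_div_iff₀ (by positivity)]
      have e1 : 8 * tau ^ 2 * q ^ 2 * r * (200 * Q) ≤ 1600 * Q ^ 3 * q ^ 2 * r := by
        have : tau ^ 2 ≤ Q ^ 2 := pow_le_pow_left₀ (by linarith) htau 2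
        have h2 : 0 ≤ q ^ 2 * r * (1600 * Q) := by positivity
        calc 8 * tau ^ 2 * q ^ 2 * r * (200 * Q) = tau ^ 2 * (q ^ 2 * r * (1600 * Q)) := by ring
          _ ≤ Q ^ 2 * (q ^ 2 * r * (1600 * Q)) := mul_le_mul_of_nonneg_right this h2
          _ = _ := by ring
      have e2 : 1600 * Q ^ 20 ≤ r := by
        calc 1600 * Q ^ 20 ≤ (Q * Q) * Q ^ 20 := mul_le_mul_of_nonneg_right (by linarith) (by positivity)
          _ = Q ^ 22 := by ring
          _ ≤ Q ^ 32 := hpow _ _ (by norm_num)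
          _ ≤ r := hrQ
      -- target 1600 Q^3 q^2 r ≤ rho q S; multiply by Q^17: rho S Q^17 ≥ q^2
      have e4 : q * q ≤ (rho * Q) * (S * Q ^ 16) :=
        mul_le_mul hrhoq hSQ hq0.le (by positivity)
      have e5 : 1600 * Q ^ 3 * q ^ 2 * r * Q ^ 17 ≤ rho * q * S * Q ^ 17 := by
        calc 1600 * Q ^ 3 * q ^ 2 * r * Q ^ 17 = (1600 * Q ^ 20) * r * q ^ 2 := by ring
          _ ≤ r * r * q ^ 2 := by
              apply mul_le_mul_of_nonneg_right _ (by positivity)
              exact mul_le_mul_of_nonneg_right e2 hr0.le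
          _ = q * (q * q) := by rw [← hrr]; ring
          _ ≤ q * ((rho * Q) * (S * Q ^ 16)) := mul_le_mul_of_nonneg_left e4 hq0.le
          _ = _ := by ring
      have e6 : 1600 * Q ^ 3 * q ^ 2 * r ≤ rho * q * S := le_of_mul_le_mul_right e5 (by positivity)
      linarith
    linarith
  have hD0 : 0 ≤ l * phi + 8 * tau ^ 2 * q ^ 2 * r := by
    have hphi0 : 0 ≤ phi := by rw [hphi, hv]; positivity
    positivity
  have x4 : 3 * (l * phi + 8 * tau ^ 2 * q ^ 2 * r) / (4 * q) ≤ B := by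
    refine le_trans ?_ x3
    rw [div_le_div_iff₀ (by positivity) hS0]
    calc 3 * (l * phi + 8 * tau ^ 2 * q ^ 2 * r) * S = (l * phi + 8 * tau ^ 2 * q ^ 2 * r) * (3 * S) := by
          ring
      _ ≤ _ := mul_le_mul_of_nonneg_left (by linarith) hD0
  have x5 : (S + l) * ((rho + tau ^ 2 * r) * L) ≤ B := by
    have e1 : (rho + tau ^ 2 * r) * L ≤ 2 * rho * Q := by
      apply mul_le_mul (by linarith) hL hL0 (by positivity)
    have e2 : S + l ≤ 4 * q / Q ^ 16 := by
      have : 2 * q / Q ^ 64 ≤ 2 * q / Q ^ 16 := by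
        apply div_le_div_of_nonneg_left (by positivity) (by positivity) (hpow _ _ (by norm_num))
      calc S + l ≤ 2 * q / Q ^ 16 + 2 * q / Q ^ 16 := by linarith
        _ = _ := by ring
    calc (S + l) * ((rho + tau ^ 2 * r) * L) ≤ 4 * q / Q ^ 16 * (2 * rho * Q) :=
          mul_le_mul e2 e1 (by positivity) (by positivity)
      _ = 8 * (rho * q) / Q ^ 15 := by
          field_simp
          ring
      _ ≤ B := by
          rw [hB, div_le_div_iff₀ (by positivity) (by positivity)]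
          have : 800 * Q ≤ Q ^ 15 := by
            calc 800 * Q ≤ Q * Q := mul_le_mul_of_nonneg_right (by linarith) hQ0.le
              _ = Q ^ 2 := by ring
              _ ≤ Q ^ 15 := hpow _ _ (by norm_num)
          have h2 : 0 ≤ rho * q := by positivity
          calc 8 * (rho * q) * (100 * Q) = rho * q * (800 * Q) := by ring
            _ ≤ rho * q * Q ^ 15 := mul_le_mul_of_nonneg_left this h2
  have hmain : 3 * (rho * q) ≤ N * (rho * (kap * q / 4)) := by
    have : rho * q * 12 ≤ rho * q * (N * kap) := mul_le_mul_of_nonneg_left hN (by positivity)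
    have e1 : N * (rho * (kap * q / 4)) = rho * q * (N * kap) / 4 := by ring
    rw [e1]
    linarith
  have hrhs : N * (rho * (kap * q / 4)) - N * (5 * B) ≤
      N * (rho * (kap * q / 4 - l / 2 - 3 / 2 - tau) - tau ^ 2 * r * (2 * q + l)
        - (l * phi + 8 * tau ^ 2 * q ^ 2 * r) / S - 3 * (l * phi + 8 * tau ^ 2 * q ^ 2 * r) / (4 * q)
        - (S + l) * ((rho + tau ^ 2 * r) * L)) := by
    rw [← mul_sub]
    apply mul_le_mul_of_nonneg_left _ hN0.le
    have : rho * (kap * q / 4 - l / 2 - 3 / 2 - tau) = rho * (kap * q / 4) -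
      rho * (l / 2 + 3 / 2 + tau) := by ring
    rw [this]
    linarith
  have hN5 : N * (5 * B) ≤ rho * q / 20 := by
    have : N * (5 * B) ≤ Q * (5 * B) := mul_le_mul_of_nonneg_right hNQ (by positivity)
    linarith
  have hfin : 0 < rho * q := by positivity
  linarith

end Pool.Agent.GolS
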