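import Pool.Agent.GolS.FirstB

open Finset

namespace Pool.Agent.GolS

variable {q v : ℕ} [NeZero v] {A : Finset (ZMod v)}

/-- The bound for the total deficit. -/
noncomputable def Dd (q v l : ℕ) : ℝ :=
  (l : ℝ) * v.totient + 8 * tau v ^ 2 * (q : ℝ) ^ 2 * Real.sqrt q

namespace TBaAux

theorem card_units (v : ℕ) [NeZero v] : ((univ : Finset (ZMod v)ˣ).card : ℝ) = v.totient := by
  rw [Finset.card_univ, ZMod.card_units_eq_totient]

theorem rho_nonneg (q v : ℕ) : 0 ≤ rho q v := by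
  unfold rho; positivity

theorem kap_nonneg (v : ℕ) : 0 ≤ kap v := by
  unfold kap; positivity

theorem kap_le_one (v : ℕ) : kap v ≤ 1 := by
  unfold kap
  apply div_le_one_of_le₀
  · exact_mod_cast Nat.totient_le v
  · positivity

theorem tau_nonneg (v : ℕ) : 0 ≤ tau v := by
  unfold tau; positivity

theorem rho_q_le (h : PDS q v A) : rho q v * q ≤ v.totient := by
  unfold rho
  have hv0 : (0 : ℝ) < v := by
    have := NeZero.pos v
    exact_mod_cast this
  rw [div_mul_eq_mul_div, div_le_iff₀ hv0]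
  have hv : (v : ℝ) = (q : ℝ) ^ 2 + q + 1 := by
    have := h.hv
    rw [this]; push_cast; ring
  have ht : (0 : ℝ) ≤ v.totient := by positivity
  nlinarith [ht]

omit [NeZero v] in
theorem odd_v (h : PDS q v A) : Odd v := by
  have : Even (q * (q + 1)) := Nat.even_mul_succ_self q
  rw [h.hv]
  have e : q ^ 2 + q + 1 = q * (q + 1) + 1 := by ring
  rw [e]
  exact this.add_one

end TBaAux

open TBaAux

/-- Total deficit: `first_moment` and `first_moment_neg`; the number of units is `phi(v)`. -/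
theorem deficit (h : PDS q v A) (l : ℕ) :
    ∑ u : (ZMod v)ˣ, (2 * (q : ℝ) + l - M A (u : ZMod v) - M A (-(u : ZMod v))) ≤ Dd q v l := by
  have h1 := first_moment h
  have h2 := first_moment_neg h
  have e : ∑ u : (ZMod v)ˣ, (2 * (q : ℝ) + l - M A (u : ZMod v) - M A (-(u : ZMod v))) =
      (2 * (q : ℝ) + l) * v.totient - ∑ u : (ZMod v)ˣ, (M A (u : ZMod v) : ℝ)
        - ∑ u : (ZMod v)ˣ, (M A (-(u : ZMod v)) : ℝ) := by
    rw [Finset.sum_sub_distrib, Finset.sum_sub_distrib, Finset.sum_const, nsmul_eq_mul,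
      card_units v]
    ring
  rw [e]
  unfold Dd
  linarith

/-- Markov. -/
theorem T2 (h : PDS q v A) (S l : ℕ) (hS : 1 ≤ S)
    (H : ∀ u : (ZMod v)ˣ, M A (u : ZMod v) + M A (-(u : ZMod v)) ≤ 2 * q + l) :
    ((univ.filter fun u : (ZMod v)ˣ =>
      M A (u : ZMod v) + M A (-(u : ZMod v)) + S < 2 * q).card : ℝ) ≤ Dd q v l / S := by
  have hS0 : (0 : ℝ) < S := by exact_mod_cast hS
  rw [le_div_iff₀ hS0]
  refine le_trans ?_ (deficit h l)
  set B := univ.filter fun u : (ZMod v)ˣ => M A (u : ZMod v) + M A (-(u : ZMod v)) + S < 2 * q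
  calc (B.card : ℝ) * S = ∑ u ∈ B, (S : ℝ) := by rw [Finset.sum_const, nsmul_eq_mul]
    _ ≤ ∑ u ∈ B, (2 * (q : ℝ) + l - M A (u : ZMod v) - M A (-(u : ZMod v))) := by
        refine Finset.sum_le_sum fun u hu => ?_
        have hu' := (Finset.mem_filter.1 hu).2
        have : ((M A (u : ZMod v) + M A (-(u : ZMod v)) + S : ℕ) : ℝ) < ((2 * q : ℕ) : ℝ) := by
          exact_mod_cast hu'
        push_cast at this
        have hl : (0 : ℝ) ≤ l := by positivity
        linarith
    _ ≤ ∑ u : (ZMod v)ˣ, (2 * (q : ℝ) + l - M A (u : ZMod v) - M A (-(u : ZMod v))) := by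
        refine Finset.sum_le_sum_of_subset_of_nonneg (Finset.filter_subset _ _) fun u _ _ => ?_
        have : ((M A (u : ZMod v) + M A (-(u : ZMod v)) : ℕ) : ℝ) ≤ ((2 * q + l : ℕ) : ℝ) := by
          exact_mod_cast H u
        push_cast at this
        linarith

/-- Lower bound for the number of `u` with `M u ≤ q/2` and `M u` prime to `v`.
Proof. If `2 M(u) > q` then `M(-u) ∈ odds ((3 q + 2 l)/2)`, so by `count_M_neg`, `hc_sum`, `odds_card` the number
of these `u` is at most `rho ((3q+2l)/4 + 1/2) + tau^2 √q (3q/2 + l)`; there are `phi(v) ≥ rho q` units.  The `u` with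
`2 M(u) ≤ q` and `M(u)` not prime to `v` have `M(u)` in the odd `m ≤ q/2` not prime to `v`; by `odds_card` and
`odds_coprime` there are at most `q/4 (1 - kap) + 1/2 + tau` of these (`kap ≤ 1`), and `count_M`, `hc_sum` apply. -/
theorem T3 (h : PDS q v A) (l : ℕ)
    (H : ∀ u : (ZMod v)ˣ, M A (u : ZMod v) + M A (-(u : ZMod v)) ≤ 2 * q + l) :
    rho q v * (kap v * q / 4 - l / 2 - 3 / 2 - tau v) - tau v ^ 2 * Real.sqrt q * (2 * q + l) ≤
      ((univ.filter fun u : (ZMod v)ˣ => 2 * M A (u : ZMod v) ≤ q ∧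
        Nat.Coprime (M A (u : ZMod v)) v).card : ℝ) := by
  classical
  set G := univ.filter fun u : (ZMod v)ˣ => 2 * M A (u : ZMod v) ≤ q ∧
        Nat.Coprime (M A (u : ZMod v)) v with hG
  set y : ℕ := (3 * q + 2 * l) / 2 with hy
  set z : ℕ := q / 2 with hz
  set Z1 := odds y with hZ1
  set Z2 := (odds z).filter fun m => ¬ Nat.Coprime m v with hZ2
  set A1 := univ.filter fun u : (ZMod v)ˣ => M A (-(u : ZMod v)) ∈ Z1 with hA1
  set A2 := univ.filter fun u : (ZMod v)ˣ => M A (u : ZMod v) ∈ Z2 with hA2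
  have hcov : (univ : Finset (ZMod v)ˣ) ⊆ G ∪ (A1 ∪ A2) := by
    intro u _
    by_cases h1 : 2 * M A (u : ZMod v) ≤ q
    · by_cases h2 : Nat.Coprime (M A (u : ZMod v)) v
      · exact Finset.mem_union_left _ (Finset.mem_filter.2 ⟨Finset.mem_univ _, h1, h2⟩)
      · refine Finset.mem_union_right _ (Finset.mem_union_right _ ?_)
        refine Finset.mem_filter.2 ⟨Finset.mem_univ _, ?_⟩
        refine Finset.mem_filter.2 ⟨?_, h2⟩
        refine Finset.mem_filter.2 ⟨Finset.mem_Icc.2 ⟨(M_spec h u.isUnit).1, ?_⟩, M_odd h u.isUnit⟩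
        omega
    · refine Finset.mem_union_right _ (Finset.mem_union_left _ ?_)
      refine Finset.mem_filter.2 ⟨Finset.mem_univ _, ?_⟩
      have hun : IsUnit (-(u : ZMod v)) := u.isUnit.neg
      refine Finset.mem_filter.2 ⟨Finset.mem_Icc.2 ⟨(M_spec h hun).1, ?_⟩, M_odd h hun⟩
      have := H u
      omega
  have hcard : ((univ : Finset (ZMod v)ˣ).card : ℝ) ≤ G.card + (A1.card + A2.card) := by
    have h1 := Finset.card_le_card hcov
    have h2 := Finset.card_union_le G (A1 ∪ A2)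
    have h3 := Finset.card_union_le A1 A2
    have : (univ : Finset (ZMod v)ˣ).card ≤ G.card + (A1.card + A2.card) := by omega
    exact_mod_cast this
  rw [card_units v] at hcard
  have hr := rho_nonneg q v
  have hk := kap_nonneg v
  have hk1 := kap_le_one v
  have ht := tau_nonneg v
  have hs : 0 ≤ Real.sqrt q := Real.sqrt_nonneg _
  have htt : 0 ≤ tau v ^ 2 * Real.sqrt q := by positivity
  have hy2 : (y : ℝ) ≤ (3 * q + 2 * l) / 2 := by
    have : 2 * y ≤ 3 * q + 2 * l := by omega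
    have : ((2 * y : ℕ) : ℝ) ≤ ((3 * q + 2 * l : ℕ) : ℝ) := by exact_mod_cast this
    push_cast at this
    linarith
  have hz2 : (z : ℝ) ≤ q / 2 := by
    have : 2 * z ≤ q := by omega
    have : ((2 * z : ℕ) : ℝ) ≤ (q : ℝ) := by exact_mod_cast this
    push_cast at this
    linarith
  have hz0 : (0 : ℝ) ≤ z := by positivity
  have hA1c : (A1.card : ℝ) ≤ ((y : ℝ) + 1) / 2 * rho q v + tau v ^ 2 * Real.sqrt q * y := by
    refine (count_M_neg h Z1).trans ((hc_sum h y Z1 subset_rfl).trans ?_)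
    have := odds_card y
    have h2 := mul_le_mul_of_nonneg_right this hr
    linarith
  have hZ2c : (Z2.card : ℝ) ≤ ((z : ℝ) + 1) / 2 - (kap v * z / 2 - tau v) := by
    have h1 := odds_card z
    have h2 := odds_coprime v (odd_v h) z
    have h3 : ((odds z).filter fun m => Nat.Coprime m v).card + Z2.card = (odds z).card := by
      rw [hZ2]
      exact Finset.card_filter_add_card_filter_not _
    have h4 : (((odds z).filter fun m => Nat.Coprime m v).card : ℝ) + Z2.card = (odds z).card := by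
      exact_mod_cast h3
    linarith
  have hA2c : (A2.card : ℝ) ≤ (((z : ℝ) + 1) / 2 - (kap v * z / 2 - tau v)) * rho q v
      + tau v ^ 2 * Real.sqrt q * z := by
    refine (count_M h Z2).trans ((hc_sum h z Z2 (Finset.filter_subset _ _)).trans ?_)
    have h2 := mul_le_mul_of_nonneg_right hZ2c hr
    linarith
  have hq := rho_q_le h
  -- bounds in terms of q, l
  have b1 : ((y : ℝ) + 1) / 2 * rho q v ≤ ((3 * q + 2 * l) / 4 + 1 / 2) * rho q v := by
    refine mul_le_mul_of_nonneg_right ?_ hr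
    linarith
  have b2 : tau v ^ 2 * Real.sqrt q * y ≤ tau v ^ 2 * Real.sqrt q * ((3 * q + 2 * l) / 2) :=
    mul_le_mul_of_nonneg_left hy2 htt
  have b3 : (((z : ℝ) + 1) / 2 - (kap v * z / 2 - tau v)) * rho q v ≤
      ((q / 4) * (1 - kap v) + 1 / 2 + tau v) * rho q v := by
    refine mul_le_mul_of_nonneg_right ?_ hr
    nlinarith [mul_le_mul_of_nonneg_right hz2 (sub_nonneg.2 hk1)]
  have b4 : tau v ^ 2 * Real.sqrt q * z ≤ tau v ^ 2 * Real.sqrt q * (q / 2) :=
    mul_le_mul_of_nonneg_left hz2 htt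
  have hfin : rho q v * q - ((3 * q + 2 * l) / 4 + 1 / 2) * rho q v
      - tau v ^ 2 * Real.sqrt q * ((3 * q + 2 * l) / 2)
      - ((q / 4) * (1 - kap v) + 1 / 2 + tau v) * rho q v
      - tau v ^ 2 * Real.sqrt q * (q / 2) ≤ (G.card : ℝ) := by linarith
  refine le_trans ?_ hfin
  have e : rho q v * q - ((3 * q + 2 * l) / 4 + 1 / 2) * rho q v
      - tau v ^ 2 * Real.sqrt q * ((3 * q + 2 * l) / 2)
      - ((q / 4) * (1 - kap v) + 1 / 2 + tau v) * rho q v
      - tau v ^ 2 * Real.sqrt q * (q / 2) =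
      rho q v * (kap v * q / 4 - l / 2 - 3 / 2 - tau v) - tau v ^ 2 * Real.sqrt q * (2 * q + l)
      + rho q v * (1 / 2) := by ring
  rw [e]
  linarith

end Pool.Agent.GolS
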