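import Pool.Agent.GolS.DivA
import Pool.Agent.GolS.DivB
import Pool.Agent.GolS.TBa
import Pool.Agent.GolS.NumCore

open Finset Filter Topology

namespace Pool.Agent.GolS

theorem ev_lin (r : ℝ) (hr : 1 < r) (a b : ℝ) : ∀ᶠ e : ℕ in atTop, a * e + b ≤ r ^ e := by
  have h1 := tendsto_pow_const_div_const_pow_of_one_lt 1 hr
  have h2 : Tendsto (fun e : ℕ => a * ((e : ℝ) ^ 1 / r ^ e)) atTop (𝓝 (a * 0)) := h1.const_mul a
  have h3 : Tendsto (fun e : ℕ => b * ((e : ℝ) ^ 0 / r ^ e)) atTop (𝓝 (b * 0)) :=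
    (tendsto_pow_const_div_const_pow_of_one_lt 0 hr).const_mul b
  have h4 := h2.add h3
  have h5 := h4.eventually (eventually_le_nhds (by norm_num : a * 0 + b * 0 < (1 : ℝ)))
  filter_upwards [h5] with e he
  have hp : 0 < r ^ e := by positivity
  have : a * ((e : ℝ) ^ 1 / r ^ e) + b * ((e : ℝ) ^ 0 / r ^ e) = (a * e + b) / r ^ e := by
    field_simp
  rw [this, div_le_one hp] at he
  exact he

/-- The final numerical inequality.
Proof. Let `δ > 0` be small with respect to `ε`.  For large `e`: `tau ≤ q^δ`, `1/kap ≤ 1 + δ e`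
(`divisor_bound`, `inv_kap`).  Take `N = ⌈12/kap⌉`, `l = ⌈q^(1-ε)⌉`, `S = ⌈q^(1-ε/4)⌉`.
`num_core` with `Q = q^(ε/64)`. -/
theorem num (ε : ℝ) (h0 : 0 < ε) (h1 : ε < 1) : ∃ e0 : ℕ, ∀ e : ℕ, e0 ≤ e → ∀ q v : ℕ, q = 2 ^ e →
    v = q ^ 2 + q + 1 → ∃ N S l : ℕ, (q : ℝ) ^ (1 - ε) ≤ l ∧ l ≤ S ∧ S ≤ q ∧ 1 ≤ S ∧
    (2 * ((q : ℝ) + 1) + N * (160 * 64 ^ N * (Real.sqrt (((S : ℝ) + 2) / q) * q + 1))) *
        (rho q v + tau v * Real.sqrt q) <
      N * (rho q v * (kap v * q / 4 - l / 2 - 3 / 2 - tau v) - tau v ^ 2 * Real.sqrt q * (2 * q + l)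
        - Dd q v l / S - 3 * Dd q v l / (4 * q) -
        ((S : ℝ) + l) * ((rho q v + tau v ^ 2 * Real.sqrt q) *
          (1 + Real.log ((2 * q + l : ℕ) : ℝ)))) := by
  set η : ℝ := ε / 64 with hη
  have hη0 : 0 < η := by positivity
  set δ : ℝ := η / 500 with hδ
  have hδ0 : 0 < δ := by positivity
  set r : ℝ := (2 : ℝ) ^ η with hr
  have hr1 : 1 < r := Real.one_lt_rpow (by norm_num) hη0
  obtain ⟨n0, hn0⟩ := divisor_bound δ hδ0
  have ev1 := ev_lin r hr1 0 1000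
  have ev2 := ev_lin r hr1 (3 * δ) 1
  have ev3 := ev_lin r hr1 1 3
  have ev4 : ∀ᶠ e : ℕ in atTop, (78 : ℝ) ≤ (η - 216 * δ) * e := by
    have hpos : 0 < η - 216 * δ := by rw [hδ]; linarith
    have : Tendsto (fun e : ℕ => (η - 216 * δ) * (e : ℝ)) atTop atTop :=
      Tendsto.const_mul_atTop hpos tendsto_natCast_atTop_atTop
    exact this.eventually_ge_atTop 78
  obtain ⟨e0, he0⟩ := eventually_atTop.1 (ev1.and (ev2.and (ev3.and ev4)))
  refine ⟨max e0 (max n0 1), fun e he q v hq hv => ?_⟩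
  obtain ⟨g1, g2, g3, g4⟩ := he0 e ((le_max_left _ _).trans he)
  have hen0 : n0 ≤ e := (le_max_left _ _).trans ((le_max_right _ _).trans he)
  have he1 : 1 ≤ e := (le_max_right _ _).trans ((le_max_right _ _).trans he)
  set Q : ℝ := r ^ e with hQ
  have hqR : (q : ℝ) = 2 ^ e := by rw [hq]; push_cast; ring
  have hQq : Q = (q : ℝ) ^ η := by
    rw [hQ, hr, hqR, ← Real.rpow_natCast, ← Real.rpow_mul (by norm_num), ← Real.rpow_natCast,
      ← Real.rpow_mul (by norm_num), mul_comm]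
  have hq2 : 2 ≤ q := by
    rw [hq]
    calc 2 = 2 ^ 1 := by norm_num
      _ ≤ 2 ^ e := Nat.pow_le_pow_right (by norm_num) he1
  have hq2R : (2 : ℝ) ≤ q := by exact_mod_cast hq2
  have hq0 : (0 : ℝ) < q := by linarith
  have hvR : (v : ℝ) = (q : ℝ) ^ 2 + q + 1 := by rw [hv]; push_cast; ring
  have hv0 : 0 < v := by rw [hv]; positivity
  have hQ0 : 0 < Q := by positivity
  have hQ1000 : 1000 ≤ Q := by linarith
  have hQpow : ∀ n : ℕ, Q ^ n = (q : ℝ) ^ (η * n) := by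
    intro n
    rw [hQq, ← Real.rpow_natCast, ← Real.rpow_mul hq0.le]
  have hQ64 : Q ^ 64 = (q : ℝ) ^ ε := by
    rw [hQpow]; congr 1; rw [hη]; push_cast; ring
  have hq64 : Q ^ 64 ≤ q := by
    rw [hQ64]
    calc (q : ℝ) ^ ε ≤ (q : ℝ) ^ (1 : ℝ) := Real.rpow_le_rpow_of_exponent_le (by linarith) h1.le
      _ = q := Real.rpow_one _
  -- log q
  have hlogq : Real.log q = e * Real.log 2 := by rw [hqR, Real.log_pow]
  have hlog2 : 0 < Real.log 2 := Real.log_pos (by norm_num)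
  have hlog2' : Real.log 2 ≤ 1 := by
    have := Real.log_two_lt_d9; linarith
  -- tau
  have hvn0 : n0 ≤ v := by
    have : e < 2 ^ e := Nat.lt_two_pow_self
    rw [← hq] at this
    have : q ≤ v := by rw [hv]; nlinarith
    omega
  have htau1 : tau v ≤ (q : ℝ) ^ (3 * δ) := by
    have h2 : (v : ℝ) ≤ (q : ℝ) ^ (3 : ℝ) := by
      have : (q : ℝ) ^ (3 : ℝ) = (q : ℝ) ^ 3 := by
        rw [← Real.rpow_natCast]; norm_num
      rw [this, hvR]
      nlinarith [mul_pos hq0 hq0]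
    calc tau v ≤ (v : ℝ) ^ δ := hn0 v hvn0
      _ ≤ ((q : ℝ) ^ (3 : ℝ)) ^ δ := Real.rpow_le_rpow (by positivity) h2 hδ0.le
      _ = (q : ℝ) ^ (3 * δ) := by rw [← Real.rpow_mul hq0.le]
  have htau0 : 1 ≤ tau v := by
    rw [tau]
    have : 0 < v.divisors.card := Finset.card_pos.2 ⟨1, Nat.one_mem_divisors.2 hv0.ne'⟩
    exact_mod_cast this
  have htauQ : tau v ≤ Q := by
    rw [hQq]
    refine htau1.trans (Real.rpow_le_rpow_of_exponent_le (by linarith) ?_)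
    rw [hδ]; linarith
  -- kap
  have hkap0 : 0 < kap v := by
    rw [kap]
    have : 0 < v.totient := Nat.totient_pos.2 hv0
    positivity
  have hinv : 1 / kap v ≤ 1 + 3 * δ * e := by
    refine (inv_kap v hv0).trans ?_
    have : Real.log (tau v) ≤ 3 * δ * (e * Real.log 2) := by
      calc Real.log (tau v) ≤ Real.log ((q : ℝ) ^ (3 * δ)) :=
            Real.log_le_log (by linarith) htau1
        _ = 3 * δ * Real.log q := Real.log_rpow hq0 _
        _ = _ := by rw [hlogq]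
    have h2 : Real.log (tau v) / Real.log 2 ≤ 3 * δ * e := by
      rw [div_le_iff₀ hlog2]; linarith
    linarith
  have hkapQ : 1 ≤ kap v * Q := by
    have : 1 / kap v ≤ Q := by linarith
    rw [div_le_iff₀ hkap0] at this
    linarith
  -- N
  set N : ℕ := ⌈12 / kap v⌉₊ with hN
  have hN1 : 12 ≤ (N : ℝ) * kap v := by
    have : 12 / kap v ≤ N := Nat.le_ceil _
    rwa [div_le_iff₀ hkap0] at this
  have hN2 : (N : ℝ) ≤ 13 + 36 * δ * e := by
    have h2 : (N : ℝ) < 12 / kap v + 1 := Nat.ceil_lt_add_one (by positivity)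
    have h3 : 12 / kap v = 12 * (1 / kap v) := by ring
    rw [h3] at h2
    linarith
  have hF : (64 : ℝ) ^ N ≤ Q := by
    have e1 : (64 : ℝ) ^ N = (2 : ℝ) ^ (6 * (N : ℝ)) := by
      rw [Real.rpow_mul (by norm_num)]
      norm_num
    have e2 : Q = (2 : ℝ) ^ (η * e) := by
      rw [hQ, hr, ← Real.rpow_natCast, ← Real.rpow_mul (by norm_num)]
    rw [e1, e2]
    apply Real.rpow_le_rpow_of_exponent_le (by norm_num)
    nlinarith
  have hNQ : (N : ℝ) ≤ Q := by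
    refine le_trans ?_ hF
    have : N < 2 ^ N := Nat.lt_two_pow_self
    have h2 : (2 : ℝ) ^ N ≤ 64 ^ N := pow_le_pow_left₀ (by norm_num) (by norm_num) N
    have h3 : (N : ℝ) ≤ 2 ^ N := by exact_mod_cast this.le
    linarith
  set l : ℕ := ⌈(q : ℝ) / Q ^ 64⌉₊ with hl
  set S : ℕ := ⌈(q : ℝ) / Q ^ 16⌉₊ with hS
  have hQ1 : 1 ≤ Q := by linarith
  have hpow : ∀ a b : ℕ, a ≤ b → Q ^ a ≤ Q ^ b := fun a b hab => pow_le_pow_right₀ hQ1 hab
  have hq16 : Q ^ 16 ≤ q := (hpow 16 64 (by norm_num)).trans hq64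
  have hl1 : (q : ℝ) / Q ^ 64 ≤ l := Nat.le_ceil _
  have hS1 : (q : ℝ) / Q ^ 16 ≤ S := Nat.le_ceil _
  have hl2 : (l : ℝ) ≤ 2 * q / Q ^ 64 := by
    have h2 : (l : ℝ) < q / Q ^ 64 + 1 := Nat.ceil_lt_add_one (by positivity)
    have h3 : 1 ≤ (q : ℝ) / Q ^ 64 := by rw [le_div_iff₀ (by positivity)]; linarith
    have h4 : 2 * (q : ℝ) / Q ^ 64 = q / Q ^ 64 + q / Q ^ 64 := by ring
    linarith
  have hS2 : (S : ℝ) ≤ 2 * q / Q ^ 16 := by
    have h2 : (S : ℝ) < q / Q ^ 16 + 1 := Nat.ceil_lt_add_one (by positivity)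
    have h3 : 1 ≤ (q : ℝ) / Q ^ 16 := by rw [le_div_iff₀ (by positivity)]; linarith
    have h4 : 2 * (q : ℝ) / Q ^ 16 = q / Q ^ 16 + q / Q ^ 16 := by ring
    linarith
  have hlS : l ≤ S := by
    apply Nat.ceil_mono
    exact div_le_div_of_nonneg_left hq0.le (by positivity) (hpow _ _ (by norm_num))
  have hSq : S ≤ q := by
    rw [hS]
    apply Nat.ceil_le.2
    apply div_le_self hq0.le (one_le_pow₀ hQ1)
  have hSpos : 1 ≤ S := Nat.ceil_pos.2 (by positivity)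
  have hlq : l ≤ q := hlS.trans hSq
  have hL : 1 + Real.log ((2 * q + l : ℕ) : ℝ) ≤ Q := by
    have e1 : ((2 * q + l : ℕ) : ℝ) ≤ 4 * q := by
      have : 2 * q + l ≤ 4 * q := by omega
      exact_mod_cast this
    have e2 : Real.log ((2 * q + l : ℕ) : ℝ) ≤ Real.log (4 * q) := by
      apply Real.log_le_log _ e1
      have : 0 < 2 * q + l := by omega
      exact_mod_cast this
    have e3 : Real.log (4 * q) = 2 * Real.log 2 + e * Real.log 2 := by
      rw [Real.log_mul (by norm_num) hq0.ne', hlogq]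
      have : Real.log 4 = 2 * Real.log 2 := by
        rw [show (4 : ℝ) = 2 ^ 2 by norm_num, Real.log_pow]; norm_num
      rw [this]
    have e4 : (0 : ℝ) ≤ e := Nat.cast_nonneg e
    nlinarith
  have hL0 : 0 ≤ 1 + Real.log ((2 * q + l : ℕ) : ℝ) := by
    have : 0 ≤ Real.log ((2 * q + l : ℕ) : ℝ) := Real.log_natCast_nonneg _
    linarith
  have hrQ : Q ^ 32 ≤ Real.sqrt q := by
    apply Real.le_sqrt_of_sq_le
    rw [← pow_mul]
    exact hq64
  refine ⟨N, S, l, ?_, hlS, hSq, hSpos, ?_⟩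
  · rw [Real.rpow_sub hq0, Real.rpow_one, ← hQ64]
    exact hl1
  · have hSq' : (S : ℝ) ≤ q := by exact_mod_cast hSq
    have := num_core (q : ℝ) Q (tau v) (kap v) (rho q v) (v.totient : ℝ) v N (64 ^ N) S l
      (1 + Real.log ((2 * q + l : ℕ) : ℝ)) (Real.sqrt q) (Real.sqrt (((S : ℝ) + 2) / q))
      hQ1000 htauQ htau0 hkap0 hkapQ (by rw [rho, kap]; ring)
      (by rw [kap]; field_simp) hvR hN1 hNQ hF (by positivity) hS1 hS2 hSq' (by positivity) hl2
      hL hL0 (Real.sq_sqrt hq0.le) hrQ (Real.sqrt_nonneg _) (Real.sq_sqrt (by positivity))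
    rw [Dd]
    exact this

end Pool.Agent.GolS
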