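import Pool.Agent.GolS.QuadA

open Finset

namespace Pool.Agent.GolS

namespace QuadBAux

/-- The odd integers are at least one in absolute value. -/
theorem one_le_abs_odd (k : ℤ) (hk : Odd k) : (1 : ℝ) ≤ |(k : ℝ)| := by
  have hk0 : k ≠ 0 := by
    rintro rfl
    simp at hk
  have h1 : 1 ≤ |k| := Int.one_le_abs hk0
  exact_mod_cast h1

theorem P0_eq (a b k01 k12 k02 y : ℝ) : P0 a b k01 k12 k02 y =
    ((a * b - 1) * (a - 1) * k12) * y ^ 2 +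
      (2 * a * b * (4 - k12 * (a - 1)) - (a * b - 1) * (2 * a * k12 + 2 * k01) +
        (2 * b * (a - 1) + 2 * (b - 1)) * k02 - 2 * (4 * a * b - (b - 1) * k01)) * y +
      (2 * a * b * (2 * a * k12 + 2 * k01) - (4 * a * b - (b - 1) * k01) * k02) := by
  unfold P0
  ring

/-- The bad values for one choice of the parameters. -/
noncomputable def Zs (N q : ℕ) (eta : ℝ) (s t : ℕ) (k01 k12 k02 : ℤ) : Finset ℕ :=
  open Classical in
  (Icc 1 q).filter fun m => 1 ≤ s ∧ 1 ≤ t ∧ s + t < N ∧ Odd k12 ∧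
    |P0 (2 ^ s) (2 ^ t) k01 k12 k02 ((m : ℝ) / q)| ≤ 40 * (2 ^ s) ^ 2 * (2 ^ t) ^ 2 * eta

theorem Zs_card (N q : ℕ) (hq : 1 ≤ q) (eta : ℝ) (heta : 0 ≤ eta) (s t : ℕ) (k01 k12 k02 : ℤ) :
    ((Zs N q eta s t k01 k12 k02).card : ℝ) ≤ 9 * 2 ^ N * (Real.sqrt eta * q) + 2 := by
  have hq0 : (0 : ℝ) < q := by exact_mod_cast hq
  by_cases hc : 1 ≤ s ∧ 1 ≤ t ∧ s + t < N ∧ Odd k12
  · obtain ⟨hs, ht, hst, hodd⟩ := hc
    have ha : (2 : ℝ) ≤ 2 ^ s := by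
      calc (2 : ℝ) = 2 ^ 1 := by norm_num
        _ ≤ 2 ^ s := pow_le_pow_right₀ (by norm_num) hs
    have hb : (2 : ℝ) ≤ 2 ^ t := by
      calc (2 : ℝ) = 2 ^ 1 := by norm_num
        _ ≤ 2 ^ t := pow_le_pow_right₀ (by norm_num) ht
    have hk := one_le_abs_odd k12 hodd
    have hlead : 1 ≤ |((2 : ℝ) ^ s * 2 ^ t - 1) * (2 ^ s - 1) * (k12 : ℝ)| := by
      rw [abs_mul]
      have h2 : (1 : ℝ) ≤ (2 : ℝ) ^ s * 2 ^ t - 1 := by nlinarith
      have h3 : (1 : ℝ) ≤ (2 : ℝ) ^ s - 1 := by linarith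
      have h1 : (1 : ℝ) ≤ ((2 : ℝ) ^ s * 2 ^ t - 1) * (2 ^ s - 1) := by nlinarith
      rw [abs_of_nonneg (by linarith)]
      nlinarith [abs_nonneg (k12 : ℝ)]
    have heps : 0 ≤ 40 * ((2 : ℝ) ^ s) ^ 2 * (2 ^ t) ^ 2 * eta := by positivity
    have hcount := quad_count _
      (2 * 2 ^ s * 2 ^ t * (4 - (k12 : ℝ) * (2 ^ s - 1)) -
        ((2 : ℝ) ^ s * 2 ^ t - 1) * (2 * 2 ^ s * k12 + 2 * k01) +
        (2 * 2 ^ t * (2 ^ s - 1) + 2 * (2 ^ t - 1)) * k02 -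
        2 * (4 * 2 ^ s * 2 ^ t - (2 ^ t - 1) * k01))
      (2 * 2 ^ s * 2 ^ t * (2 * 2 ^ s * k12 + 2 * k01) -
        (4 * 2 ^ s * 2 ^ t - (2 ^ t - 1) * k01) * k02)
      hlead _ heps q hq (Zs N q eta s t k01 k12 k02) (by
        intro m hm
        classical
        rw [Zs, mem_filter] at hm
        have := hm.2.2.2.2.2
        rw [P0_eq] at this
        exact this)
    refine hcount.trans ?_
    have hsq : Real.sqrt (2 * (40 * ((2 : ℝ) ^ s) ^ 2 * (2 ^ t) ^ 2 * eta)) ≤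
        9 * (2 ^ s * 2 ^ t) * Real.sqrt eta := by
      rw [Real.sqrt_le_left (by positivity)]
      have : (9 * ((2 : ℝ) ^ s * 2 ^ t) * Real.sqrt eta) ^ 2 =
          81 * (((2 : ℝ) ^ s) ^ 2 * (2 ^ t) ^ 2 * eta) := by
        rw [mul_pow, mul_pow, mul_pow, Real.sq_sqrt heta]
        ring
      rw [this]
      have h0 : 0 ≤ ((2 : ℝ) ^ s) ^ 2 * (2 ^ t) ^ 2 * eta := by positivity
      nlinarith
    have hN : (2 : ℝ) * (2 ^ s * 2 ^ t) ≤ 2 ^ N := by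
      rw [← pow_add]
      calc (2 : ℝ) * 2 ^ (s + t) = 2 ^ (s + t + 1) := by rw [pow_succ]; ring
        _ ≤ 2 ^ N := pow_le_pow_right₀ (by norm_num) hst
    have h3 : Real.sqrt (2 * (40 * ((2 : ℝ) ^ s) ^ 2 * (2 ^ t) ^ 2 * eta)) * q ≤
        9 * (2 ^ s * 2 ^ t) * Real.sqrt eta * q := mul_le_mul_of_nonneg_right hsq hq0.le
    have h4 : 9 * ((2 : ℝ) * (2 ^ s * 2 ^ t)) * (Real.sqrt eta * q) ≤
        9 * 2 ^ N * (Real.sqrt eta * q) := by
      apply mul_le_mul_of_nonneg_right _ (by positivity)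
      linarith
    nlinarith
  · have : Zs N q eta s t k01 k12 k02 = ∅ := by
      classical
      rw [Zs, filter_eq_empty_iff]
      intro m _ h
      exact hc ⟨h.1, h.2.1, h.2.2.1, h.2.2.2.1⟩
    rw [this]
    simp only [card_empty, Nat.cast_zero]
    positivity

end QuadBAux

open QuadBAux in
/-- The exceptional set is small.
Proof. Union over `s, t < N` and integers `|k| < 2^N` (three of them): at most `N^2 (2^(N+1))^3 ≤ 8 * 32^N`
choices.  For each choice `P0` is a quadratic in `y` with leading coefficient `(ab-1)(a-1) k12`, of absolute value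
`≥ 1`, and `√(2 eps) = √80 2^(s+t) √eta ≤ 4.5 * 2^N √eta` as `s + t ≤ N - 1`; use `quad_count`. -/
theorem Exc_card (N q : ℕ) (hq : 1 ≤ q) (eta : ℝ) (heta : 0 ≤ eta) :
    ((Exc N q eta).card : ℝ) ≤ 160 * 64 ^ N * (Real.sqrt eta * q + 1) := by
  classical
  have hq0 : (0 : ℝ) < q := by exact_mod_cast hq
  set K : Finset ℤ := Ioo (-(2 ^ N : ℤ)) (2 ^ N) with hK
  have hKcard : K.card ≤ 2 ^ (N + 1) := by
    rw [hK, Int.card_Ioo]
    have : ((2 : ℤ) ^ N - -(2 ^ N : ℤ) - 1).toNat ≤ ((2 : ℤ) ^ (N + 1)).toNat := by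
      apply Int.toNat_le_toNat
      rw [pow_succ]; linarith
    refine this.trans (le_of_eq ?_)
    have : ((2 : ℤ) ^ (N + 1)) = ((2 ^ (N + 1) : ℕ) : ℤ) := by push_cast; rfl
    rw [this, Int.toNat_natCast]
  have hKm : ∀ (k : ℤ) (j : ℕ), j ≤ N → |k| < 2 ^ j → k ∈ K := by
    intro k j hj hk
    have h2 : (2 : ℤ) ^ j ≤ 2 ^ N := pow_le_pow_right₀ (by norm_num) hj
    have h3 := abs_lt.mp (lt_of_lt_of_le hk h2)
    rw [hK, mem_Ioo]
    exact h3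
  set I : Finset ((ℕ × ℕ) × (ℤ × ℤ × ℤ)) := (range N ×ˢ range N) ×ˢ (K ×ˢ K ×ˢ K) with hI
  have hsub : Exc N q eta ⊆ I.biUnion fun i =>
      Zs N q eta i.1.1 i.1.2 i.2.1 i.2.2.1 i.2.2.2 := by
    intro m hm
    rw [Exc, mem_filter] at hm
    obtain ⟨hm1, s, t, hs, ht, hst, k01, k12, k02, h01, hodd, h12, h02, hP⟩ := hm
    rw [mem_biUnion]
    refine ⟨((s, t), (k01, k12, k02)), ?_, ?_⟩
    · simp only [hI, mem_product, mem_range]
      exact ⟨⟨by omega, by omega⟩, hKm _ _ (by omega) h01, hKm _ _ (by omega) h12,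
        hKm _ _ (by omega) h02⟩
    · rw [Zs, mem_filter]
      exact ⟨hm1, hs, ht, hst, hodd, hP⟩
  have hc1 : ((Exc N q eta).card : ℝ) ≤
      ∑ i ∈ I, ((Zs N q eta i.1.1 i.1.2 i.2.1 i.2.2.1 i.2.2.2).card : ℝ) := by
    have := (card_le_card hsub).trans card_biUnion_le
    exact_mod_cast this
  have hc2 : ∑ i ∈ I, ((Zs N q eta i.1.1 i.1.2 i.2.1 i.2.2.1 i.2.2.2).card : ℝ) ≤
      (I.card : ℝ) * (9 * 2 ^ N * (Real.sqrt eta * q) + 2) := by
    rw [← nsmul_eq_mul]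
    exact sum_le_card_nsmul _ _ _ fun i _ => Zs_card N q hq eta heta _ _ _ _ _
  have hIcard : (I.card : ℝ) ≤ 8 * 32 ^ N := by
    have h1 : I.card = N * N * (K.card * (K.card * K.card)) := by
      simp [hI, card_product]
    have h2 : I.card ≤ 2 ^ N * 2 ^ N * (2 ^ (N + 1) * (2 ^ (N + 1) * 2 ^ (N + 1))) := by
      rw [h1]
      have hN : N ≤ 2 ^ N := Nat.lt_two_pow_self.le
      gcongr
    have h3 : ((2 : ℕ) ^ N * 2 ^ N * (2 ^ (N + 1) * (2 ^ (N + 1) * 2 ^ (N + 1)))) = 8 * 32 ^ N := by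
      have : (32 : ℕ) ^ N = 2 ^ N * 2 ^ N * (2 ^ N * (2 ^ N * 2 ^ N)) := by
        rw [show (32 : ℕ) = 2 * 2 * (2 * (2 * 2)) by norm_num]
        simp only [mul_pow]
      rw [this, pow_succ]
      ring
    rw [h3] at h2
    exact_mod_cast h2
  have hpos : 0 ≤ 9 * 2 ^ N * (Real.sqrt eta * q) + 2 := by positivity
  have h64 : (32 : ℝ) ^ N * 2 ^ N = 64 ^ N := by rw [← mul_pow]; norm_num
  have h32 : (32 : ℝ) ^ N ≤ 64 ^ N := pow_le_pow_left₀ (by norm_num) (by norm_num) _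
  have hse : 0 ≤ Real.sqrt eta * q := by positivity
  calc ((Exc N q eta).card : ℝ)
      ≤ (I.card : ℝ) * (9 * 2 ^ N * (Real.sqrt eta * q) + 2) := hc1.trans hc2
    _ ≤ 8 * 32 ^ N * (9 * 2 ^ N * (Real.sqrt eta * q) + 2) :=
        mul_le_mul_of_nonneg_right hIcard hpos
    _ = 72 * (32 ^ N * 2 ^ N) * (Real.sqrt eta * q) + 16 * 32 ^ N := by ring
    _ = 72 * 64 ^ N * (Real.sqrt eta * q) + 16 * 32 ^ N := by rw [h64]
    _ ≤ 160 * 64 ^ N * (Real.sqrt eta * q + 1) := by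
        have h64p : (0 : ℝ) < 64 ^ N := by positivity
        nlinarith [mul_nonneg h64p.le hse]

end Pool.Agent.GolS
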