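import Pool.Agent.GolS.MBasic

open Finset

namespace Pool.Agent.GolS

variable {q v : ℕ} [NeZero v] {A : Finset (ZMod v)}

/-- A dilate with a long gap around `0` gives a short Golomb ruler.
Proof. `B` = the image of `A` under `a ↦ (u⁻¹ a).val - M u`.  For `a ∈ A`, `r = (u⁻¹ a).val` satisfies `r u = a ∈ A`,
`1 ≤ r`, so `M u ≤ r`, and `(v - r)(-u) = r u ∈ A`, so `M(-u) ≤ v - r`.  Differences are distinct even modulo `v`. -/
theorem ruler (h : PDS q v A) (u : (ZMod v)ˣ) (K : ℕ)
    (hK : K < M A (u : ZMod v) + M A (-(u : ZMod v))) :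
    ∃ B : Finset ℕ, B.card = q + 1 ∧ (∀ x ∈ B, x + K + 1 ≤ v) ∧
      ∀ a ∈ B, ∀ b ∈ B, ∀ c ∈ B, ∀ d ∈ B, b < a → d < c → a - b = c - d → a = c ∧ b = d := by
  classical
  let r : ZMod v → ℕ := fun a => (((u⁻¹ : (ZMod v)ˣ) : ZMod v) * a).val
  have hr : ∀ a, (r a : ZMod v) * u = a := by
    intro a
    simp only [r]
    rw [ZMod.natCast_zmod_val, mul_comm, ← mul_assoc, Units.mul_inv, one_mul]
  have hlt : ∀ a, r a < v := fun a => ZMod.val_lt _
  have hr1 : ∀ a ∈ A, 1 ≤ r a := by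
    intro a ha
    rw [Nat.one_le_iff_ne_zero]
    intro h0
    have h1 := hr a
    rw [h0, Nat.cast_zero, zero_mul] at h1
    rw [← h1] at ha
    exact h.zero ha
  have hM1 : ∀ a ∈ A, M A (u : ZMod v) ≤ r a := fun a ha =>
    M_le (hr1 a ha) (by rw [hr]; exact ha)
  have hM2 : ∀ a ∈ A, M A (-(u : ZMod v)) ≤ v - r a := fun a ha => by
    apply M_le
    · have := hlt a; omega
    · rw [Nat.cast_sub (hlt a).le, ZMod.natCast_self, zero_sub, neg_mul_neg, hr]
      exact ha
  have hinj : ∀ a b, r a = r b → a = b := by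
    intro a b e
    rw [← hr a, ← hr b, e]
  refine ⟨A.image fun a => r a - M A (u : ZMod v), ?_, ?_, ?_⟩
  · rw [card_image_of_injOn, h.card]
    intro a ha b hb e
    apply hinj
    have h1 := hM1 a ha
    have h2 := hM1 b hb
    simp only at e
    omega
  · intro x hx
    obtain ⟨a, ha, rfl⟩ := mem_image.1 hx
    have h1 := hM1 a ha
    have h2 := hM2 a ha
    have h3 := hlt a
    have h4 := hr1 a ha
    omega
  · intro a' ha' b' hb' c' hc' d' hd' hba hdc e
    obtain ⟨a, ha, rfl⟩ := mem_image.1 ha'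
    obtain ⟨b, hb, rfl⟩ := mem_image.1 hb'
    obtain ⟨c, hc, rfl⟩ := mem_image.1 hc'
    obtain ⟨d, hd, rfl⟩ := mem_image.1 hd'
    have h1 := hM1 a ha
    have h2 := hM1 b hb
    have h3 := hM1 c hc
    have h4 := hM1 d hd
    have e1 : r a + r d = r c + r b := by omega
    have e2 : a - b = c - d := by
      have := congrArg (fun n : ℕ => (n : ZMod v) * u) e1
      simp only [Nat.cast_add, add_mul, hr] at this
      linear_combination this
    have hab : a ≠ b := by
      rintro rfl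
      omega
    obtain ⟨rfl, rfl⟩ := h.sidon a ha b hb c hc d hd hab e2
    exact ⟨rfl, rfl⟩

end Pool.Agent.GolS
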