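import Pool.Agent.GolS.TBa

open Finset

namespace Pool.Agent.GolS

variable {q v : ℕ} [NeZero v] {A : Finset (ZMod v)}

namespace TBbAux

/-- The number of `t` with `Q ≤ t s + S` and `t s ≤ Q + l`. -/
theorem count_t (Q S l s B : ℕ) (hs : 1 ≤ s) :
    (((range B).filter fun t => Q ≤ t * s + S ∧ t * s ≤ Q + l).card : ℝ) ≤
      ((S : ℝ) + l) / s + 1 := by
  set F := (range B).filter fun t => Q ≤ t * s + S ∧ t * s ≤ Q + l with hF
  have hs0 : (0 : ℝ) < s := by exact_mod_cast hs
  rcases F.eq_empty_or_nonempty with he | hne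
  · rw [he]
    simp only [Finset.card_empty, Nat.cast_zero]
    positivity
  · set t0 := F.min' hne with ht0
    have h0 : t0 ∈ F := F.min'_mem hne
    have hsub : F ⊆ Icc t0 (t0 + (S + l) / s) := by
      intro t ht
      have h1 : t0 ≤ t := F.min'_le t ht
      refine Finset.mem_Icc.2 ⟨h1, ?_⟩
      have a := (Finset.mem_filter.1 ht).2.2
      have b := (Finset.mem_filter.1 h0).2.1
      have c : (t - t0) * s ≤ S + l := by
        obtain ⟨r, rfl⟩ := Nat.exists_eq_add_of_le h1
        rw [Nat.add_sub_cancel_left]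
        rw [add_mul] at a
        omega
      have d : t - t0 ≤ (S + l) / s := (Nat.le_div_iff_mul_le hs).2 c
      omega
    have hc := Finset.card_le_card hsub
    rw [Nat.card_Icc] at hc
    have hc' : F.card ≤ (S + l) / s + 1 := by
      generalize (S + l) / s = D at hc ⊢
      omega
    have hd : (((S + l) / s : ℕ) : ℝ) ≤ ((S : ℝ) + l) / s := by
      refine (Nat.cast_div_le).trans ?_
      push_cast
      exact le_rfl
    calc (F.card : ℝ) ≤ (((S + l) / s + 1 : ℕ) : ℝ) := by exact_mod_cast hc'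
      _ = (((S + l) / s : ℕ) : ℝ) + 1 := by push_cast; ring
      _ ≤ _ := by linarith

end TBbAux

open TBbAux

/-- Few `u` have `gcd(M(u), M(-u)) > 1`.
Proof. Let `t = gcd(M u, M(-u)) > 1` (odd, so `t ≥ 3`, and prime to `v`), `w = t u` (a unit).  By `M_dil`
`M u = t M w`, `M(-u) = t M(-w)`; put `s = M w + M(-w)`, so `2q - S ≤ t s ≤ 2q + l` and `3 s ≤ 2q + l`.
`u ↦ (w, t)` is injective.  For given `w` the number of possible `t` is at most `(S+l)/s + 1`.  The number of `w`
with `3 s ≤ 2q + l` is at most `Dd / ((2/3)(2q+l)) ≤ 3 Dd/(4q)` by `deficit` (all summands there are `≥ 0` by `H`).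
`∑_w 1/s ≤ ∑_w 1/M w ≤ (rho + tau^2 √q)(1 + log(2q+l))` by `inv_sum` with `Y = 2q+l`. -/
theorem T4 (h : PDS q v A) (S l : ℕ)
    (H : ∀ u : (ZMod v)ˣ, M A (u : ZMod v) + M A (-(u : ZMod v)) ≤ 2 * q + l) :
    ((univ.filter fun u : (ZMod v)ˣ => Nat.Coprime (M A (u : ZMod v)) v ∧
      2 * q ≤ M A (u : ZMod v) + M A (-(u : ZMod v)) + S ∧
      ¬ Nat.Coprime (M A (u : ZMod v)) (M A (-(u : ZMod v)))).card : ℝ) ≤
      3 * Dd q v l / (4 * q) +
        ((S : ℝ) + l) * ((rho q v + tau v ^ 2 * Real.sqrt q) *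
          (1 + Real.log ((2 * q + l : ℕ) : ℝ))) := by
  classical
  set E := univ.filter fun u : (ZMod v)ˣ => Nat.Coprime (M A (u : ZMod v)) v ∧
      2 * q ≤ M A (u : ZMod v) + M A (-(u : ZMod v)) + S ∧
      ¬ Nat.Coprime (M A (u : ZMod v)) (M A (-(u : ZMod v))) with hE
  set s : (ZMod v)ˣ → ℕ := fun w => M A (w : ZMod v) + M A (-(w : ZMod v)) with hs
  have hs1 : ∀ w, 1 ≤ s w := fun w => le_add_right (M_spec h w.isUnit).1
  set W := univ.filter fun w : (ZMod v)ˣ => 3 * s w ≤ 2 * q + l with hW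
  set B := 2 * q + l + 1 with hB
  set Tt : (ZMod v)ˣ → Finset ℕ := fun w =>
    (range B).filter fun t => 2 * q ≤ t * s w + S ∧ t * s w ≤ 2 * q + l with hTt
  set tt : (ZMod v)ˣ → ℕ := fun u => Nat.gcd (M A (u : ZMod v)) (M A (-(u : ZMod v))) with htt
  -- data for `u ∈ E`
  have key : ∀ u ∈ E, ∃ hc : Nat.Coprime (tt u) v, 3 ≤ tt u ∧
      tt u * s (ZMod.unitOfCoprime (tt u) hc * u) =
        M A (u : ZMod v) + M A (-(u : ZMod v)) := by
    intro u hu
    obtain ⟨h1, h2, h3⟩ := (Finset.mem_filter.1 hu).2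
    have hd1 : tt u ∣ M A (u : ZMod v) := Nat.gcd_dvd_left _ _
    have hd2 : tt u ∣ M A (-(u : ZMod v)) := Nat.gcd_dvd_right _ _
    have hc : Nat.Coprime (tt u) v := Nat.Coprime.coprime_dvd_left hd1 h1
    refine ⟨hc, ?_, ?_⟩
    · have hodd : Odd (tt u) := Odd.of_dvd_nat (M_odd h u.isUnit) hd1
      have hne1 : tt u ≠ 1 := h3
      obtain ⟨k, hk⟩ := hodd
      omega
    · have e1 := M_dil h u.isUnit hc hd1
      have e2 := M_dil h u.isUnit.neg hc hd2
      simp only [hs, Units.val_mul, ZMod.coe_unitOfCoprime]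
      rw [mul_add, e1]
      have e3 : ((tt u : ℕ) : ZMod v) * -(u : ZMod v) = -(((tt u : ℕ) : ZMod v) * (u : ZMod v)) := by
        ring
      rw [e3] at e2
      rw [e2]
  set F : (ZMod v)ˣ → (Σ _ : (ZMod v)ˣ, ℕ) := fun u =>
    if hc : Nat.Coprime (tt u) v then ⟨ZMod.unitOfCoprime (tt u) hc * u, tt u⟩ else ⟨u, 0⟩ with hF
  have hmaps : ∀ u ∈ E, F u ∈ W.sigma Tt := by
    intro u hu
    obtain ⟨hc, h3, hk⟩ := key u hu
    obtain ⟨_, h2, _⟩ := (Finset.mem_filter.1 hu).2
    have hH := H u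
    simp only [hF, dif_pos hc]
    refine Finset.mem_sigma.2 ⟨Finset.mem_filter.2 ⟨Finset.mem_univ _, ?_⟩, ?_⟩
    · have : 3 * s (ZMod.unitOfCoprime (tt u) hc * u) ≤
          tt u * s (ZMod.unitOfCoprime (tt u) hc * u) := Nat.mul_le_mul_right _ h3
      change 3 * s (ZMod.unitOfCoprime (tt u) hc * u) ≤ 2 * q + l
      omega
    · refine Finset.mem_filter.2 ⟨?_, ?_, ?_⟩
      · refine Finset.mem_range.2 ?_
        have : tt u * 1 ≤ tt u * s (ZMod.unitOfCoprime (tt u) hc * u) :=
          Nat.mul_le_mul_left _ (hs1 _)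
        simp only
        omega
      · simp only
        omega
      · simp only
        omega
  have hinj : Set.InjOn F (E : Set (ZMod v)ˣ) := by
    intro u hu u' hu' huu
    obtain ⟨hc, -, -⟩ := key u hu
    obtain ⟨hc', -, -⟩ := key u' hu'
    simp only [hF, dif_pos hc, dif_pos hc'] at huu
    have h1 := congrArg Sigma.fst huu
    have h2 : tt u = tt u' := by
      have := (Sigma.mk.inj_iff.1 huu).2
      exact eq_of_heq this
    simp only at h1
    have h3 : ZMod.unitOfCoprime (tt u) hc = ZMod.unitOfCoprime (tt u') hc' := by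
      ext
      rw [ZMod.coe_unitOfCoprime, ZMod.coe_unitOfCoprime, h2]
    rw [h3] at h1
    exact mul_left_cancel h1
  have hcard : E.card ≤ (W.sigma Tt).card :=
    Finset.card_le_card_of_injOn F hmaps hinj
  rw [Finset.card_sigma] at hcard
  have hq0 : (0 : ℝ) < q := by
    have := h.hq
    have : 0 < q := by omega
    exact_mod_cast this
  -- number of `w`
  have hWc : (W.card : ℝ) ≤ 3 * Dd q v l / (4 * q) := by
    rw [le_div_iff₀ (by positivity)]
    have hsum : (W.card : ℝ) * (4 * q / 3) ≤ Dd q v l := by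
      refine le_trans ?_ (deficit h l)
      calc (W.card : ℝ) * (4 * q / 3) = ∑ u ∈ W, (4 * (q : ℝ) / 3) := by
            rw [Finset.sum_const, nsmul_eq_mul]
        _ ≤ ∑ u ∈ W, (2 * (q : ℝ) + l - M A (u : ZMod v) - M A (-(u : ZMod v))) := by
            refine Finset.sum_le_sum fun u hu => ?_
            have hu' := (Finset.mem_filter.1 hu).2
            have : ((3 * (M A (u : ZMod v) + M A (-(u : ZMod v))) : ℕ) : ℝ) ≤
                ((2 * q + l : ℕ) : ℝ) := by
              exact_mod_cast hu'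
            push_cast at this
            have hl : (0 : ℝ) ≤ l := by positivity
            linarith
        _ ≤ ∑ u : (ZMod v)ˣ, (2 * (q : ℝ) + l - M A (u : ZMod v) - M A (-(u : ZMod v))) := by
            refine Finset.sum_le_sum_of_subset_of_nonneg (Finset.filter_subset _ _) fun u _ _ => ?_
            have : ((M A (u : ZMod v) + M A (-(u : ZMod v)) : ℕ) : ℝ) ≤ ((2 * q + l : ℕ) : ℝ) := by
              exact_mod_cast H u
            push_cast at this
            linarith
    linarith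
  -- sum of `1/s`
  have hinv : ∑ w ∈ W, (1 : ℝ) / s w ≤ (rho q v + tau v ^ 2 * Real.sqrt q) *
      (1 + Real.log ((2 * q + l : ℕ) : ℝ)) := by
    have hY : 1 ≤ 2 * q + l := by
      have := h.hq
      omega
    refine le_trans ?_ (inv_sum h (2 * q + l) hY)
    calc ∑ w ∈ W, (1 : ℝ) / s w ≤ ∑ w ∈ W, (1 : ℝ) / M A (w : ZMod v) := by
          refine Finset.sum_le_sum fun w _ => ?_
          have h1 : (0 : ℝ) < M A (w : ZMod v) := by
            have := (M_spec h w.isUnit).1
            exact_mod_cast this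
          refine one_div_le_one_div_of_le h1 ?_
          have : M A (w : ZMod v) ≤ s w := Nat.le_add_right _ _
          exact_mod_cast this
      _ ≤ _ := by
          refine Finset.sum_le_sum_of_subset_of_nonneg ?_ fun w _ _ => by positivity
          intro w hw
          have hw' := (Finset.mem_filter.1 hw).2
          refine Finset.mem_filter.2 ⟨Finset.mem_univ _, ?_⟩
          have : M A (w : ZMod v) ≤ s w := Nat.le_add_right _ _
          omega
  have hSl : (0 : ℝ) ≤ (S : ℝ) + l := by positivity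
  calc (E.card : ℝ) ≤ ((∑ w ∈ W, (Tt w).card : ℕ) : ℝ) := by exact_mod_cast hcard
    _ = ∑ w ∈ W, ((Tt w).card : ℝ) := by push_cast; rfl
    _ ≤ ∑ w ∈ W, (((S : ℝ) + l) / s w + 1) :=
        Finset.sum_le_sum fun w _ => count_t (2 * q) S l (s w) B (hs1 w)
    _ = W.card + ((S : ℝ) + l) * ∑ w ∈ W, (1 : ℝ) / s w := by
        rw [Finset.sum_add_distrib, Finset.sum_const, nsmul_eq_mul, Finset.mul_sum, mul_one,
          add_comm]
        congr 1
        refine Finset.sum_congr rfl fun w _ => ?_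
        ring
    _ ≤ _ := add_le_add hWc (mul_le_mul_of_nonneg_left hinv hSl)

end Pool.Agent.GolS
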