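import Pool.Agent.GolS.Singer
import Pool.Agent.GolS.TBb
import Pool.Agent.GolS.QuadB
import Pool.Agent.GolS.Count
import Pool.Agent.GolS.Num
import Pool.Agent.GolS.Ruler

open Finset

namespace Pool.Agent.GolS

theorem T_lower {q v : ℕ} [NeZero v] {A : Finset (ZMod v)} (h : PDS q v A) (S l : ℕ) (hS : 1 ≤ S)
    (H : ∀ u : (ZMod v)ˣ, M A (u : ZMod v) + M A (-(u : ZMod v)) ≤ 2 * q + l) :
    rho q v * (kap v * q / 4 - l / 2 - 3 / 2 - tau v) - tau v ^ 2 * Real.sqrt q * (2 * q + l)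
        - Dd q v l / S - 3 * Dd q v l / (4 * q) -
        ((S : ℝ) + l) * ((rho q v + tau v ^ 2 * Real.sqrt q) *
          (1 + Real.log ((2 * q + l : ℕ) : ℝ))) ≤ ((T A q S).card : ℝ) := by
  have h2 := T2 h S l hS H
  have h3 := T3 h l H
  have h4 := T4 h S l H
  have hsub : (univ.filter fun u : (ZMod v)ˣ => 2 * M A (u : ZMod v) ≤ q ∧
        Nat.Coprime (M A (u : ZMod v)) v) ⊆ T A q S ∪
      ((univ.filter fun u : (ZMod v)ˣ =>
      M A (u : ZMod v) + M A (-(u : ZMod v)) + S < 2 * q) ∪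
      (univ.filter fun u : (ZMod v)ˣ => Nat.Coprime (M A (u : ZMod v)) v ∧
      2 * q ≤ M A (u : ZMod v) + M A (-(u : ZMod v)) + S ∧
      ¬ Nat.Coprime (M A (u : ZMod v)) (M A (-(u : ZMod v))))) := by
    intro u hu
    simp only [mem_filter, mem_univ, true_and, T, mem_union] at hu ⊢
    by_cases c1 : M A (u : ZMod v) + M A (-(u : ZMod v)) + S < 2 * q
    · right; left; exact c1
    · by_cases c2 : Nat.Coprime (M A (u : ZMod v)) (M A (-(u : ZMod v)))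
      · left; exact ⟨hu.1, hu.2, by omega, c2⟩
      · right; right; exact ⟨hu.2, by omega, c2⟩
  have hc := (card_le_card hsub).trans ((card_union_le _ _).trans
    (Nat.add_le_add_left (card_union_le _ _) _))
  have hc' : ((univ.filter fun u : (ZMod v)ˣ => 2 * M A (u : ZMod v) ≤ q ∧
        Nat.Coprime (M A (u : ZMod v)) v).card : ℝ) ≤ ((T A q S).card : ℝ) +
      (((univ.filter fun u : (ZMod v)ˣ =>
      M A (u : ZMod v) + M A (-(u : ZMod v)) + S < 2 * q).card : ℝ) +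
      ((univ.filter fun u : (ZMod v)ˣ => Nat.Coprime (M A (u : ZMod v)) v ∧
      2 * q ≤ M A (u : ZMod v) + M A (-(u : ZMod v)) + S ∧
      ¬ Nat.Coprime (M A (u : ZMod v)) (M A (-(u : ZMod v)))).card : ℝ)) := by
    exact_mod_cast hc
  linarith

theorem main_aux {q v : ℕ} [NeZero v] {A : Finset (ZMod v)} (hA : PDS q v A) (N S l : ℕ)
    (hlS : l ≤ S) (hSq : S ≤ q) (hS1 : 1 ≤ S)
    (hnum : (2 * ((q : ℝ) + 1) + N * (160 * 64 ^ N * (Real.sqrt (((S : ℝ) + 2) / q) * q + 1))) *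
        (rho q v + tau v * Real.sqrt q) <
      N * (rho q v * (kap v * q / 4 - l / 2 - 3 / 2 - tau v) - tau v ^ 2 * Real.sqrt q * (2 * q + l)
        - Dd q v l / S - 3 * Dd q v l / (4 * q) -
        ((S : ℝ) + l) * ((rho q v + tau v ^ 2 * Real.sqrt q) *
          (1 + Real.log ((2 * q + l : ℕ) : ℝ))))) :
    ∃ B : Finset ℕ, B.card = q + 1 ∧ (∀ x ∈ B, x + (2 * q + l) + 1 ≤ v) ∧
      ∀ a ∈ B, ∀ b ∈ B, ∀ c ∈ B, ∀ d ∈ B, b < a → d < c → a - b = c - d → a = c ∧ b = d := by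
  have hcontra : ¬ ∀ u : (ZMod v)ˣ, M A (u : ZMod v) + M A (-(u : ZMod v)) ≤ 2 * q + l := by
    intro H
    have hq2 := hA.hq
    have c1 := count_ineq hA N S l hlS hSq H
    have c2 := T_lower hA S l hS1 H
    have c3 := F2 hA 1
    have c4 := Exc_card N q (by omega) (((S : ℝ) + 2) / q) (by positivity)
    have hg : Nat.gcd 1 v = 1 := Nat.gcd_one_left v
    rw [hg] at c3
    simp only [Nat.cast_one, mul_one] at c3
    have hN : (0 : ℝ) ≤ N := Nat.cast_nonneg N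
    have c5 := mul_le_mul_of_nonneg_left c2 hN
    have hq0 : (0 : ℝ) ≤ q := Nat.cast_nonneg q
    have c6 : (2 * ((q : ℝ) + 1) + N * (Exc N q (((S : ℝ) + 2) / q)).card) * hc A 1 ≤
        (2 * ((q : ℝ) + 1) + N * (160 * 64 ^ N * (Real.sqrt (((S : ℝ) + 2) / q) * q + 1))) *
        (rho q v + tau v * Real.sqrt q) := by
      apply mul_le_mul _ c3 (Nat.cast_nonneg _) (by positivity)
      have := mul_le_mul_of_nonneg_left c4 hN
      linarith
    linarith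
  push Not at hcontra
  obtain ⟨u, hu⟩ := hcontra
  exact ruler hA u (2 * q + l) hu

theorem main (ε : ℝ) (h0 : 0 < ε) (h1 : ε < 1) : ∃ e0 : ℕ, ∀ e : ℕ, e0 ≤ e → ∀ k : ℕ, k + 1 = 2 ^ e →
    ∃ B : Finset ℕ, B.card = k + 2 ∧
      (∀ x ∈ B, (x : ℝ) + ((k : ℝ) + 1) ^ (1 - ε) ≤ (k : ℝ) ^ 2 + k) ∧
      ∀ a ∈ B, ∀ b ∈ B, ∀ c ∈ B, ∀ d ∈ B, b < a → d < c → a - b = c - d → a = c ∧ b = d := by
  obtain ⟨e0, he0⟩ := num ε h0 h1
  refine ⟨max e0 1, fun e he k hk => ?_⟩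
  have he1 : 1 ≤ e := (le_max_right _ _).trans he
  obtain ⟨A, hA⟩ := singer e he1
  obtain ⟨N, S, l, hl, hlS, hSq, hS1, hnum⟩ := he0 e ((le_max_left _ _).trans he) (2 ^ e)
    ((2 ^ e) ^ 2 + 2 ^ e + 1) rfl rfl
  have : NeZero ((2 ^ e) ^ 2 + 2 ^ e + 1) := ⟨by omega⟩
  obtain ⟨B, hB1, hB2, hB3⟩ := main_aux hA N S l hlS hSq hS1 hnum
  refine ⟨B, by omega, fun x hx => ?_, hB3⟩
  have hx' := hB2 x hx
  rw [← hk] at hx' hl
  have : ((x + (2 * (k + 1) + l) + 1 : ℕ) : ℝ) ≤ (((k + 1) ^ 2 + (k + 1) + 1 : ℕ) : ℝ) := by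
    exact_mod_cast hx'
  push_cast at this hl
  nlinarith

end Pool.Agent.GolS
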