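import Pool.Agent.GolS.Defs

open Finset

namespace Pool.Agent.GolS

namespace QuadAAux

theorem three (al be ga : ℝ) (hal : 1 ≤ |al|) (eps : ℝ) (heps : 0 ≤ eps) (x1 x2 x3 : ℝ)
    (h12 : Real.sqrt (2 * eps) < x2 - x1) (h23 : Real.sqrt (2 * eps) < x3 - x2)
    (hP1 : |al * x1 ^ 2 + be * x1 + ga| ≤ eps) (hP2 : |al * x2 ^ 2 + be * x2 + ga| ≤ eps)
    (hP3 : |al * x3 ^ 2 + be * x3 + ga| ≤ eps) : False := by
  have hs0 : 0 ≤ Real.sqrt (2 * eps) := Real.sqrt_nonneg _
  have hss : Real.sqrt (2 * eps) * Real.sqrt (2 * eps) = 2 * eps :=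
    Real.mul_self_sqrt (by linarith)
  have hd12 : 0 < x2 - x1 := lt_of_le_of_lt hs0 h12
  have hd23 : 0 < x3 - x2 := lt_of_le_of_lt hs0 h23
  have hprod : 2 * eps < (x2 - x1) * (x3 - x2) := by
    rw [← hss]
    exact mul_lt_mul'' h12 h23 hs0 hs0
  have hid : al * ((x2 - x1) * (x3 - x2) * (x3 - x1)) =
      (al * x1 ^ 2 + be * x1 + ga) * (x3 - x2) - (al * x2 ^ 2 + be * x2 + ga) * (x3 - x1) +
        (al * x3 ^ 2 + be * x3 + ga) * (x2 - x1) := by ring
  set P1 := al * x1 ^ 2 + be * x1 + ga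
  set P2 := al * x2 ^ 2 + be * x2 + ga
  set P3 := al * x3 ^ 2 + be * x3 + ga
  have hd13 : 0 < x3 - x1 := by linarith
  have habs : |al * ((x2 - x1) * (x3 - x2) * (x3 - x1))| ≤ 2 * eps * (x3 - x1) := by
    rw [hid]
    have e1 : |P1 * (x3 - x2)| ≤ eps * (x3 - x2) := by
      rw [abs_mul, abs_of_pos hd23]
      exact mul_le_mul_of_nonneg_right hP1 hd23.le
    have e2 : |P2 * (x3 - x1)| ≤ eps * (x3 - x1) := by
      rw [abs_mul, abs_of_pos hd13]
      exact mul_le_mul_of_nonneg_right hP2 hd13.le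
    have e3 : |P3 * (x2 - x1)| ≤ eps * (x2 - x1) := by
      rw [abs_mul, abs_of_pos hd12]
      exact mul_le_mul_of_nonneg_right hP3 hd12.le
    rw [abs_le] at e1 e2 e3 ⊢
    constructor <;> nlinarith [e1.1, e1.2, e2.1, e2.2, e3.1, e3.2]
  rw [abs_mul, abs_of_pos (by positivity : 0 < (x2 - x1) * (x3 - x2) * (x3 - x1))] at habs
  have h1 : (x2 - x1) * (x3 - x2) * (x3 - x1) ≤
      |al| * ((x2 - x1) * (x3 - x2) * (x3 - x1)) := by
    have : 0 ≤ (x2 - x1) * (x3 - x2) * (x3 - x1) := by positivity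
    nlinarith
  have h2 : (x2 - x1) * (x3 - x2) * (x3 - x1) ≤ 2 * eps * (x3 - x1) := le_trans h1 habs
  have h3 : (x2 - x1) * (x3 - x2) ≤ 2 * eps := le_of_mul_le_mul_right h2 hd13
  linarith

end QuadAAux

/-- A quadratic with leading coefficient at least one is small at few points `m/q`.
Proof. `L = ⌊√(2 eps) q⌋₊`.  There are no three integers `z1 < z2 < z3` in the set with `z2 > z1 + L`, `z3 > z2 + L`:
with `d12 = (z2-z1)/q > √(2 eps)`, `d23 = (z3-z2)/q > √(2 eps)`, `d13 = d12 + d23` one has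
`al = P1/(d12 d13) - P2/(d12 d23) + P3/(d13 d23)`, i.e. `al d12 d23 d13 = P1 d23 - P2 d13 + P3 d12`, so
`|al| ≤ 2 eps/(d12 d23) < 1` (if `eps = 0`: the three values vanish and `al = 0`).  So the set lies in
`[z, z+L] ∪ [z', z'+L]`, `z` its minimum, `z'` the minimum of the rest. -/
theorem quad_count (al be ga : ℝ) (hal : 1 ≤ |al|) (eps : ℝ) (heps : 0 ≤ eps) (q : ℕ) (hq : 1 ≤ q)
    (Z : Finset ℕ) (hZ : ∀ m ∈ Z, |al * ((m : ℝ) / q) ^ 2 + be * ((m : ℝ) / q) + ga| ≤ eps) :
    (Z.card : ℝ) ≤ 2 * (Real.sqrt (2 * eps) * q + 1) := by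
  have hqr : (0 : ℝ) < q := by exact_mod_cast hq
  have hs0 : 0 ≤ Real.sqrt (2 * eps) * q := by positivity
  obtain ⟨L, hL⟩ : ∃ L : ℕ, L = ⌊Real.sqrt (2 * eps) * q⌋₊ := ⟨_, rfl⟩
  have hL1 : (L : ℝ) ≤ Real.sqrt (2 * eps) * q := by
    rw [hL]; exact Nat.floor_le hs0
  have hL2 : Real.sqrt (2 * eps) * q < L + 1 := by
    rw [hL]; exact Nat.lt_floor_add_one _
  have hdist : ∀ z w : ℕ, z + L < w → Real.sqrt (2 * eps) < (w : ℝ) / q - (z : ℝ) / q := by
    intro z w h
    rw [← sub_div, lt_div_iff₀ hqr]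
    have : ((z + L + 1 : ℕ) : ℝ) ≤ (w : ℝ) := by exact_mod_cast h
    push_cast at this
    linarith
  have key : ∀ z1 ∈ Z, ∀ z2 ∈ Z, ∀ z3 ∈ Z, z1 + L < z2 → z2 + L < z3 → False := by
    intro z1 h1 z2 h2 z3 h3 h12 h23
    exact QuadAAux.three al be ga hal eps heps _ _ _ (hdist _ _ h12) (hdist _ _ h23)
      (hZ _ h1) (hZ _ h2) (hZ _ h3)
  have hcov : Z.card ≤ 2 * (L + 1) := by
    rcases Z.eq_empty_or_nonempty with h0 | hne
    · simp [h0]
    · have hz := Z.min'_mem hne
      set z := Z.min' hne with hzdef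
      rcases (Z.filter fun y => z + L < y).eq_empty_or_nonempty with h1 | h1
      · have hsub : Z ⊆ Icc z (z + L) := by
          intro y hy
          rw [mem_Icc]
          refine ⟨Z.min'_le y hy, ?_⟩
          by_contra hcon
          have : y ∈ Z.filter fun y => z + L < y := by
            rw [mem_filter]; exact ⟨hy, by omega⟩
          rw [h1] at this
          simp at this
        have := card_le_card hsub
        rw [Nat.card_Icc] at this
        omega
      · have hz' := (Z.filter fun y => z + L < y).min'_mem h1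
        set z' := (Z.filter fun y => z + L < y).min' h1 with hz'def
        rw [mem_filter] at hz'
        have hsub : Z ⊆ Icc z (z + L) ∪ Icc z' (z' + L) := by
          intro y hy
          rw [mem_union, mem_Icc, mem_Icc]
          by_cases hyz : y ≤ z + L
          · exact Or.inl ⟨Z.min'_le y hy, hyz⟩
          · right
            have hy' : y ∈ Z.filter fun y => z + L < y := by
              rw [mem_filter]; exact ⟨hy, by omega⟩
            refine ⟨(Z.filter fun y => z + L < y).min'_le y hy', ?_⟩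
            by_contra hcon
            exact key z hz z' hz'.1 y hy hz'.2 (by omega)
        have h2 := (card_le_card hsub).trans (card_union_le _ _)
        rw [Nat.card_Icc, Nat.card_Icc] at h2
        omega
  have : (Z.card : ℝ) ≤ ((2 * (L + 1) : ℕ) : ℝ) := by exact_mod_cast hcov
  push_cast at this
  linarith

end Pool.Agent.GolS
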