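import Pool.Agent.GolS.Defs

open Finset

namespace Pool.Agent.GolS

namespace SingerAux

variable {K : Type*} [Field K] [CharP K 2]

/-- The trace to the subfield with `2 ^ e` elements. -/
def tr (e : ℕ) (x : K) : K := x + x ^ (2 ^ e) + (x ^ (2 ^ e)) ^ (2 ^ e)

theorem tr_add (e : ℕ) (x y : K) : tr e (x + y) = tr e x + tr e y := by
  unfold tr
  rw [add_pow_char_pow, add_pow_char_pow]
  ring

theorem tr_sub (e : ℕ) (x y : K) : tr e (x - y) = tr e x - tr e y := by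
  have h := tr_add e (x - y) y
  rw [sub_add_cancel] at h
  rw [h]; ring

theorem tr_mul (e : ℕ) {c : K} (hc : c ^ (2 ^ e) = c) (x : K) : tr e (c * x) = c * tr e x := by
  unfold tr
  rw [mul_pow, mul_pow, hc, hc]
  ring

theorem tr_sq (e : ℕ) (x : K) : tr e (x ^ 2) = tr e x ^ 2 := by
  unfold tr
  rw [add_pow_char, add_pow_char]
  ring

theorem tr_one (e : ℕ) : tr e (1 : K) ≠ 0 := by
  unfold tr
  have h2 : (2 : K) = 0 := CharP.cast_eq_zero K 2
  have h : (1 : K) + 1 ^ (2 ^ e) + (1 ^ (2 ^ e)) ^ (2 ^ e) = 1 := by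
    simp only [one_pow]
    linear_combination h2
  rw [h]
  exact one_ne_zero

theorem tr_fix (e : ℕ) (hK : ∀ x : K, ((x ^ (2 ^ e)) ^ (2 ^ e)) ^ (2 ^ e) = x) (x : K) :
    tr e x ^ (2 ^ e) = tr e x := by
  unfold tr
  rw [add_pow_char_pow, add_pow_char_pow, hK]
  ring

/-- Two vectors orthogonal to `1` and `g`, `g` not in the subfield, are proportional. -/
theorem prop (e : ℕ) (hK : ∀ x : K, ((x ^ (2 ^ e)) ^ (2 ^ e)) ^ (2 ^ e) = x) {g x y : K}
    (hg : g ^ (2 ^ e) ≠ g) (hx : tr e x = 0) (hgx : tr e (g * x) = 0) (hy : tr e y = 0)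
    (hgy : tr e (g * y) = 0) : x * y ^ (2 ^ e) = y * x ^ (2 ^ e) := by
  have hinj : ∀ a b : K, a ^ (2 ^ e) = b ^ (2 ^ e) → a = b := by
    intro a b hab
    rw [← hK a, ← hK b, hab]
  unfold tr at hx hgx hy hgy
  rw [mul_pow, mul_pow] at hgx hgy
  have hne : g - (g ^ (2 ^ e)) ^ (2 ^ e) ≠ 0 := by
    intro h0
    apply hg
    have h1 : g = (g ^ (2 ^ e)) ^ (2 ^ e) := sub_eq_zero.1 h0
    have h2 := hK g
    rw [← h1] at h2
    exact h2
  apply mul_left_cancel₀ hne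
  linear_combination (y ^ (2 ^ e)) * hgx - (x ^ (2 ^ e)) * hgy -
    (g ^ (2 ^ e)) ^ (2 ^ e) * (y ^ (2 ^ e)) * hx + (g ^ (2 ^ e)) ^ (2 ^ e) * (x ^ (2 ^ e)) * hy

/-- There is a vector orthogonal to `1` and `g`. -/
theorem exists_orth (e : ℕ) [Fintype K] [DecidableEq K] (he : 1 ≤ e)
    (hcard : Fintype.card K = (2 ^ e) ^ 3)
    (hK : ∀ x : K, ((x ^ (2 ^ e)) ^ (2 ^ e)) ^ (2 ^ e) = x) (g : K) :
    ∃ x : K, x ≠ 0 ∧ tr e x = 0 ∧ tr e (g * x) = 0 := by
  have hq2 : 2 ≤ 2 ^ e := by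
    calc 2 = 2 ^ 1 := rfl
      _ ≤ 2 ^ e := Nat.pow_le_pow_right (by norm_num) he
  let F := {c : K // c ^ (2 ^ e) = c}
  have hF : Fintype.card F ≤ 2 ^ e := by
    have h1 : Fintype.card F = (univ.filter fun c : K => c ^ (2 ^ e) = c).card :=
      Fintype.card_subtype _
    rw [h1]
    have h2 : (univ.filter fun c : K => c ^ (2 ^ e) = c) ⊆
        insert 0 ((univ.filter fun u : Kˣ => u ^ (2 ^ e - 1) = 1).image fun u : Kˣ => (u : K)) := by
      intro c hc
      rw [mem_filter] at hc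
      rw [mem_insert]
      by_cases h0 : c = 0
      · exact Or.inl h0
      · right
        rw [mem_image]
        refine ⟨Units.mk0 c h0, ?_, rfl⟩
        rw [mem_filter]
        refine ⟨mem_univ _, ?_⟩
        apply Units.ext
        push_cast
        rw [Units.val_mk0]
        apply mul_left_cancel₀ h0
        rw [← pow_succ', Nat.sub_add_cancel (by omega), hc.2, mul_one]
    refine (card_le_card h2).trans ((card_insert_le _ _).trans ?_)
    have h3 := IsCyclic.card_pow_eq_one_le (α := Kˣ) (n := 2 ^ e - 1) (by omega)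
    have h4 := (card_image_le (s := univ.filter fun u : Kˣ => u ^ (2 ^ e - 1) = 1)
      (f := fun u : Kˣ => (u : K)))
    omega
  let f : K → F × F := fun x =>
    (⟨tr e x, tr_fix e hK x⟩, ⟨tr e (g * x), tr_fix e hK (g * x)⟩)
  obtain ⟨x, y, hxy, hf⟩ := Fintype.exists_ne_map_eq_of_card_lt f (by
    rw [Fintype.card_prod, hcard]
    calc Fintype.card F * Fintype.card F ≤ 2 ^ e * 2 ^ e := Nat.mul_le_mul hF hF
      _ < (2 ^ e) ^ 3 := by
        have : (2 ^ e) ^ 3 = 2 ^ e * (2 ^ e * 2 ^ e) := by ring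
        rw [this]
        have h0 : 0 < 2 ^ e * 2 ^ e := by positivity
        nlinarith)
  have h1 : tr e x = tr e y := congrArg (fun z => (z.1 : K)) hf
  have h2 : tr e (g * x) = tr e (g * y) := congrArg (fun z => (z.2 : K)) hf
  refine ⟨x - y, sub_ne_zero.2 hxy, ?_, ?_⟩
  · rw [tr_sub, h1, sub_self]
  · rw [mul_sub, tr_sub, h2, sub_self]

end SingerAux

open SingerAux

/-- SINGER.  For `q = 2 ^ e` there is a planar difference set with multiplier two. -/
theorem singer (e : ℕ) (he : 1 ≤ e) :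
    ∃ A : Finset (ZMod ((2 ^ e) ^ 2 + 2 ^ e + 1)), PDS (2 ^ e) ((2 ^ e) ^ 2 + 2 ^ e + 1) A := by
  classical
  have h2p : Fact (Nat.Prime 2) := ⟨Nat.prime_two⟩
  let K := GaloisField 2 (3 * e)
  let _ : Fintype K := Fintype.ofFinite K
  have hcard : Fintype.card K = (2 ^ e) ^ 3 := by
    rw [← Nat.card_eq_fintype_card]
    change Nat.card (GaloisField 2 (3 * e)) = _
    rw [GaloisField.card 2 (3 * e) (by omega), ← pow_mul, mul_comm]
  have hK : ∀ x : K, ((x ^ (2 ^ e)) ^ (2 ^ e)) ^ (2 ^ e) = x := by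
    intro x
    have h := FiniteField.pow_card x
    rw [hcard] at h
    rw [← pow_mul, ← pow_mul, ← h]
    congr 1
    ring
  set q := 2 ^ e with hq
  have hq2 : 2 ≤ q := by
    calc 2 = 2 ^ 1 := rfl
      _ ≤ 2 ^ e := Nat.pow_le_pow_right (by norm_num) he
  set v := q ^ 2 + q + 1 with hv
  have : NeZero v := ⟨by omega⟩
  obtain ⟨w, hw⟩ := IsCyclic.exists_generator (α := Kˣ)
  have hord : orderOf w = (q - 1) * v := by
    rw [orderOf_eq_card_of_forall_mem_zpowers hw, Nat.card_eq_fintype_card,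
      Fintype.card_units, hcard, hv]
    obtain ⟨r, hr⟩ : ∃ r, q = r + 1 := ⟨q - 1, by omega⟩
    rw [hr, Nat.add_sub_cancel]
    have : (r + 1) ^ 3 = r * ((r + 1) ^ 2 + (r + 1) + 1) + 1 := by ring
    rw [this, Nat.add_sub_cancel]
  -- elements of the subfield
  have hsub : ∀ n : ℤ, ((w ^ n : Kˣ) : K) ^ q = ((w ^ n : Kˣ) : K) ↔ (v : ℤ) ∣ n := by
    intro n
    have h1 : ((w ^ n : Kˣ) : K) ^ q = ((w ^ n : Kˣ) : K) ↔ (w ^ n) ^ ((q : ℤ)) = w ^ n := by
      rw [Units.ext_iff]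
      push_cast
      rw [zpow_natCast]
    rw [h1, ← zpow_mul]
    have h2 : w ^ (n * (q : ℤ)) = w ^ n ↔ w ^ (n * ((q : ℤ) - 1)) = 1 := by
      rw [mul_sub, mul_one, zpow_sub, mul_inv_eq_one]
    rw [h2, ← orderOf_dvd_iff_zpow_eq_one, hord]
    have hq1 : ((q : ℤ) - 1) ≠ 0 := by
      have : (2 : ℤ) ≤ q := by exact_mod_cast hq2
      omega
    have h3 : (((q - 1) * v : ℕ) : ℤ) = ((q : ℤ) - 1) * v := by
      push_cast [Nat.cast_sub (by omega : 1 ≤ q)]
      ring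
    rw [h3, mul_comm n]
    exact mul_dvd_mul_iff_left hq1
  let S : ℤ → Prop := fun n => tr e ((w ^ n : Kˣ) : K) = 0
  have hS : ∀ n m : ℤ, (v : ℤ) ∣ n - m → (S n ↔ S m) := by
    intro n m h
    have h1 := (hsub (n - m)).2 h
    have h2 : ((w ^ n : Kˣ) : K) = ((w ^ (n - m) : Kˣ) : K) * ((w ^ m : Kˣ) : K) := by
      rw [← Units.val_mul, ← zpow_add, sub_add_cancel]
    change tr e ((w ^ n : Kˣ) : K) = 0 ↔ tr e ((w ^ m : Kˣ) : K) = 0
    rw [h2, tr_mul e h1, mul_eq_zero]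
    exact ⟨fun h => h.resolve_left (Units.ne_zero _), Or.inr⟩
  let A : Finset (ZMod v) := univ.filter fun j => S (j.val : ℤ)
  have hA : ∀ n : ℤ, (n : ZMod v) ∈ A ↔ S n := by
    intro n
    rw [mem_filter]
    simp only [mem_univ, true_and]
    apply hS
    rw [← ZMod.intCast_zmod_eq_zero_iff_dvd]
    push_cast
    rw [ZMod.natCast_val, ZMod.cast_id', id, sub_self]
  have hlift : ∀ a : ZMod v, ∃ n : ℤ, (n : ZMod v) = a := ZMod.intCast_surjective
  have hcastne : ∀ n : ℤ, (n : ZMod v) = 0 ↔ (v : ℤ) ∣ n := fun n =>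
    ZMod.intCast_zmod_eq_zero_iff_dvd n v
  have hsidon : ∀ a ∈ A, ∀ b ∈ A, ∀ c ∈ A, ∀ d ∈ A, a ≠ b → a - b = c - d → a = c ∧ b = d := by
    intro a ha b hb c hc d hd hab habcd
    obtain ⟨b', rfl⟩ := hlift b
    obtain ⟨d', rfl⟩ := hlift d
    obtain ⟨δ, hδ⟩ := hlift (a - (b' : ZMod v))
    have hδ0 : ¬ (v : ℤ) ∣ δ := by
      rw [← hcastne, hδ]
      exact sub_ne_zero.2 hab
    have ha' : a = ((δ + b' : ℤ) : ZMod v) := by push_cast; rw [hδ]; ring
    have hc' : c = ((δ + d' : ℤ) : ZMod v) := by push_cast; rw [hδ, habcd]; ring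
    rw [ha', hA] at ha
    rw [hc', hA] at hc
    rw [hA] at hb hd
    have hg : ((w ^ δ : Kˣ) : K) ^ q ≠ ((w ^ δ : Kˣ) : K) := fun h => hδ0 ((hsub δ).1 h)
    have ha2 : tr e (((w ^ δ : Kˣ) : K) * ((w ^ b' : Kˣ) : K)) = 0 := by
      rw [← Units.val_mul, ← zpow_add]; exact ha
    have hc2 : tr e (((w ^ δ : Kˣ) : K) * ((w ^ d' : Kˣ) : K)) = 0 := by
      rw [← Units.val_mul, ← zpow_add]; exact hc
    have hpr := prop e hK hg hb ha2 hd hc2
    have hbd : (v : ℤ) ∣ b' - d' := by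
      rw [← hsub]
      have hd0 : ((w ^ d' : Kˣ) : K) ≠ 0 := Units.ne_zero _
      have e1 : ((w ^ (b' - d') : Kˣ) : K) = ((w ^ b' : Kˣ) : K) / ((w ^ d' : Kˣ) : K) := by
        rw [zpow_sub, Units.val_mul, Units.val_inv_eq_inv_val, div_eq_mul_inv]
      rw [e1, div_pow, div_eq_div_iff (pow_ne_zero _ hd0) hd0]
      linear_combination -hpr
    have hbd' : (b' : ZMod v) = (d' : ZMod v) := by
      rw [← sub_eq_zero]
      have := (hcastne (b' - d')).2 hbd
      push_cast at this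
      exact this
    refine ⟨?_, hbd'⟩
    rw [ha', hc']
    push_cast
    rw [hbd']
  have hdiff : ∀ d : ZMod v, d ≠ 0 → ∃ a ∈ A, ∃ b ∈ A, a - b = d := by
    intro d _
    obtain ⟨δ, rfl⟩ := hlift d
    obtain ⟨x, hx0, hx1, hx2⟩ := exists_orth e he hcard hK ((w ^ δ : Kˣ) : K)
    obtain ⟨n, hn⟩ := hw (Units.mk0 x hx0)
    have hxn : x = ((w ^ n : Kˣ) : K) := by
      have : w ^ n = Units.mk0 x hx0 := hn
      rw [this]; rfl
    refine ⟨((δ + n : ℤ) : ZMod v), ?_, (n : ZMod v), ?_, by push_cast; ring⟩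
    · rw [hA]
      change tr e ((w ^ (δ + n) : Kˣ) : K) = 0
      rw [zpow_add, Units.val_mul, ← hxn]
      exact hx2
    · rw [hA]
      change tr e ((w ^ n : Kˣ) : K) = 0
      rw [← hxn]
      exact hx1
  refine ⟨A, ⟨rfl, hq2, ?_, hdiff, hsidon, ?_, ?_⟩⟩
  · -- cardinality
    have h1 : A.offDiag.card = (univ.erase (0 : ZMod v)).card := by
      apply card_bij (fun p _ => p.1 - p.2)
      · intro p hp
        rw [mem_offDiag] at hp
        exact mem_erase.2 ⟨sub_ne_zero.2 hp.2.2, mem_univ _⟩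
      · intro p hp p' hp' hpp
        rw [mem_offDiag] at hp hp'
        have := hsidon _ hp.1 _ hp.2.1 _ hp'.1 _ hp'.2.1 hp.2.2 hpp
        exact Prod.ext this.1 this.2
      · intro d hd
        obtain ⟨a, ha, b, hb, hab⟩ := hdiff d (ne_of_mem_erase hd)
        refine ⟨(a, b), ?_, hab⟩
        rw [mem_offDiag]
        refine ⟨ha, hb, ?_⟩
        rw [← sub_ne_zero]
        simp only
        rw [hab]
        exact ne_of_mem_erase hd
    rw [offDiag_card, card_erase_of_mem (mem_univ _), card_univ, ZMod.card] at h1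
    have hv1 : v - 1 = q ^ 2 + q := by omega
    rw [hv1] at h1
    have h2 : A.card * A.card = q ^ 2 + q + A.card := by
      have : A.card ≤ A.card * A.card := Nat.le_mul_self _
      omega
    by_contra hne
    rcases Nat.lt_or_gt_of_ne hne with h | h
    · nlinarith
    · nlinarith
  · intro a
    obtain ⟨n, rfl⟩ := hlift a
    have : (2 : ZMod v) * (n : ZMod v) = ((2 * n : ℤ) : ZMod v) := by push_cast; ring
    rw [this, hA, hA]
    change tr e ((w ^ (2 * n) : Kˣ) : K) = 0 ↔ tr e ((w ^ n : Kˣ) : K) = 0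
    rw [mul_comm (2 : ℤ) n, zpow_mul]
    have h3 : (((w ^ n) ^ (2 : ℤ) : Kˣ) : K) = ((w ^ n : Kˣ) : K) ^ 2 := by
      rw [show (2 : ℤ) = ((2 : ℕ) : ℤ) from rfl, zpow_natCast]
      push_cast
      rfl
    rw [h3, tr_sq]
    exact pow_eq_zero_iff two_ne_zero
  · have h0 : (0 : ZMod v) = ((0 : ℤ) : ZMod v) := by push_cast; rfl
    rw [h0, hA]
    change tr e ((w ^ (0 : ℤ) : Kˣ) : K) ≠ 0
    rw [zpow_zero, Units.val_one]
    exact tr_one e

end Pool.Agent.GolS
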