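import Pool.Agent.GolS.Det
import Pool.Agent.GolS.Elim

open Finset

namespace Pool.Agent.GolS

variable {q v : ℕ} [NeZero v] {A : Finset (ZMod v)}

/-- Three points of the same pair on different levels: the value `M` of the first is exceptional.
Proof: `det_rel` for `(u0,u1,s)`, `(u1,u2,t)`, `(u0,u2,s+t)`, then `E_bound` three times and `elim_bound`. -/
theorem triple_exc (h : PDS q v A) (N S l : ℕ) (hlS : l ≤ S) (hSq : S ≤ q)
    (H : ∀ u : (ZMod v)ˣ, M A (u : ZMod v) + M A (-(u : ZMod v)) ≤ 2 * q + l)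
    {u0 u1 u2 : (ZMod v)ˣ} (hu0 : u0 ∈ T A q S) (hu1 : u1 ∈ T A q S) (hu2 : u2 ∈ T A q S)
    (s t : ℕ) (hs : 1 ≤ s) (ht : 1 ≤ t) (hst : s + t < N)
    (h01 : (M A (u0 : ZMod v) : ZMod v) * u0 = (M A (u1 : ZMod v) : ZMod v) * u1)
    (h12 : (M A (u1 : ZMod v) : ZMod v) * u1 = (M A (u2 : ZMod v) : ZMod v) * u2)
    (g01 : (M A (-(u1 : ZMod v)) : ZMod v) * (-(u1 : ZMod v)) =
      2 ^ s * ((M A (-(u0 : ZMod v)) : ZMod v) * (-(u0 : ZMod v))))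
    (g12 : (M A (-(u2 : ZMod v)) : ZMod v) * (-(u2 : ZMod v)) =
      2 ^ t * ((M A (-(u1 : ZMod v)) : ZMod v) * (-(u1 : ZMod v)))) :
    M A (u0 : ZMod v) ∈ Exc N q (((S : ℝ) + 2) / q) := by
  classical
  have hl : l ≤ q := hlS.trans hSq
  have g02 : (M A (-(u2 : ZMod v)) : ZMod v) * (-(u2 : ZMod v)) =
      2 ^ (s + t) * ((M A (-(u0 : ZMod v)) : ZMod v) * (-(u0 : ZMod v))) := by
    rw [g12, g01, pow_add]; ring
  obtain ⟨k01, e01, b01, -, -⟩ := det_rel h S l hl H hu0 hu1 s h01 g01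
  obtain ⟨k12, e12, b12, o12, -⟩ := det_rel h S l hl H hu1 hu2 t h12 g12
  obtain ⟨k02, e02, b02, -, -⟩ := det_rel h S l hl H hu0 hu2 (s + t) (h01.trans h12) g02
  have hq2 := h.hq
  have hq1 : 1 ≤ q := by omega
  have hT : ∀ u : (ZMod v)ˣ, u ∈ T A q S → 2 * M A (u : ZMod v) ≤ q ∧
      2 * q ≤ M A (u : ZMod v) + M A (-(u : ZMod v)) + S := by
    intro u hu
    unfold T at hu
    rw [mem_filter] at hu
    exact ⟨hu.2.1, hu.2.2.2.1⟩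
  obtain ⟨m0, n0⟩ := hT u0 hu0
  obtain ⟨m1, n1⟩ := hT u1 hu1
  obtain ⟨m2, n2⟩ := hT u2 hu2
  have E01 := E_bound q v S l _ _ _ _ s k01 h.hv hq1 hlS m0 m1 n0 (H u0) n1 (H u1) b01 e01
  have E12 := E_bound q v S l _ _ _ _ t k12 h.hv hq1 hlS m1 m2 n1 (H u1) n2 (H u2) b12 e12
  have E02 := E_bound q v S l _ _ _ _ (s + t) k02 h.hv hq1 hlS m0 m2 n0 (H u0) n2 (H u2) b02 e02
  have hq0 : (0 : ℝ) < q := by exact_mod_cast hq1
  have hy : ∀ m : ℕ, 2 * m ≤ q → 0 ≤ (m : ℝ) / q ∧ (m : ℝ) / q ≤ 1 / 2 := by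
    intro m hm
    refine ⟨by positivity, ?_⟩
    rw [div_le_div_iff₀ hq0 (by norm_num)]
    have : (2 : ℝ) * m ≤ q := by exact_mod_cast hm
    linarith
  have ha : (2 : ℝ) ≤ 2 ^ s := by
    calc (2 : ℝ) = 2 ^ 1 := by norm_num
      _ ≤ 2 ^ s := pow_le_pow_right₀ (by norm_num) hs
  have hb : (2 : ℝ) ≤ 2 ^ t := by
    calc (2 : ℝ) = 2 ^ 1 := by norm_num
      _ ≤ 2 ^ t := pow_le_pow_right₀ (by norm_num) ht
  have hk : |(k01 : ℝ)| ≤ 2 * 2 ^ s := by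
    have h1 : |(k01 : ℝ)| < 2 ^ (s + 1) := by exact_mod_cast b01
    rw [pow_succ] at h1
    linarith
  have heta : (0 : ℝ) ≤ ((S : ℝ) + 2) / q := by positivity
  rw [pow_add] at E02
  have hfin := elim_bound (2 ^ s) (2 ^ t) k01 k12 k02 _ _ _ _ ha hb hk (hy _ m0).1 (hy _ m0).2
    (hy _ m2).1 (hy _ m2).2 heta E01 E12 E02
  unfold Exc
  rw [mem_filter, mem_Icc]
  have hM1 := (M_spec h u0.isUnit).1
  refine ⟨⟨hM1, by omega⟩, s, t, hs, ht, hst, k01, k12, k02, b01, o12 ht, b12, b02, hfin⟩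

end Pool.Agent.GolS
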